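import Pool.Agent.Lib.MP_fc51f7_nt.MT.BVL

/-! Bilinear Bombieri-Vinogradov estimate for any number of forms. -/

set_option autoImplicit false
set_option linter.unusedSectionVars false

namespace Pool.Agent.Lib.MP_fc51f7_nt.MT

open Finset Filter Topology BV

theorem pow_cardK (K : ℕ) {ε : ℝ} (hε : 0 < ε) : ∃ C : ℝ, 0 < C ∧ ∀ (ι : Type) (q : ι → ℕ),
    Function.Injective q → (∀ i, (q i).Prime) → ∀ E : Finset ι,
    (3 * 4 ^ K : ℝ) ^ E.card ≤ C * ((∏ i ∈ E, q i : ℕ) : ℝ) ^ ε := by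
  obtain ⟨C, hC, h⟩ := pow_card_le (3 * 4 ^ K) ε
    (by linarith [one_le_pow₀ (n := K) (show (1 : ℝ) ≤ 4 by norm_num)]) hε
  refine ⟨C, hC, fun ι q hq hp E => ?_⟩
  have := h (E.image q) fun p hp' => by
    obtain ⟨i, -, rfl⟩ := mem_image.1 hp'
    exact (hp i).two_le
  rwa [card_image_of_injective _ hq, prod_image fun _ _ _ _ e => hq e, ← Nat.cast_prod] at this

theorem log_powK (n : ℕ) {s : ℝ} (hs : 0 < s) (C : ℝ) :
    ∀ᶠ x : ℕ in atTop, C * Real.log x ^ n ≤ (x : ℝ) ^ s := by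
  have h := ((isLittleO_log_rpow_rpow_atTop n hs).const_mul_left C).bound zero_lt_one
  filter_upwards [tendsto_natCast_atTop_atTop.eventually h] with x hx
  rw [one_mul, Real.norm_of_nonneg (by positivity : 0 ≤ (x : ℝ) ^ s)] at hx
  have := (le_abs_self _).trans hx
  exact_mod_cast this

section
variable {κ : Type} [Fintype κ] [DecidableEq κ]

theorem boxK {G : ℕ} (D : ℕ) (hD : 2 * G + 16 ≤ D) {η δ ε : ℝ} (hη : 0 < η) (hδ : 0 < δ)
    (hε : 0 < ε) (g : κ → ℤ) (hg : Function.Injective g) (hG : ∀ j, g j ≠ 0 ∧ |g j| ≤ G) (a : ℕ) :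
    ∀ᶠ x : ℕ in atTop, ∀ (y y' : (κ → Finset (PP D x)) → ℝ) (β : ℕ → ℝ) (lo hi j r : ℕ)
      (S : Finset ℕ), (∀ T, |y T| ≤ 1) → (∀ T, |y' T| ≤ 1) →
      (∀ T U, y T ≠ 0 → y' U ≠ 0 →
        lgs (qq D x) T + lgs (qq D x) U ≤ (1 / 2 - η) * Real.log x) →
      (∀ m ∈ S, |β m| ≤ 1 ∧ (x : ℝ) ^ η ≤ m ∧ (∀ p ∈ m.primeFactors, (x : ℝ) ^ η < p) ∧
        box δ m = j) →
      (x : ℝ) ^ η ≤ lo → (hi : ℝ) ≤ 2 * x * Real.exp (-(j * δ)) →
      |∑ m ∈ S, β m * ∑ p ∈ Ioc lo hi with p.Prime ∧ p * r ≡ a [MOD primorial D],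
        Real.log p * (SS (qq D x) g y (p * m : ℕ) * SS (qq D x) g y' (p * m : ℕ) -
          Tbar (qq D x) g y y')| ≤ ε * x * (Real.log x ^ Fintype.card κ / Real.log x) := by
  classical
  obtain ⟨K, hK⟩ : ∃ K, K = Fintype.card κ := ⟨_, rfl⟩
  rw [← hK]
  set s := η / 200 with hs
  have hs0 : 0 < s := by positivity
  obtain ⟨Ca, hCa, ha⟩ := pow_cardK K (ε := 1 / 2) (by norm_num)
  obtain ⟨Cb, hCb, hb⟩ := pow_cardK K hs0
  obtain ⟨Cc, hCc, hc⟩ := pow_cardK K (ε := s / (2 * (K + 1))) (by positivity)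
  set C0 : ℝ := 3 * 2 ^ K * Real.exp (4 ^ K * cK K) with hC0
  have hC0' : 0 < C0 := by positivity
  set Ce : ℝ := 6 * 2 ^ (2 * K) * Cc with hCe
  have hCe' : 0 < Ce := by positivity
  set e' := ε / (6 * Real.exp δ) with he'
  have he0 : 0 < e' := by positivity
  obtain ⟨Q, hQ1, hQ2⟩ : ∃ Q : ℕ, D ≤ Q ∧ 18 * C0 * Ca / (e' * s ^ 2) ≤ √Q := by
    obtain ⟨Q, h1, h2⟩ := ((eventually_ge_atTop D).and
      ((Real.tendsto_sqrt_atTop.comp tendsto_natCast_atTop_atTop).eventually_ge_atTop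
        (18 * C0 * Ca / (e' * s ^ 2)))).exists
    exact ⟨Q, h1, h2⟩
  set e1 := e' * s / (300 * C0 * Ca * (1 + (Q : ℝ) ^ 2)) with he1
  have he10 : 0 < e1 := by positivity
  clear_value e1 e' Ce C0 s
  obtain ⟨t0, ht0⟩ := small_cond D Q a hQ1 he10
  have hpow : ∀ t : ℝ, 0 < t → Tendsto (fun x : ℕ => (x : ℝ) ^ t) atTop atTop := fun t ht =>
    (tendsto_rpow_atTop ht).comp tendsto_natCast_atTop_atTop
  filter_upwards [log_ev, Zf_ev D le_rfl, Zf_ev D one_le_two,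
    log_powK (2 * K + 2 + 1) hs0 ((2 * Ce + 6000 * C0 * Cb) / e'),
    (hpow s hs0).eventually_ge_atTop 4, (hpow η hη).eventually_ge_atTop t0,
    (hpow η hη).eventually_ge_atTop G,
    tendsto_natCast_atTop_atTop.eventually_ge_atTop (2 * Real.exp δ + 8 + G)]
    with x hL hZ1 hZ2 hsm hY ht hYG hxG y y' β lo hi j r S hy hy' hsupp hS hlo hhi
  have hG0 : (0 : ℝ) ≤ G := Nat.cast_nonneg G
  have hx : 2 * Real.exp δ + 8 ≤ x := by linarith
  set L := Real.log x with hLdef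
  set Y := (x : ℝ) ^ s with hYdef
  have hed : 1 ≤ Real.exp δ := Real.one_le_exp hδ.le
  have hx0 : (0 : ℝ) < x := by linarith
  have hL0 : 0 < L := by linarith
  have hY0 : 0 < Y := by linarith
  have hη' : (x : ℝ) ^ η = Y ^ 200 := by
    rw [hYdef, ← Real.rpow_natCast, ← Real.rpow_mul hx0.le]; congr 1; rw [hs]; push_cast; ring
  have hlY : Real.log Y = s * L := Real.log_rpow hx0 s
  rw [hη'] at hS hlo ht hYG
  rcases S.eq_empty_or_nonempty with rfl | ⟨m0, hm0⟩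
  · rw [sum_empty, abs_zero]; positivity
  rcases le_or_gt hi lo with hlh | hlh
  · simp only [Ioc_eq_empty_of_le hlh, filter_empty, sum_empty, mul_zero, sum_const_zero, abs_zero]
    positivity
  obtain ⟨r1, r2, r3, r4, r5, r6⟩ := level hY
  set R := ⌊Y ^ 2⌋₊ with hR
  set S' := (Ioc lo hi).filter fun p => p.Prime ∧ p * r ≡ a [MOD primorial D] with hS'
  set M := Real.exp ((j + 1) * δ) with hM
  set N := 2 * x * Real.exp (-(j * δ)) with hN
  have hMN : M * N = 2 * Real.exp δ * x := by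
    rw [hM, hN, show ((j : ℝ) + 1) * δ = δ + j * δ by ring, Real.exp_add, Real.exp_neg]
    field_simp
  have hY1 : (1 : ℝ) ≤ Y := by linarith
  have hY2 : Y ^ 2 ≤ Y ^ 200 := pow_le_pow_right₀ hY1 (by norm_num)
  have hY3 : (16 : ℝ) ≤ Y ^ 200 := (show (16 : ℝ) = 4 ^ 2 by norm_num).trans_le
    ((pow_le_pow_left₀ (by norm_num) hY 2).trans hY2)
  have a1 : ∀ m ∈ S, 1 ≤ m ∧ (m : ℝ) ≤ M := fun m hm => by
    have h0 : (1 : ℝ) ≤ m := by linarith [(hS m hm).2.1]
    refine ⟨by exact_mod_cast h0, ?_⟩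
    rw [hM, ← Real.log_le_iff_le_exp (by linarith), ← div_le_iff₀ hδ, ← (hS m hm).2.2.2]
    exact (Nat.lt_floor_add_one _).le
  have a2 : ∀ p ∈ S', p.Prime ∧ Y ^ 200 < p ∧ (p : ℝ) ≤ N := fun p hp => by
    simp only [hS', mem_filter, mem_Ioc] at hp
    exact ⟨hp.2.1, hlo.trans_lt (by exact_mod_cast hp.1.1),
      le_trans (by exact_mod_cast hp.1.2) hhi⟩
  have a3 : ∀ p ∈ S', 1 ≤ p ∧ (p : ℝ) ≤ N := fun p hp => ⟨(a2 p hp).1.pos, (a2 p hp).2.2⟩
  have hM0 : 0 < M := Real.exp_pos _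
  have hN0 : 0 < N := by positivity
  clear_value M N Y
  have hM1 : Y ^ 200 ≤ M := (hS m0 hm0).2.1.trans (a1 m0 hm0).2
  have hN1 : Y ^ 200 ≤ N := hlo.trans (le_trans (by exact_mod_cast hlh.le) hhi)
  have a4 : ∀ m ∈ S, ∀ l : ℕ, l.Prime → l ∣ m → Y ^ 200 < l := fun m hm l hl hd =>
    (hS m hm).2.2.1 l (Nat.mem_primeFactors.2 ⟨hl, hd, by have := (a1 m hm).1; omega⟩)
  have a5 : ∀ p ∈ S', ∀ l : ℕ, l.Prime → l ∣ p → Y ^ 200 < l := fun p hp l hl hd =>
    (Nat.prime_dvd_prime_iff_eq hl (a2 p hp).1).1 hd ▸ (a2 p hp).2.1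
  have a6 : ∀ p ∈ S', |Real.log p| ≤ 2 * L := fun p hp => by
    have h1 : N ≤ 2 * x := hN ▸ mul_le_of_le_one_right (by positivity)
      (Real.exp_le_one_iff.2 (neg_nonpos.2 (by positivity)))
    have h2 : (0 : ℝ) < p := by exact_mod_cast (a2 p hp).1.pos
    rw [abs_of_nonneg (Real.log_natCast_nonneg p), hLdef,
      show 2 * Real.log x = Real.log (x ^ 2) by simp]
    refine Real.log_le_log h2 (((a2 p hp).2.2.trans h1).trans ?_)
    rw [sq]
    exact mul_le_mul_of_nonneg_right (by linarith only [hx, hed]) hx0.le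
  have h16 : ∀ i, 2 * G + 16 < qq D x i := fun i => hD.trans_lt (lt_qq D x i)
  have hpr : ∀ i, (qq D x i).Prime := fun i => Fact.out
  have hsL : ∀ T U, y T ≠ 0 → y' U ≠ 0 → lgs (qq D x) T + lgs (qq D x) U ≤ L :=
    fun T U h1 h2 => (hsupp T U h1 h2).trans
      (mul_le_of_le_one_left hL0.le (by linarith only [hη]))
  have hE : ∀ m ∈ S, ∀ p ∈ S', |SS (qq D x) g y (p * m : ℕ) * SS (qq D x) g y' (p * m : ℕ) -
      ThK (qq D x) g y y' (p * m)| ≤ Ce * L ^ (2 * K) / Y := by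
    intro m hm p hp
    refine (errK hL0 (lam := Y ^ 200) (by linarith) h16 hK.ge hG hy hy' hsL (p * m) fun i hi =>
      ((Nat.Prime.dvd_mul (hpr i)).1 hi).elim (fun h => (a5 p hp _ (hpr i) h).le)
        fun h => (a4 m hm _ (hpr i) h).le).trans ?_
    have b1 : (G : ℝ) < (p * m : ℕ) := by
      have : (1 : ℝ) ≤ m := by exact_mod_cast (a1 m hm).1
      push_cast
      exact (hYG.trans_lt (a2 p hp).2.1).trans_le (le_mul_of_one_le_right (Nat.cast_nonneg p) this)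
    have b2 : ((p * m : ℕ) : ℝ) + G ≤ x ^ 2 := by
      have : (p : ℝ) * m ≤ N * M := mul_le_mul (a3 p hp).2 (a1 m hm).2 (by positivity)
        (by positivity)
      have d1 := mul_le_mul_of_nonneg_right hxG hx0.le
      have d2 : (G : ℝ) ≤ G * x := le_mul_of_one_le_right hG0 (by linarith only [hx, hed])
      rw [mul_comm N M, hMN] at this
      push_cast
      linarith only [this, d1, d2, hx0]
    generalize p * m = n at b1 b2
    have b3 : (G : ℤ) < n := by exact_mod_cast b1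
    have b4 : (n : ℤ) * ∏ j, (n + g j) ≠ 0 := mul_ne_zero (by omega) (prod_ne_zero_iff.2
      fun j _ => by have := abs_le.1 (hG j).2; omega)
    have b5 : |(((n : ℤ) * ∏ j, (n + g j) : ℤ) : ℝ)| ≤ x ^ (2 * (K + 1)) := by
      have c : ∀ j, |(n : ℝ) + g j| ≤ x ^ 2 := fun j => by
        have : |(g j : ℝ)| ≤ G := by exact_mod_cast (hG j).2
        exact (abs_add_le _ _).trans (by rw [Nat.abs_cast]; linarith)
      push_cast
      rw [abs_mul, abs_prod, Nat.abs_cast]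
      calc _ ≤ (x : ℝ) ^ 2 * ∏ _j : κ, (x : ℝ) ^ 2 := by
            gcongr with j
            exacts [by linarith, c j]
        _ = _ := by rw [prod_const, card_univ, ← hK]; ring
    have b6 := (prod_le_of_dvd (qq_inj D x) hpr b4 fun i hi =>
      (mem_filter.1 (show i ∈ univ.filter _ from hi)).2).trans b5
    have b7 := (hc _ _ (qq_inj D x) hpr _).trans (mul_le_mul_of_nonneg_left
      (Real.rpow_le_rpow (Nat.cast_nonneg _) b6 (by positivity)) hCc.le)
    rw [← Real.rpow_natCast (x : ℝ), ← Real.rpow_mul hx0.le,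
      show ((2 * (K + 1) : ℕ) : ℝ) * (s / (2 * (K + 1))) = s by push_cast; field_simp,
      ← hYdef] at b7
    rw [one_mul] at hZ1
    have b8 := Zf_nonneg (q := qq D x) L⁻¹
    calc _ ≤ 2 * (Y ^ 2)⁻¹ * (3 * ((2 * L) ^ (2 * K) * (Cc * Y))) := by gcongr
      _ = _ := by rw [hCe, mul_pow]; field_simp; ring
  set F := ⌊(x : ℝ) ^ (1 / 2 - η)⌋₊ with hF
  have hF1 : (F : ℝ) ≤ (x : ℝ) ^ (1 / 2 - η) := Nat.floor_le (by positivity)
  have hF2 : (F : ℝ) ≤ x := hF1.trans (by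
    simpa using Real.rpow_le_rpow_of_exponent_le (x := x) (by linarith)
      (show 1 / 2 - η ≤ 1 by linarith))
  have hcp : ∀ χ : Ch (qq D x), (0 : ℝ) < cond (qq D x) χ := fun χ => by
    exact_mod_cast BV.cond_pos χ
  obtain ⟨P, hP⟩ : ∃ P, P = L ^ K := ⟨_, rfl⟩
  have hP1 : 1 ≤ P := hP ▸ one_le_pow₀ hL
  rw [← hP]
  have w0 : ∀ χ, ‖CCK (qq D x) g y y' χ‖ ≤
      C0 * P * ((3 * 4 ^ K) ^ (supp (qq D x) χ).card / cond (qq D x) χ) := fun χ => by
    refine (norm_CCK_le hL0 (qq_inj D x) h16 hK.ge hg hG hy hy' hsL χ).trans ?_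
    rw [← hK]
    have := Zf_nonneg (q := qq D x) (2 * L⁻¹)
    calc _ ≤ 3 * ((2 * L) ^ K * Real.exp (4 ^ K * cK K)) *
          ((3 * 4 ^ K) ^ (supp (qq D x) χ).card / (cond (qq D x) χ : ℝ)) := by gcongr
      _ = _ := by rw [hC0, hP, mul_pow]; ring
  have w3 : ∀ χ, F < cond (qq D x) χ → ‖CCK (qq D x) g y y' χ‖ = 0 := fun χ h => by
    by_contra h0
    have := CCK_support hsupp (norm_ne_zero_iff.1 h0)
    rw [hLdef, ← Real.log_rpow hx0, Real.log_le_log_iff (hcp χ) (by positivity)] at this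
    exact h.not_ge (Nat.le_floor this)
  have key := box_bound (qq_inj D x) (R := R) (Q := Q) (F := F) (M := M) (N := N) (c := 2 * L)
    (ε := e1) (C := C0 * P * Ca) (V := C0 * P * (Cb * Y)) (S := S) (S' := S')
    (a := fun m => β m) (b := fun p => Real.log p) r1 (by omega) (by positivity) he10.le
    (by positivity) (by positivity) a1 a3
    (fun m hm l hl hd => by exact_mod_cast (r2.trans hY2).trans_lt (a4 m hm l hl hd))
    (fun m hm l hl hd => by exact_mod_cast (r2.trans hY2).trans_lt (a5 m hm l hl hd))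
    (fun m hm => by simpa using (hS m hm).1)
    (fun p hp => by rw [Complex.norm_real]; exact a6 p hp)
    (r6 M hM1) (r6 N hN1) (by
      have d1 : M * (2 * (R : ℝ) ^ 2) ≤ M * N := by gcongr; linarith
      have d2 : N * (2 * (R : ℝ) ^ 2) ≤ N * M := by gcongr; linarith
      linarith) (by
      have d1 : ((x : ℝ) ^ (1 / 2 - η)) ^ 2 * (Y ^ 200) ^ 2 = x := by
        rw [← hη', ← mul_pow, ← Real.rpow_add hx0, sub_add_cancel, ← Real.sqrt_eq_rpow,
          Real.sq_sqrt hx0.le]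
      calc _ ≤ ((x : ℝ) ^ (1 / 2 - η)) ^ 2 * (Y ^ 200) ^ 2 := by gcongr; exact r2.trans hY2
        _ ≤ _ := by
          rw [d1, hMN]
          exact le_mul_of_one_le_left hx0.le (by linarith only [hed]))
    (fun χ => ‖CCK (qq D x) g y y' χ‖) (fun χ => by
      refine (w0 χ).trans ?_
      have d1 := ha _ _ (qq_inj D x) hpr (supp (qq D x) χ)
      rw [← Real.sqrt_eq_rpow] at d1
      have d2 := Real.sqrt_pos.2 (hcp χ)
      rw [mul_div_assoc]
      refine mul_le_mul_of_nonneg_left ?_ (by positivity)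
      rw [div_le_div_iff₀ (hcp χ) d2]
      calc _ ≤ Ca * √(cond (qq D x) χ) * √(cond (qq D x) χ) :=
            mul_le_mul_of_nonneg_right d1 d2.le
        _ = _ := by rw [mul_assoc, Real.mul_self_sqrt (hcp χ).le]) (fun χ => by
      rcases le_or_gt (cond (qq D x) χ) F with h | h
      · refine (w0 χ).trans ?_
        have d1 := (hb _ _ (qq_inj D x) hpr (supp (qq D x) χ)).trans (mul_le_mul_of_nonneg_left
          (Real.rpow_le_rpow (Nat.cast_nonneg _) ((Nat.cast_le.2 h).trans hF2) hs0.le) hCb.le)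
        rw [mul_div_assoc]
        rw [← hYdef] at d1
        gcongr
      · rw [w3 χ h]; positivity) w3 (fun χ h1 h2 =>
      (ht0 _ _ (qq_inj D x) (lt_qq D x) χ lo hi r h1 h2 (ht.trans hlo)).trans (by gcongr))
  refine (splitK (qq D x) g y y' S S' β (fun p => Real.log p) (fun m hm => (hS m hm).1)
    a6 hE).trans ?_
  have f1 : (S.card : ℝ) * (S'.card * (2 * L * (Ce * L ^ (2 * K) / Y))) ≤
      M * N * (2 * Ce * L ^ (2 * K + 2) / Y) := by
    have d1 := card_le_real (by positivity) a1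
    have d2 := card_le_real (by positivity) a3
    have d3 : L ^ (2 * K + 1) ≤ L ^ (2 * K + 2) := pow_le_pow_right₀ hL (by omega)
    calc _ ≤ M * (N * (2 * L * (Ce * L ^ (2 * K) / Y))) := by gcongr
      _ = M * N * (2 * Ce * L ^ (2 * K + 1) / Y) := by ring
      _ ≤ _ := by gcongr
  have hsl : 0 < s * L := by positivity
  rw [hlY] at r4
  have f2 : 300 * (C0 * P * Ca) * (1 + (Q : ℝ) ^ 2) * e1 / Real.log R ≤ e' * (P / L) := by
    calc _ ≤ 300 * (C0 * P * Ca) * (1 + (Q : ℝ) ^ 2) * e1 / (s * L) := by gcongr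
      _ = _ := by rw [he1]; field_simp
  have f3 : 9 * (C0 * P * Ca) * (2 * L) / (√Q * Real.log R ^ 2) ≤ e' * (P / L) := by
    calc _ ≤ 9 * (C0 * P * Ca) * (2 * L) / (18 * C0 * Ca / (e' * s ^ 2) * (s * L) ^ 2) := by
          gcongr
      _ = _ := by field_simp; ring
  have f4 : ((Nat.log 2 F + 1 : ℕ) : ℝ) * (500 * (C0 * P * (Cb * Y)) * (2 * L) / R) ≤
      6000 * C0 * Cb * L ^ (2 * K + 2) / Y := by
    have d1 := log_two_le hF2 hL (by linarith)
    have d2 : L ^ (K + 2) ≤ L ^ (2 * K + 2) := pow_le_pow_right₀ hL (by omega)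
    calc _ ≤ 3 * L * (500 * (C0 * P * (Cb * Y)) * (2 * L) / (Y ^ 2 / 2)) := by gcongr
      _ = 6000 * C0 * Cb * L ^ (K + 2) / Y := by rw [hP]; field_simp; ring
      _ ≤ _ := by gcongr
  have f5 : 2 * Ce * L ^ (2 * K + 2) / Y + 6000 * C0 * Cb * L ^ (2 * K + 2) / Y ≤
      e' * (P / L) := by
    rw [div_mul_eq_mul_div, div_le_iff₀ he0, pow_succ] at hsm
    rw [← add_div, ← mul_div_assoc, div_le_div_iff₀ hY0 hL0]
    have := mul_le_mul_of_nonneg_left hP1 (mul_pos hY0 he0).le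
    linarith
  have f6 : M * N * (3 * (e' * (P / L))) = ε * x * (P / L) := by
    rw [hMN, he']; field_simp; ring
  have f7 : 0 ≤ M * N := by positivity
  have f8 := mul_le_mul_of_nonneg_left (add_le_add (add_le_add f2 f3) f4) f7
  have f9 := mul_le_mul_of_nonneg_left f5 f7
  linarith

theorem bvK {G : ℕ} (D : ℕ) (hD : 2 * G + 16 ≤ D) {η δ ε : ℝ} (hη : 0 < η) (hδ : 0 < δ)
    (hε : 0 < ε) (g : κ → ℤ) (hg : Function.Injective g) (hG : ∀ j, g j ≠ 0 ∧ |g j| ≤ G) (a : ℕ) :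
    ∀ᶠ x : ℕ in atTop, ∀ (y y' : (κ → Finset (PP D x)) → ℝ) (β : ℕ → ℝ) (lo hi : ℕ → ℕ),
      (∀ T, |y T| ≤ 1) → (∀ T, |y' T| ≤ 1) →
      (∀ T U, y T ≠ 0 → y' U ≠ 0 →
        lgs (qq D x) T + lgs (qq D x) U ≤ (1 / 2 - η) * Real.log x) →
      (∀ m, |β m| ≤ 1) →
      (∀ m, β m ≠ 0 → (x : ℝ) ^ η ≤ m ∧ (m : ℝ) ≤ (x : ℝ) ^ (1 - η) ∧
        ∀ p ∈ m.primeFactors, (x : ℝ) ^ η < p) →
      (∀ j, (x : ℝ) ^ η ≤ lo j ∧ (hi j : ℝ) ≤ 2 * x * Real.exp (-(j * δ))) →
      |∑ m ∈ Icc 1 x, β m * ∑ p ∈ Ioc (lo (box δ m)) (hi (box δ m)) with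
          p.Prime ∧ p * m ≡ a [MOD primorial D],
        Real.log p * (SS (qq D x) g y (p * m : ℕ) * SS (qq D x) g y' (p * m : ℕ) -
          Tbar (qq D x) g y y')| ≤ ε * x * Real.log x ^ Fintype.card κ := by
  classical
  have hW : 0 < primorial D := primorial_pos D
  have hW' : (0 : ℝ) < primorial D := by exact_mod_cast hW
  filter_upwards [boxK D hD hη hδ (ε := ε / ((δ⁻¹ + 1) * primorial D)) (by positivity)
    g hg hG a, BV.log_ev] with x hx hL y y' β lo hi hy hy' hs hβ hβ' hlh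
  have hL0 : 0 < Real.log x := by linarith
  rw [← sum_filter_of_ne (p := fun m => β m ≠ 0) fun m _ h => left_ne_zero_of_mul h,
    ← sum_fiberwise_of_maps_to (t := range (box δ x + 1) ×ˢ range (primorial D))
      (g := fun m => (box δ m, m % primorial D)) fun m hm => ?_]
  · refine (abs_sum_le_sum_abs _ _).trans ((sum_le_card_nsmul _ _
      (ε / ((δ⁻¹ + 1) * primorial D) * x *
        (Real.log x ^ Fintype.card κ / Real.log x)) fun k _ => ?_).trans ?_)
    · refine le_trans (le_of_eq ?_) (hx y y' β (lo k.1) (hi k.1) k.1 k.2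
        (((Icc 1 x).filter fun m => β m ≠ 0).filter fun m => (box δ m, m % primorial D) = k)
        hy hy' hs (fun m hm => ?_) (hlh _).1 (hlh _).2)
      · congr 1
        refine sum_congr rfl fun m hm => ?_
        rw [← (mem_filter.1 hm).2]
        have e : ∀ p : ℕ, p * (m % primorial D) ≡ p * m [MOD primorial D] := fun p =>
          (Nat.mod_modEq m _).mul_left p
        congr 2
        exact filter_congr fun p _ => and_congr_right fun _ => ⟨(e p).trans, (e p).symm.trans⟩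
      · have h1 := hβ' m (mem_filter.1 (mem_filter.1 hm).1).2
        exact ⟨hβ m, h1.1, h1.2.2, congrArg Prod.fst (mem_filter.1 hm).2⟩
    · rw [card_product, card_range, card_range, nsmul_eq_mul]
      have h1 : (box δ x : ℝ) ≤ Real.log x / δ := Nat.floor_le (by positivity)
      have h2 : ((box δ x + 1 : ℕ) : ℝ) ≤ (δ⁻¹ + 1) * Real.log x := by
        rw [div_eq_inv_mul] at h1
        push_cast
        linarith
      rw [Nat.cast_mul]
      calc _ ≤ (δ⁻¹ + 1) * Real.log x * primorial D *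
            (ε / ((δ⁻¹ + 1) * primorial D) * x *
              (Real.log x ^ Fintype.card κ / Real.log x)) := by gcongr
        _ = _ := by field_simp
  · have h1 := mem_Icc.1 (mem_filter.1 hm).1
    refine mem_product.2 ⟨mem_range.2 (Nat.lt_succ_of_le (Nat.floor_le_floor ?_)),
      mem_range.2 (Nat.mod_lt _ hW)⟩
    have : (0 : ℝ) < m := by exact_mod_cast h1.1
    gcongr
    exact h1.2

end

end Pool.Agent.Lib.MP_fc51f7_nt.MT
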