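import Pool.Agent.Lib.MP_fc51f7_nt.MT.Loc

/-! Character expansion of the product of two sieve sums, any number of forms. -/

set_option autoImplicit false
set_option linter.unusedSectionVars false

namespace Pool.Agent.Lib.MP_fc51f7_nt.MT

open Finset Filter Topology

noncomputable section

variable {ι κ : Type} [Fintype ι] [DecidableEq ι] [Fintype κ] [DecidableEq κ]
  (q : ι → ℕ) [hq : ∀ i, Fact (q i).Prime] (g : κ → ℤ) (y y' : (κ → Finset ι) → ℝ)

/-- the coefficient of a family of characters -/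
def CCK (χ : Ch q) : ℂ :=
  ∑ T : κ → Finset ι, ∑ U : κ → Finset ι,
    (y T * y' U : ℝ) * ∏ i, BV.co (q i) g (tr T i) (tr U i) (χ i)

/-- the main term -/
def ThK (n : ℕ) : ℝ :=
  ∑ T : κ → Finset ι, ∑ U : κ → Finset ι,
    y T * y' U * ∏ i, BV.th0 (q i) g (tr T i) (tr U i) n

open BV

lemma ThK_eq (n : ℕ) : (ThK q g y y' n : ℂ) = ∑ χ : Ch q, CCK q g y y' χ * ev q χ n := by
  simp only [CCK, sum_mul, ThK, ev_eq, mul_assoc, ← prod_mul_distrib]
  rw [Complex.ofReal_sum, sum_comm]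
  refine sum_congr rfl fun T _ => ?_
  rw [Complex.ofReal_sum, sum_comm]
  refine sum_congr rfl fun U _ => ?_
  rw [← mul_sum, ← mul_assoc, Complex.ofReal_mul, Complex.ofReal_prod]
  simp only [← expand]
  rw [Fintype.prod_sum]

lemma ThK_sub (n : ℕ) : ((ThK q g y y' n - Tbar q g y y' : ℝ) : ℂ) =
    ∑ χ ∈ univ.erase (1 : Ch q), CCK q g y y' χ * ev q χ n := by
  have h1 : CCK q g y y' 1 = Tbar q g y y' := by
    simp only [CCK, Tbar, Pi.one_apply, co_one]
    push_cast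
    rfl
  have h2 : ev q 1 n = 1 := by simp [ev_eq, e1]
  rw [Complex.ofReal_sub, ThK_eq, ← add_sum_erase _ _ (mem_univ 1), h1, h2]
  ring

/-- Splitting a bilinear sum into the error term and the character sums. -/
theorem splitK (S S' : Finset ℕ) (β γ : ℕ → ℝ) {c E : ℝ}
    (hβ : ∀ m ∈ S, |β m| ≤ 1) (hγ : ∀ p ∈ S', |γ p| ≤ c)
    (hE : ∀ m ∈ S, ∀ p ∈ S',
      |SS q g y (p * m : ℕ) * SS q g y' (p * m : ℕ) - ThK q g y y' (p * m)| ≤ E) :
    |∑ m ∈ S, β m * ∑ p ∈ S', γ p * (SS q g y (p * m : ℕ) * SS q g y' (p * m : ℕ) -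
      Tbar q g y y')| ≤ S.card * (S'.card * (c * E)) + ∑ χ ∈ univ.erase (1 : Ch q),
        ‖CCK q g y y' χ‖ * (‖∑ m ∈ S, (β m : ℂ) * ev q χ m‖ * ‖∑ p ∈ S', (γ p : ℂ) * ev q χ p‖) := by
  have e : ∑ m ∈ S, β m * ∑ p ∈ S', γ p * (SS q g y (p * m : ℕ) * SS q g y' (p * m : ℕ) -
      Tbar q g y y') = ∑ m ∈ S, β m * ∑ p ∈ S', γ p * (SS q g y (p * m : ℕ) *
        SS q g y' (p * m : ℕ) - ThK q g y y' (p * m)) +
      ∑ m ∈ S, β m * ∑ p ∈ S', γ p * (ThK q g y y' (p * m) - Tbar q g y y') := by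
    simp only [← sum_add_distrib, ← mul_add, sub_add_sub_cancel]
  rw [e]
  refine (abs_add_le _ _).trans (add_le_add ?_ ?_)
  · rw [← nsmul_eq_mul]
    refine (abs_sum_le_sum_abs _ _).trans (sum_le_card_nsmul _ _ _ fun m hm => ?_)
    rw [abs_mul, ← nsmul_eq_mul]
    refine (mul_le_of_le_one_left (abs_nonneg _) (hβ m hm)).trans
      ((abs_sum_le_sum_abs _ _).trans (sum_le_card_nsmul _ _ _ fun p hp => ?_))
    rw [abs_mul]
    exact mul_le_mul (hγ p hp) (hE m hm p hp) (abs_nonneg _) ((abs_nonneg _).trans (hγ p hp))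
  · rw [← Real.norm_eq_abs, ← Complex.norm_real]
    have e2 : ((∑ m ∈ S, β m * ∑ p ∈ S', γ p * (ThK q g y y' (p * m) - Tbar q g y y') : ℝ) : ℂ) =
        ∑ χ ∈ univ.erase (1 : Ch q), CCK q g y y' χ * ((∑ m ∈ S, (β m : ℂ) * ev q χ m) *
          ∑ p ∈ S', (γ p : ℂ) * ev q χ p) := by
      simp only [Complex.ofReal_sum, Complex.ofReal_mul, ThK_sub, ev_mul, sum_mul_sum]
      simp only [mul_sum]
      rw [sum_comm (s := univ.erase (1 : Ch q))]
      refine sum_congr rfl fun m _ => ?_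
      rw [sum_comm (s := univ.erase (1 : Ch q))]
      exact sum_congr rfl fun p _ => sum_congr rfl fun χ _ => by ring
    rw [e2]
    exact (norm_sum_le _ _).trans (sum_le_sum fun χ _ => by rw [norm_mul, norm_mul])

variable {q g y y'}

theorem CCK_support {Λ : ℝ} (hs : ∀ T U, y T ≠ 0 → y' U ≠ 0 → lgs q T + lgs q U ≤ Λ) {χ : Ch q}
    (h : CCK q g y y' χ ≠ 0) : Real.log (cond q χ) ≤ Λ := by
  obtain ⟨T, -, h⟩ := exists_ne_zero_of_sum_ne_zero h
  obtain ⟨U, -, h⟩ := exists_ne_zero_of_sum_ne_zero h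
  have h1 := left_ne_zero_of_mul h
  have h2 := prod_ne_zero_iff.1 (right_ne_zero_of_mul h)
  rw [Complex.ofReal_ne_zero] at h1
  refine le_trans ?_ (hs T U (left_ne_zero_of_mul h1) (right_ne_zero_of_mul h1))
  rw [cond, Nat.cast_prod, Real.log_prod fun i _ => by exact_mod_cast (hq i).out.ne_zero, lgs_eq,
    lgs_eq, ← sum_add_distrib]
  have h0 : ∀ i, 0 ≤ Real.log (q i) := fun i => Real.log_natCast_nonneg _
  refine le_trans (sum_le_sum fun i hi => ?_)
    (sum_le_sum_of_subset_of_nonneg (subset_univ (supp q χ)) fun i _ _ => by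
      have := h0 i; positivity)
  have h3 : 1 ≤ (tr T i).card + (tr U i).card := by
    by_contra h4
    have e1 : tr T i = ∅ := card_eq_zero.1 (by omega)
    have e2 : tr U i = ∅ := card_eq_zero.1 (by omega)
    refine h2 i (mem_univ i) ?_
    rw [e1, e2, co_empty (by simpa [supp] using hi)]
  have h4 : (1 : ℝ) ≤ (tr T i).card + (tr U i).card := by exact_mod_cast h3
  nlinarith [h0 i]

/-- the weight used to remove the support condition -/
def rhoK (s : ℝ) (p : ℕ) (A A' : Finset (κ)) : ℝ :=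
  Real.exp (-(s * ((A.card : ℝ) + A'.card) * Real.log p))

lemma rhoK_pos (s : ℝ) (p : ℕ) (A A' : Finset (κ)) : 0 < rhoK s p A A' := Real.exp_pos _

lemma rhoK_le {s : ℝ} (hs : 0 ≤ s) (p : ℕ) (A A' : Finset (κ)) : rhoK s p A A' ≤ 1 := by
  have := Real.log_natCast_nonneg p
  exact Real.exp_le_one_iff.2 (neg_nonpos.2 (by positivity))

lemma weightsK {L : ℝ} (hL : 0 < L) (hy : ∀ T, |y T| ≤ 1) (hy' : ∀ T, |y' T| ≤ 1)
    (hs : ∀ T U, y T ≠ 0 → y' U ≠ 0 → lgs q T + lgs q U ≤ L)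
    (F : ι → Finset (κ) → Finset (κ) → ℝ) (hF : ∀ i A A', 0 ≤ F i A A') :
    ∑ T : κ → Finset ι, ∑ U : κ → Finset ι, |y T * y' U| * ∏ i, F i (tr T i) (tr U i) ≤
      3 * ∏ i, ∑ A, ∑ A', F i A A' * rhoK L⁻¹ (q i) A A' := by
  rw [← transpose fun i A A' => F i A A' * rhoK L⁻¹ (q i) A A', mul_sum]
  refine sum_le_sum fun T _ => ?_
  rw [mul_sum]
  refine sum_le_sum fun U _ => ?_
  rw [prod_mul_distrib, mul_comm (∏ i, F i _ _), ← mul_assoc]
  refine mul_le_mul_of_nonneg_right ?_ (prod_nonneg fun i _ => hF _ _ _)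
  have e : ∏ i, rhoK L⁻¹ (q i) (tr T i) (tr U i) = Real.exp (-(L⁻¹ * (lgs q T + lgs q U))) := by
    simp only [rhoK]
    rw [← Real.exp_sum, lgs_eq, lgs_eq, ← sum_add_distrib, mul_sum, ← sum_neg_distrib]
    congr 1
    exact sum_congr rfl fun i _ => by ring
  rw [e]
  by_cases h : y T = 0 ∨ y' U = 0
  · rw [mul_eq_zero.2 h, abs_zero]; positivity
  push Not at h
  have h1 : L⁻¹ * (lgs q T + lgs q U) ≤ 1 := by
    rw [inv_mul_le_iff₀ hL, mul_one]; exact hs T U h.1 h.2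
  have h2 : Real.exp (-1) ≤ Real.exp (-(L⁻¹ * (lgs q T + lgs q U))) :=
    Real.exp_le_exp.2 (by linarith)
  have h3 : |y T * y' U| ≤ 1 := by
    rw [abs_mul]; exact mul_le_one₀ (hy T) (abs_nonneg _) (hy' U)
  have h4 := Real.exp_neg_one_gt_d9
  linarith

lemma sum_pairs_leK {K : ℕ} (hκ : Fintype.card κ ≤ K) {F : Finset κ → Finset κ → ℝ} {c : ℝ}
    (hc : 0 ≤ c) (h : ∀ A A', F A A' ≤ c) : ∑ A, ∑ A', F A A' ≤ 4 ^ K * c := by
  refine (sum_le_sum fun A _ => sum_le_sum fun A' _ => h A A').trans ?_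
  simp only [sum_const, card_univ, Fintype.card_finset, nsmul_eq_mul]
  push_cast
  rw [← mul_assoc, ← mul_pow]
  norm_num
  exact mul_le_mul_of_nonneg_right (pow_le_pow_right₀ (by norm_num) hκ) hc

lemma sum_pow_cardK (c : ℝ) : ∑ A : Finset κ, c ^ A.card = (1 + c) ^ Fintype.card κ := by
  have := prod_one_add (s := (univ : Finset κ)) (f := fun _ => c)
  simp only [prod_const, card_univ, powerset_univ] at this
  exact this.symm

theorem norm_CCK_le {K G : ℕ} {L : ℝ} (hL : 0 < L) (hi : Function.Injective q)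
    (h16 : ∀ i, 2 * G + 16 < q i) (hκ : Fintype.card κ ≤ K)
    (hg : Function.Injective g) (hG : ∀ j, g j ≠ 0 ∧ |g j| ≤ G)
    (hy : ∀ T, |y T| ≤ 1) (hy' : ∀ T, |y' T| ≤ 1)
    (hs : ∀ T U, y T ≠ 0 → y' U ≠ 0 → lgs q T + lgs q U ≤ L) (χ : Ch q) :
    ‖CCK q g y y' χ‖ ≤ 3 * (Zf q (2 * L⁻¹) ^ Fintype.card κ * Real.exp (4 ^ K * cK K)) *
      ((3 * 4 ^ K) ^ (supp q χ).card / cond q χ) := by
  classical
  have h1 : ‖CCK q g y y' χ‖ ≤ ∑ T : κ → Finset ι, ∑ U : κ → Finset ι,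
      |y T * y' U| * ∏ i, ‖co (q i) g (tr T i) (tr U i) (χ i)‖ := by
    refine (norm_sum_le _ _).trans (sum_le_sum fun T _ => (norm_sum_le _ _).trans
      (sum_le_sum fun U _ => ?_))
    rw [norm_mul, norm_prod, Complex.norm_real, Real.norm_eq_abs]
  refine h1.trans ((weightsK hL hy hy' hs (fun i A A' => ‖co (q i) g A A' (χ i)‖)
    fun _ _ _ => norm_nonneg _).trans ?_)
  have hs0 : 0 ≤ L⁻¹ := inv_nonneg.2 hL.le
  have h2 := majorant q (fun i => (hq i).out.two_le) (fun i A A' => ubar (q i) g A A')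
    (fun i => cK K / (q i : ℝ) ^ 2)
    (fun i A A' => ubarK (h16 i) hκ hg hG A A') hs0
  have h3 : (4 : ℝ) ^ Fintype.card κ * ∑ i, cK K / (q i : ℝ) ^ 2 ≤ 4 ^ K * cK K := by
    have h0 := sum_inv_sq_le q hi (D := 1) (by norm_num) fun i => by have := h16 i; omega
    have e : ∑ i, cK K / (q i : ℝ) ^ 2 = cK K * ∑ i, 1 / (q i : ℝ) ^ 2 := by
      rw [mul_sum]; exact sum_congr rfl fun i _ => by ring
    have hc := cK_pos K
    rw [e]
    refine mul_le_mul (pow_le_pow_right₀ (by norm_num) hκ) ?_ (by positivity) (by positivity)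
    exact mul_le_of_le_one_right hc.le (by simpa using h0)
  have h4 := h2.trans (mul_le_mul_of_nonneg_left (Real.exp_le_exp.2 h3)
    (pow_nonneg (Zf_nonneg _) _))
  have h5 : (3 * 4 ^ K : ℝ) ^ (supp q χ).card / cond q χ =
      ∏ i, if χ i ≠ 1 then (3 * 4 ^ K) / (q i : ℝ) else 1 := by
    have e : supp q χ = univ.filter fun i => χ i ≠ 1 := by ext i; simp [supp]
    rw [← prod_filter, cond, Nat.cast_prod, prod_div_distrib, prod_const, e]
  rw [mul_assoc]
  refine mul_le_mul_of_nonneg_left (le_trans ?_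
    (mul_le_mul_of_nonneg_right h4 (by positivity))) (by norm_num)
  rw [h5, ← prod_mul_distrib]
  refine prod_le_prod (fun i _ => sum_nonneg fun A _ => sum_nonneg fun A' _ =>
    mul_nonneg (norm_nonneg _) (rhoK_pos _ _ _ _).le) fun i _ => ?_
  by_cases h : χ i = 1
  · simp only [h, co_one, Complex.norm_real, Real.norm_eq_abs, ne_eq, not_true, if_false, mul_one]
    exact le_rfl
  · rw [if_pos h]
    have h6 : (1 : ℝ) ≤ ∑ A, ∑ A', |ubar (q i) g A A'| * rhoK L⁻¹ (q i) A A' := by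
      have n0 : ∀ A A', 0 ≤ |ubar (q i) g A A'| * rhoK L⁻¹ (q i) A A' := fun A A' =>
        mul_nonneg (abs_nonneg _) (rhoK_pos _ _ _ _).le
      refine le_trans ?_ (single_le_sum (fun A _ => sum_nonneg fun A' _ => n0 A A') (mem_univ ∅))
      refine le_trans ?_ (single_le_sum (fun A' _ => n0 ∅ A') (mem_univ ∅))
      simp [ubar_empty, rhoK]
    refine le_trans ?_ (le_mul_of_one_le_left (by positivity) h6)
    refine (sum_pairs_leK hκ (c := 3 / q i) (by positivity) fun A A' => ?_).trans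
      (le_of_eq (by ring))
    refine (mul_le_of_le_one_right (norm_nonneg _) (rhoK_le hs0 _ _ _)).trans ?_
    by_cases h7 : A = ∅ ∧ A' = ∅
    · rw [h7.1, h7.2, co_empty h, norm_zero]; positivity
    · exact norm_co_le (by have := h16 i; omega) h7 _

theorem errK {K G : ℕ} {L lam : ℝ} (hL : 0 < L) (h1 : 1 ≤ lam) (h16 : ∀ i, 2 * G + 16 < q i)
    (hκ : Fintype.card κ ≤ K) (hG : ∀ j, g j ≠ 0 ∧ |g j| ≤ G) (hy : ∀ T, |y T| ≤ 1)
    (hy' : ∀ T, |y' T| ≤ 1) (hs : ∀ T U, y T ≠ 0 → y' U ≠ 0 → lgs q T + lgs q U ≤ L) (n : ℕ)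
    (hn : ∀ i, q i ∣ n → lam ≤ q i) :
    |SS q g y n * SS q g y' n - ThK q g y y' n| ≤ 2 * lam⁻¹ * (3 * (Zf q L⁻¹ ^ (2 * K) *
      (3 * 4 ^ K) ^ (univ.filter fun i => (q i : ℤ) ∣ n * ∏ j, (n + g j)).card)) := by
  classical
  let k : ι → Finset (κ) → Finset (κ) → ℝ := fun i A A' =>
    if q i ∣ n then (if A = ∅ ∧ A' = ∅ then 1 else lam * (3 / q i)) else |th (q i) g A A' n|
  have hk : ∀ i A A', 0 ≤ k i A A' := fun i A A' => by
    simp only [k]; split_ifs <;> positivity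
  have h2 : ∀ i, 2 ≤ q i := fun i => (hq i).out.two_le
  have hs0 : 0 ≤ L⁻¹ := inv_nonneg.2 hL.le
  have b1 : ∀ i A A', q i ∣ n → ¬ (A = ∅ ∧ A' = ∅) →
      |th (q i) g A A' n| ≤ 3 / q i ∧ |th0 (q i) g A A' n| ≤ 3 / q i := by
    intro i A A' hi hA
    have h3 : 3 ≤ q i := by have := h16 i; omega
    refine ⟨?_, by rw [th0, if_pos hi]; exact abs_ubar_le h3 hA⟩
    obtain ⟨j, hj⟩ := abs_th_le' (g := g) (h2 i) hA
    refine (hj n).trans ?_
    rw [xi, if_neg, abs_of_nonneg (inv_pred_nonneg (h2 i))]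
    · linarith [two_div_le h3, inv_pred_nonneg (h2 i)]
    · rw [dvd_add_right (by exact_mod_cast hi)]
      intro h
      have := h16 i
      exact (hG j).1 (Int.eq_zero_of_abs_lt_dvd h (by have := (hG j).2; omega))
  have b2 : ∀ i A A', |th (q i) g A A' n| ≤ k i A A' ∧ |th0 (q i) g A A' n| ≤ k i A A' := by
    intro i A A'
    simp only [k]
    split_ifs with hi hA
    · rw [hA.1, hA.2, th0, if_pos hi, th_empty, ubar_empty]; simp
    · have := le_mul_of_one_le_left (show (0 : ℝ) ≤ 3 / q i by positivity) h1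
      exact (b1 i A A' hi hA).imp (·.trans this) (·.trans this)
    · rw [th0, if_neg hi]; simp
  have b3 : ∀ T U : κ → Finset ι, |∏ i, th (q i) g (tr T i) (tr U i) n -
      ∏ i, th0 (q i) g (tr T i) (tr U i) n| ≤ 2 * lam⁻¹ * ∏ i, k i (tr T i) (tr U i) := by
    intro T U
    by_cases h : ∃ i, q i ∣ n ∧ ¬ (tr T i = ∅ ∧ tr U i = ∅)
    · obtain ⟨i, hi, hA⟩ := h
      have e : lam⁻¹ * k i (tr T i) (tr U i) = 3 / q i := by
        simp only [k, if_pos hi, if_neg hA]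
        rw [inv_mul_cancel_left₀ (by linarith)]
      have c1 := abs_prod_le (fun i => (b2 i (tr T i) (tr U i)).1) i (e ▸ (b1 i _ _ hi hA).1)
      have c2 := abs_prod_le (fun i => (b2 i (tr T i) (tr U i)).2) i (e ▸ (b1 i _ _ hi hA).2)
      refine (abs_sub _ _).trans ?_
      linarith
    · push Not at h
      rw [prod_congr rfl fun i _ => show th (q i) g (tr T i) (tr U i) n =
        th0 (q i) g (tr T i) (tr U i) n from ?_, sub_self, abs_zero]
      · have := prod_nonneg fun i (_ : i ∈ univ) => hk i (tr T i) (tr U i)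
        positivity
      · unfold th0
        split_ifs with hi
        · rw [(h i hi).1, (h i hi).2, th_empty, ubar_empty]
        · rfl
  have b4 : |SS q g y n * SS q g y' n - ThK q g y y' n| ≤ 2 * lam⁻¹ *
      ∑ T : κ → Finset ι, ∑ U : κ → Finset ι,
        |y T * y' U| * ∏ i, k i (tr T i) (tr U i) := by
    rw [SS_mul, ThK, ← sum_sub_distrib, mul_sum]
    refine (abs_sum_le_sum_abs _ _).trans (sum_le_sum fun T _ => ?_)
    rw [← sum_sub_distrib, mul_sum]
    refine (abs_sum_le_sum_abs _ _).trans (sum_le_sum fun U _ => ?_)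
    rw [← mul_sub, abs_mul, mul_left_comm]
    exact mul_le_mul_of_nonneg_left (b3 T U) (abs_nonneg _)
  refine b4.trans (mul_le_mul_of_nonneg_left ((weightsK hL hy hy' hs k hk).trans
    (mul_le_mul_of_nonneg_left ?_ (by norm_num))) (by positivity))
  rw [← prod_const, prod_filter, Zf, ← prod_pow, ← prod_mul_distrib]
  refine prod_le_prod (fun i _ => sum_nonneg fun A _ => sum_nonneg fun A' _ =>
    mul_nonneg (hk _ _ _) (rhoK_pos _ _ _ _).le) fun i _ => ?_
  set c := Real.exp (-(L⁻¹ * Real.log (q i))) * ((q i : ℝ) - 1)⁻¹ with hc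
  have hc0 : 0 ≤ c := mul_nonneg (Real.exp_pos _).le (inv_pred_nonneg (h2 i))
  split_ifs with h
  · refine le_trans ?_ (le_mul_of_one_le_left (by positivity) (one_le_pow₀ (by linarith)))
    refine (sum_pairs_leK hκ (c := 3) (by norm_num) fun A A' => ?_).trans (le_of_eq (by ring))
    refine (mul_le_of_le_one_right (hk _ _ _) (rhoK_le hs0 _ _ _)).trans ?_
    simp only [k]
    split_ifs with hi hA
    · norm_num
    · have h0 : (0 : ℝ) < q i := by exact_mod_cast (hq i).out.pos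
      rw [mul_div_assoc', div_le_iff₀ h0]
      linarith [hn i hi]
    · linarith [abs_th_le (g := g) (A := A) (A' := A') (h2 i) n]
  · have hi : ¬ q i ∣ n := fun hi => h (Dvd.dvd.mul_right (by exact_mod_cast hi) _)
    have hj : ∀ j, xi (q i) (n + g j) = ((q i : ℝ) - 1)⁻¹ := fun j => by
      rw [xi, if_neg fun hj => h (Dvd.dvd.mul_left (hj.trans (dvd_prod_of_mem _ (mem_univ j))) _)]
    have e : ∀ A A', k i A A' * rhoK L⁻¹ (q i) A A' = c ^ A.card * c ^ A'.card := fun A A' => by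
      simp only [k, if_neg hi, th, loc, hj, prod_const, rhoK, hc, mul_pow, ← Real.exp_nat_mul]
      rw [abs_of_nonneg (by have := inv_pred_nonneg (h2 i); positivity), mul_mul_mul_comm,
        ← Real.exp_add, mul_comm]
      congr 2
      ring
    simp only [e, ← mul_sum, ← sum_mul, sum_pow_cardK]
    rw [← pow_add, mul_one]
    exact pow_le_pow_right₀ (by linarith) (by omega)

end

end Pool.Agent.Lib.MP_fc51f7_nt.MT
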