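import Pool.Agent.Lib.MP_fc51f7_nt.MT.Defs

/-! A checker for the numerical certificate, in integer arithmetic. -/

set_option autoImplicit false

namespace Pool.Agent.Lib.MP_fc51f7_nt.MT

open Finset Polynomial

noncomputable def toP : List ℤ → ℝ[X]
  | [] => 0
  | a :: l => C (a : ℝ) + X * toP l

def addL : List ℤ → List ℤ → List ℤ
  | [], l' => l'
  | a :: l, [] => a :: l
  | a :: l, b :: l' => (a + b) :: addL l l'

def mulL : List ℤ → List ℤ → List ℤ
  | [], _ => []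
  | a :: l, l' => addL (l'.map fun b => a * b) (0 :: mulL l l')

def dotL : List ℤ → List ℕ → ℤ
  | a :: l, u :: l' => a * u + dotL l l'
  | _, _ => 0

def nrmL : List ℤ → ℕ
  | [] => 0
  | a :: l => a.natAbs + nrmL l

def ofB : List Bool → ℕ
  | [] => 0
  | t :: l => 2 * ofB l + if t then 1 else 0

/-- Lower bound for `2 ^ P * (x / 2 ^ P) ^ k`, the bits of `k` being given from the lowest. -/
def powLo (P x : ℕ) : List Bool → ℕ
  | [] => 2 ^ P
  | t :: l => if t then (((powLo P x l) ^ 2 >>> P) * x) >>> P else (powLo P x l) ^ 2 >>> P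

/-- Upper bound for the same quantity. -/
def powHi (P x : ℕ) : List Bool → ℕ
  | [] => 2 ^ P
  | t :: l => if t then ((((powHi P x l) ^ 2 >>> P) + 1) * x) >>> P + 1
      else (powHi P x l) ^ 2 >>> P + 1

/-- Lower bound for `2 ^ (e + R) * l1 j`, with `c i = cs i / 2 ^ e`; the error is at most the length. -/
def l1Lo (R : ℕ) (cn : List (ℕ × ℕ)) (j : ℕ) : ℕ := (cn.map fun u => (u.1 <<< R) / (u.2 + j)).sum

/-- Lower bound for `2 ^ (2 * e + R) * l2 j`; the error is at most the square of the length. -/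
def l2Lo (R : ℕ) (cn : List (ℕ × ℕ)) (j : ℕ) : ℕ :=
  (cn.map fun u => (cn.map fun v => ((u.1 * v.1) <<< R) / (u.2 + v.2 + j)).sum).sum

/-- Coefficientwise product with `l1Lo`. -/
def twL (R : ℕ) (cn : List (ℕ × ℕ)) : ℕ → List ℤ → List ℤ
  | _, [] => []
  | j, a :: l => a * l1Lo R cn j :: twL R cn (j + 1) l

/-- One row: bounds for `l2 j ^ k` and `l2 j ^ (k + 1)` at precision `P = 2 * e + R`. -/
def row (e R : ℕ) (cn : List (ℕ × ℕ)) (kb : List Bool) (j : ℕ) : ℕ × ℕ × Bool :=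
  let P := 2 * e + R
  let lo := l2Lo R cn j
  let hi := lo + cn.length ^ 2
  let u := powLo P lo kb
  let u' := powHi P hi kb
  let v := (u * lo) >>> P
  let v' := (u' * hi) >>> P + 1
  (u, v, decide (hi ≤ 2 ^ P) && decide (u' ≤ u + 2 ^ 40) && decide (v' ≤ v + 2 ^ 40))

def check (kb : List Bool) (e R N : ℕ) (cn : List (ℕ × ℕ)) (b a : List ℤ) (wn wd : ℕ) : Bool :=
  let P := 2 * e + R
  let h := mulL [-1, 16] (mulL b b)
  let α := mulL a a
  let hh2 := mulL h h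
  let α2 := mulL α α
  let αt := mulL α (twL (e + R) cn 0 h)
  let rows := (List.range N).map (row e R cn kb)
  let us := rows.map fun r => r.1
  let vs := rows.map fun r => r.2.1
  let Iu : ℤ := dotL hh2 vs + 2 ^ 40 * nrmL hh2
  let Au : ℤ := dotL α2 us + 2 ^ 40 * nrmL α2
  let Xl : ℤ := dotL αt us - 2 ^ 40 * nrmL αt - 2 ^ P * (cn.length * (nrmL α * nrmL h))
  rows.all (fun r => r.2.2) && cn.all (fun u => decide (0 < u.2)) && decide (0 < wd) &&
    decide (hh2.length ≤ N) && decide (α2.length ≤ N) && decide (αt.length ≤ N) &&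
    decide (3 * wn * Iu * 2 ^ P < (ofB kb + 1 : ℕ) * wd * (2 * Xl - 2 ^ P * Au))

theorem chk_Phi_add (μ : ℕ → ℝ) (P Q : ℝ[X]) : Phi μ (P + Q) = Phi μ P + Phi μ Q :=
  sum_add_index _ _ _ (fun _ => zero_mul _) fun _ _ _ => add_mul _ _ _

theorem chk_Phi_mon (μ : ℕ → ℝ) (j : ℕ) (a : ℝ) : Phi μ (monomial j a) = a * μ j :=
  sum_monomial_index _ _ (zero_mul _)

theorem chk_Phi_zero (μ : ℕ → ℝ) : Phi μ 0 = 0 := sum_zero_index _

theorem chk_Phi_X (μ : ℕ → ℝ) (Q : ℝ[X]) : Phi μ (X * Q) = Phi (fun j => μ (j + 1)) Q := by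
  induction Q using Polynomial.induction_on' with
  | add p q hp hq => rw [mul_add, chk_Phi_add, chk_Phi_add, hp, hq]
  | monomial j a => rw [X_mul_monomial, chk_Phi_mon, chk_Phi_mon]

theorem chk_Phi_C (μ : ℕ → ℝ) (t : ℝ) (Q : ℝ[X]) : Phi μ (C t * Q) = t * Phi μ Q := by
  induction Q using Polynomial.induction_on' with
  | add p q hp hq => rw [mul_add, chk_Phi_add, chk_Phi_add, hp, hq, mul_add]
  | monomial j a => rw [C_mul_monomial, chk_Phi_mon, chk_Phi_mon, mul_assoc]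

theorem chk_Phi_cons (μ : ℕ → ℝ) (a : ℝ) (Q : ℝ[X]) :
    Phi μ (C a + X * Q) = a * μ 0 + Phi (fun j => μ (j + 1)) Q := by
  rw [chk_Phi_add, chk_Phi_X, ← monomial_zero_left, chk_Phi_mon]

theorem chk_Tw_add (ν : ℕ → ℝ) (P Q : ℝ[X]) : Tw ν (P + Q) = Tw ν P + Tw ν Q :=
  sum_add_index _ _ _ (fun _ => by simp) fun _ _ _ => by rw [add_mul, map_add]

theorem chk_Tw_mon (ν : ℕ → ℝ) (j : ℕ) (a : ℝ) : Tw ν (monomial j a) = monomial j (a * ν j) :=
  sum_monomial_index _ _ (by simp)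

theorem chk_Tw_cons (ν : ℕ → ℝ) (a : ℝ) (Q : ℝ[X]) :
    Tw ν (C a + X * Q) = C (a * ν 0) + X * Tw (fun j => ν (j + 1)) Q := by
  rw [chk_Tw_add, ← monomial_zero_left, chk_Tw_mon, monomial_zero_left, add_right_inj]
  induction Q using Polynomial.induction_on' with
  | add p q hp hq => rw [mul_add, chk_Tw_add, chk_Tw_add, hp, hq, mul_add]
  | monomial j a => rw [X_mul_monomial, chk_Tw_mon, chk_Tw_mon, X_mul_monomial]

theorem toP_addL : ∀ l l' : List ℤ, toP (addL l l') = toP l + toP l'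
  | [], _ => by simp [addL, toP]
  | _ :: _, [] => by simp [addL, toP]
  | a :: l, b :: l' => by
    simp only [addL, toP, toP_addL l l', Int.cast_add, map_add]
    ring

theorem toP_map (a : ℤ) : ∀ l : List ℤ, toP (l.map fun b => a * b) = C (a : ℝ) * toP l
  | [] => by simp [toP]
  | b :: l => by
    simp only [List.map_cons, toP, toP_map a l, Int.cast_mul, map_mul]
    ring

theorem toP_mulL : ∀ l l' : List ℤ, toP (mulL l l') = toP l * toP l'
  | [], _ => by simp [mulL, toP]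
  | a :: l, l' => by
    simp only [mulL, toP_addL, toP_map, toP, toP_mulL l l', Int.cast_zero, map_zero]
    ring

theorem chk_hh (b : List ℤ) : toP (mulL [-1, 16] (mulL b b)) = hh (toP b) := by
  rw [toP_mulL, toP_mulL, hh]
  simp only [toP, Int.cast_neg, Int.cast_one, map_neg, map_one, Int.cast_ofNat]
  ring

theorem chk_addL_ne (l : List ℤ) (a : ℤ) (l' : List ℤ) : addL l (a :: l') ≠ [] := by
  cases l <;> simp [addL]

theorem chk_mulL_ne {l : List ℤ} (h : l ≠ []) (l' : List ℤ) : mulL l l' ≠ [] := by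
  cases l with
  | nil => exact absurd rfl h
  | cons a l => exact chk_addL_ne _ _ _

theorem chk_nrm (a : ℤ) (l : List ℤ) : (nrmL (a :: l) : ℝ) = |(a : ℝ)| + nrmL l := by
  rw [nrmL, Nat.cast_add, Nat.cast_natAbs, Int.cast_abs]

/-- The functional on a list, against approximations of its values. -/
theorem chk_dot {D : ℝ} : ∀ (l : List ℤ) (us : List ℕ) (μ : ℕ → ℝ), l.length ≤ us.length →
    (∀ j (h : j < us.length), |μ j - us[j]| ≤ D) → |Phi μ (toP l) - dotL l us| ≤ D * nrmL l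
  | [], _, _, _, _ => by simp [toP, dotL, nrmL, chk_Phi_zero]
  | _ :: _, [], _, h, _ => by simp at h
  | a :: l, u :: us, μ, h, k => by
    have h1 := chk_dot l us (fun j => μ (j + 1)) (by simpa using h) fun j hj =>
      k (j + 1) (by simpa using hj)
    have h2 : |μ 0 - u| ≤ D := k 0 (by simp)
    rw [toP, chk_Phi_cons, dotL, chk_nrm, mul_add]
    push_cast
    refine le_trans (le_of_eq_of_le (congrArg _ (by ring)) (abs_add_le (a * (μ 0 - u)) _))
      (add_le_add ?_ h1)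
    rw [abs_mul, mul_comm]
    exact mul_le_mul_of_nonneg_right h2 (abs_nonneg _)

/-- A bound for the functionals with values of size at most one. -/
def Bd (Q : ℝ[X]) (B : ℝ) : Prop := ∀ μ : ℕ → ℝ, (∀ j, |μ j| ≤ 1) → |Phi μ Q| ≤ B

theorem Bd.mul {Q : ℝ[X]} {B : ℝ} (h : Bd Q B) : ∀ l : List ℤ, Bd (toP l * Q) (nrmL l * B)
  | [] => fun μ _ => by simp [toP, nrmL, chk_Phi_zero]
  | a :: l => fun μ k => by
    rw [toP, add_mul, mul_assoc, chk_Phi_add, chk_Phi_C, chk_Phi_X, chk_nrm, add_mul]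
    refine (abs_add_le _ _).trans (add_le_add ?_ (h.mul l _ fun j => k _))
    rw [abs_mul]
    exact mul_le_mul_of_nonneg_left (h μ k) (abs_nonneg _)

theorem chk_tw {R : ℕ} {cn : List (ℕ × ℕ)} {t D : ℝ} {ν : ℕ → ℝ}
    (h : ∀ j, |t * ν j - l1Lo R cn j| ≤ D) : ∀ (l : List ℤ) (i : ℕ),
    Bd (C t * Tw (fun j => ν (i + j)) (toP l) - toP (twL R cn i l)) (D * nrmL l)
  | [], _ => fun μ _ => by simp [toP, twL, nrmL, Tw, chk_Phi_zero]
  | a :: l, i => fun μ k => by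
    have e : C t * Tw (fun j => ν (i + j)) (toP (a :: l)) - toP (twL R cn i (a :: l)) =
        C (a * (t * ν i - l1Lo R cn i)) + X *
          (C t * Tw (fun j => ν (i + 1 + j)) (toP l) - toP (twL R cn (i + 1) l)) := by
      simp only [toP, twL, chk_Tw_cons, add_zero, Int.cast_mul, Int.cast_natCast, map_mul, map_sub,
        add_assoc i 1, add_comm 1]
      ring
    rw [e, chk_Phi_cons, chk_nrm, mul_add]
    refine (abs_add_le _ _).trans (add_le_add ?_ (chk_tw h l (i + 1) _ fun j => k _))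
    rw [abs_mul, abs_mul, mul_comm D]
    exact (mul_le_of_le_one_right (by positivity) (k 0)).trans
      (mul_le_mul_of_nonneg_left (h i) (abs_nonneg _))

theorem chk_div (x y : ℕ) (hy : 0 < y) :
    ((x / y : ℕ) : ℝ) ≤ x / y ∧ (x : ℝ) / y ≤ (x / y : ℕ) + 1 :=
  ⟨Nat.cast_div_le, by
    rw [div_le_iff₀ (by exact_mod_cast hy), add_one_mul]
    exact_mod_cast (Nat.lt_div_mul_add hy).le⟩

theorem chk_lo {P u x : ℕ} {s t : ℝ} (hu : (u : ℝ) ≤ 2 ^ P * s) (hx : (x : ℝ) ≤ 2 ^ P * t) :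
    (((u * x) >>> P : ℕ) : ℝ) ≤ 2 ^ P * (s * t) := by
  rw [Nat.shiftRight_eq_div_pow]
  refine (chk_div _ _ (by positivity)).1.trans ?_
  push_cast
  rw [div_le_iff₀ (by positivity)]
  exact (mul_le_mul hu hx x.cast_nonneg (u.cast_nonneg.trans hu)).trans_eq (by ring)

theorem chk_hi {P u x : ℕ} {s t : ℝ} (ht : 0 ≤ t) (hu : 2 ^ P * s ≤ (u : ℝ))
    (hx : 2 ^ P * t ≤ (x : ℝ)) : 2 ^ P * (s * t) ≤ (((u * x) >>> P + 1 : ℕ) : ℝ) := by
  rw [Nat.shiftRight_eq_div_pow, Nat.cast_succ]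
  refine le_trans ?_ (chk_div _ _ (by positivity)).2
  push_cast
  rw [le_div_iff₀ (by positivity)]
  exact (mul_le_mul hu hx (by positivity) u.cast_nonneg).trans_eq' (by ring)

theorem chk_powLo {P x : ℕ} {t : ℝ} (hx : (x : ℝ) ≤ 2 ^ P * t) :
    ∀ l : List Bool, (powLo P x l : ℝ) ≤ 2 ^ P * t ^ ofB l
  | [] => by simp [powLo, ofB]
  | b :: l => by
    have h := chk_lo (chk_powLo hx l) (chk_powLo hx l)
    rw [← sq, ← pow_add, ← two_mul] at h
    cases b
    · exact h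
    · exact chk_lo h hx

theorem chk_powHi {P x : ℕ} {t : ℝ} (ht : 0 ≤ t) (hx : 2 ^ P * t ≤ (x : ℝ)) :
    ∀ l : List Bool, 2 ^ P * t ^ ofB l ≤ (powHi P x l : ℝ)
  | [] => by simp [powHi, ofB]
  | b :: l => by
    have h := chk_hi (by positivity) (chk_powHi ht hx l) (chk_powHi ht hx l)
    rw [← pow_add, ← two_mul, ← sq] at h
    cases b
    · exact h
    · exact chk_hi ht h hx

theorem chk_sum {α : Type} {f : α → ℕ} {g : α → ℝ} {D : ℝ} : ∀ l : List α,
    (∀ u ∈ l, f u ≤ g u ∧ g u ≤ f u + D) → ((l.map f).sum : ℕ) ≤ (l.map g).sum ∧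
      (l.map g).sum ≤ ((l.map f).sum : ℕ) + l.length * D
  | [], _ => by simp
  | u :: l, h => by
    have h1 := h u (by simp)
    have h2 := chk_sum l fun v hv => h v (by simp [hv])
    simp only [List.map_cons, List.sum_cons, List.length_cons, Nat.cast_add, Nat.cast_one]
    constructor <;> linarith [h1.1, h1.2, h2.1, h2.2]

/-- The coefficients of the profile. -/
noncomputable def cOf (e : ℕ) (cn : List (ℕ × ℕ)) (i : Fin cn.length) : ℝ := cn[i].1 / 2 ^ e

/-- The exponents of the profile. -/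
def nOf (cn : List (ℕ × ℕ)) (i : Fin cn.length) : ℕ := cn[i].2

section
variable {e R : ℕ} {cn : List (ℕ × ℕ)}

theorem chk_l1 (h : ∀ u ∈ cn, 0 < u.2) (j : ℕ) :
    |2 ^ (2 * e + R) * l1 (cOf e cn) (nOf cn) j - l1Lo (e + R) cn j| ≤ cn.length := by
  have h1 := chk_sum (f := fun u : ℕ × ℕ => (u.1 <<< (e + R)) / (u.2 + j)) (D := 1) cn
    fun u hu => chk_div _ _ (by have := h u hu; omega)
  rw [← Fin.sum_univ_fun_getElem (M := ℝ), mul_one] at h1
  have h2 : 2 ^ (2 * e + R) * l1 (cOf e cn) (nOf cn) j = ∑ i : Fin cn.length,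
      ((cn[i.1].1 <<< (e + R) : ℕ) : ℝ) / (cn[i.1].2 + j : ℕ) := by
    rw [l1, mul_sum]
    refine sum_congr rfl fun i _ => ?_
    simp only [cOf, nOf, Nat.shiftLeft_eq, Fin.getElem_fin]
    push_cast
    rw [← mul_div_assoc]
    congr 1
    field_simp
    ring
  rw [h2, l1Lo, abs_le]
  constructor <;> linarith [h1.1, h1.2, (Nat.cast_nonneg cn.length : (0 : ℝ) ≤ _)]

theorem chk_l2 (h : ∀ u ∈ cn, 0 < u.2) (j : ℕ) :
    (l2Lo R cn j : ℝ) ≤ 2 ^ (2 * e + R) * l2 (cOf e cn) (nOf cn) j ∧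
      2 ^ (2 * e + R) * l2 (cOf e cn) (nOf cn) j ≤ (l2Lo R cn j + cn.length ^ 2 : ℕ) := by
  have h1 := chk_sum (D := cn.length * 1) cn fun u hu =>
    chk_sum (f := fun v : ℕ × ℕ => ((u.1 * v.1) <<< R) / (u.2 + v.2 + j)) (D := 1) cn
      fun v _ => chk_div _ _ (by have := h u hu; omega)
  simp only [← Fin.sum_univ_fun_getElem (M := ℝ), mul_one] at h1
  have h2 : 2 ^ (2 * e + R) * l2 (cOf e cn) (nOf cn) j = ∑ i : Fin cn.length,
      ∑ i' : Fin cn.length, (((cn[i.1].1 * cn[i'.1].1) <<< R : ℕ) : ℝ) /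
        (cn[i.1].2 + cn[i'.1].2 + j : ℕ) := by
    rw [l2, mul_sum]
    refine sum_congr rfl fun i _ => ?_
    rw [mul_sum]
    refine sum_congr rfl fun i' _ => ?_
    simp only [cOf, nOf, Nat.shiftLeft_eq, Fin.getElem_fin]
    push_cast
    rw [← mul_div_assoc]
    congr 1
    field_simp
    ring
  rw [h2, l2Lo, Nat.cast_add, Nat.cast_pow, sq]
  exact h1

theorem chk_c (i : Fin cn.length) : 0 ≤ cOf e cn i := by unfold cOf; positivity

theorem chk_l2_nonneg (j : ℕ) : 0 ≤ l2 (cOf e cn) (nOf cn) j :=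
  sum_nonneg fun i _ => sum_nonneg fun i' _ =>
    div_nonneg (mul_nonneg (chk_c i) (chk_c i')) (by positivity)

theorem chk_l2_le (h : ∀ u ∈ cn, 0 < u.2) (j : ℕ) :
    l2 (cOf e cn) (nOf cn) j ≤ l2 (cOf e cn) (nOf cn) 0 :=
  sum_le_sum fun i _ => sum_le_sum fun i' _ => by
    have : 0 < nOf cn i := h _ (List.getElem_mem _)
    exact div_le_div_of_nonneg_left (mul_nonneg (chk_c i) (chk_c i')) (by positivity) (by simp)

theorem chk_row (h : ∀ u ∈ cn, 0 < u.2) {kb : List Bool} {j : ℕ}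
    (k : (row e R cn kb j).2.2 = true) : l2 (cOf e cn) (nOf cn) j ≤ 1 ∧
    |2 ^ (2 * e + R) * l2 (cOf e cn) (nOf cn) j ^ ofB kb - (row e R cn kb j).1| ≤ 2 ^ 40 ∧
    |2 ^ (2 * e + R) * l2 (cOf e cn) (nOf cn) j ^ (ofB kb + 1) - (row e R cn kb j).2.1| ≤
      2 ^ 40 := by
  simp only [row, Bool.and_eq_true, decide_eq_true_eq] at k ⊢
  obtain ⟨⟨k1, k2⟩, k3⟩ := k
  obtain ⟨h1, h2⟩ := chk_l2 (e := e) (R := R) h j
  have h0 := chk_l2_nonneg (e := e) (cn := cn) j
  have h3 := chk_powLo h1 kb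
  have h4 := chk_powHi h0 h2 kb
  have h5 := chk_lo h3 h1
  have h6 := chk_hi h0 h4 h2
  rw [← pow_succ] at h5 h6
  have k4 := h2.trans (Nat.cast_le.2 k1)
  have k5 := h4.trans (Nat.cast_le.2 k2)
  have k6 := h6.trans (Nat.cast_le.2 k3)
  rw [Nat.cast_add, Nat.cast_pow, Nat.cast_ofNat] at k5 k6
  rw [Nat.cast_pow, Nat.cast_ofNat] at k4
  refine ⟨(mul_le_iff_le_one_right (by positivity)).1 k4, abs_le.2 ⟨?_, ?_⟩, abs_le.2 ⟨?_, ?_⟩⟩ <;>
    linarith

end

theorem chk_Phi_mul (t : ℝ) (μ : ℕ → ℝ) (Q : ℝ[X]) :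
    Phi (fun j => t * μ j) Q = t * Phi μ Q := by
  induction Q using Polynomial.induction_on' with
  | add p q hp hq => rw [chk_Phi_add, chk_Phi_add, hp, hq, mul_add]
  | monomial j a => rw [chk_Phi_mon, chk_Phi_mon, mul_left_comm]

theorem chk_Phi_sub (μ : ℕ → ℝ) (P Q : ℝ[X]) : Phi μ (P - Q) = Phi μ P - Phi μ Q := by
  rw [eq_sub_iff_add_eq, ← chk_Phi_add, sub_add_cancel]

theorem check_sound {kb : List Bool} {e R N : ℕ} {cn : List (ℕ × ℕ)} {b a : List ℤ} {wn wd : ℕ}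
    (h : check kb e R N cn b a wn wd = true) :
    Cert (ofB kb) ((wn : ℝ) / wd) := by
  simp only [check, Bool.and_eq_true, decide_eq_true_eq, List.all_eq_true, List.map_map,
    List.forall_mem_map, List.mem_range] at h
  obtain ⟨⟨⟨⟨⟨⟨hr, hn⟩, hw⟩, g1⟩, g2⟩, g3⟩, h⟩ := h
  have N0 : 0 < N := (List.length_pos_iff.2 (chk_mulL_ne (chk_mulL_ne (by simp) _) _)).trans_le g1
  have one : ∀ j, |l2 (cOf e cn) (nOf cn) j ^ ofB kb| ≤ 1 := fun j => by
    rw [abs_of_nonneg (pow_nonneg (chk_l2_nonneg j) _)]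
    exact pow_le_one₀ (chk_l2_nonneg j) ((chk_l2_le hn j).trans (chk_row hn (hr 0 N0)).1)
  have U : ∀ l : List ℤ, l.length ≤ N → _ := fun l hl => abs_le.1 (chk_dot l
    ((List.range N).map ((fun r => r.1) ∘ row e R cn kb)) _ (by simpa using hl) fun j hj => by
      simpa using (chk_row hn (hr j (by simpa using hj))).2.1)
  have I := (abs_le.1 (chk_dot _ ((List.range N).map ((fun r => r.2.1) ∘ row e R cn kb)) _
    (by simpa using g1) fun j hj => by
      simpa using (chk_row hn (hr j (by simpa using hj))).2.2)).2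
  have A := (U _ g2).2
  have T := (U _ g3).1
  have E := (abs_le.1 ((chk_tw (chk_l1 (e := e) (R := R) hn) (mulL [-1, 16] (mulL b b)) 0).mul
    (mulL a a) _ one)).1
  rw [chk_Phi_mul, toP_mulL] at I A T
  simp only [zero_add] at E
  rw [mul_sub, mul_left_comm (toP _), chk_Phi_sub, chk_Phi_C, chk_hh] at E
  rw [chk_hh, ← sq] at I
  rw [toP_mulL, ← sq] at T E
  rw [toP_mulL, ← sq, ← sq, ← pow_mul] at A
  refine ⟨cn.length, cOf e cn, nOf cn, toP b, toP a, chk_c, fun i => hn _ (List.getElem_mem _), ?_⟩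
  have h' := (Int.cast_lt (R := ℝ)).2 h
  push_cast at h'
  have w0 : (0 : ℝ) < wd := by exact_mod_cast hw
  have p0 : (0 : ℝ) < 2 ^ (2 * e + R) := by positivity
  rw [Iv, Jv, mul_div_assoc', div_mul_eq_mul_div, div_lt_iff₀ w0]
  refine lt_of_mul_lt_mul_left (a := 2 ^ (2 * e + R) * 2 ^ (2 * e + R)) ?_ (by positivity)
  have I' := mul_le_mul_of_nonneg_left I (show (0 : ℝ) ≤ 3 * wn * 2 ^ (2 * e + R) by positivity)
  have K : (0 : ℝ) ≤ (ofB kb + 1) * wd := by positivity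
  have A' := mul_le_mul_of_nonneg_left (mul_le_mul_of_nonneg_left A p0.le) K
  have T' := mul_le_mul_of_nonneg_left T K
  have E' := mul_le_mul_of_nonneg_left (mul_le_mul_of_nonneg_left E p0.le) K
  linarith

end Pool.Agent.Lib.MP_fc51f7_nt.MT
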