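import Mathlib

/-! Counting primes in an interval inside the kernel. -/

set_option autoImplicit false

namespace Pool.Agent.Lib.MP_fc51f7_nt.MT

open Finset

/-- The sieve: for `X = 2 ^ M` the bit `M - n` is set when `n` has a prime factor below `s`. -/
def cntSv (X s : ℕ) : ℕ :=
  Nat.rec 0 (fun d acc => bif Nat.beq (2 ^ d % d) (2 % d) then acc ||| X / (2 ^ d - 1) else acc) s

/-- The number of bits, residue class by residue class. -/
def cntPc (x m w : ℕ) : ℕ :=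
  Nat.rec 0 (fun r acc => acc + ((x >>> r) &&& m) % (2 ^ 24 - 1)) w

/-- A lower bound for the number of primes in `(A, M]`, exact when `s ≤ A`. -/
def cnt (A M s : ℕ) : ℕ :=
  cntPc ((2 ^ (M - A) - 1) ^^^ (cntSv (2 ^ M) (s + 1) % 2 ^ (M - A)))
    ((2 ^ (24 * ((M - A) / 24 + 1)) - 1) / (2 ^ 24 - 1)) 24

theorem cnt_fermat {p : ℕ} (hp : p.Prime) : 2 ^ p % p = 2 % p := by
  have := Fact.mk hp
  refine (ZMod.natCast_eq_natCast_iff' _ _ _).1 ?_
  rw [Nat.cast_pow, ZMod.pow_card]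

theorem cnt_sv {X p j : ℕ} (hp : p.Prime) (h : (X / (2 ^ p - 1)).testBit j = true) :
    ∀ s, p < s → (cntSv X s).testBit j = true
  | s + 1, hs => by
    change (bif Nat.beq (2 ^ s % s) (2 % s) then cntSv X s ||| X / (2 ^ s - 1)
      else cntSv X s).testBit j = true
    rcases (Nat.lt_succ_iff.1 hs).eq_or_lt with rfl | k
    · rw [cnt_fermat hp, Nat.beq_refl, cond_true, Nat.testBit_or, h, Bool.or_true]
    · have := cnt_sv hp h s k
      cases Nat.beq (2 ^ s % s) (2 % s)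
      · exact this
      · rw [cond_true, Nat.testBit_or, this, Bool.true_or]

theorem cnt_odd {d k : ℕ} (hd : 2 ≤ d) : 2 ^ (d * (k + 1)) / (2 ^ d - 1) % 2 = 1 := by
  have h4 : 4 ≤ 2 ^ d := Nat.pow_le_pow_right (n := 2) two_pos hd
  have h1 := Nat.geomSum_eq (m := 2 ^ d) (by omega) (k + 1)
  have h2 : (2 ^ d - 1) ∣ (2 ^ d) ^ (k + 1) - 1 := Nat.sub_one_dvd_pow_sub_one _ _
  have h3 : 0 < (2 ^ d) ^ (k + 1) := by positivity
  have h5 : (2 ^ d) ^ (k + 1) / (2 ^ d - 1) = ((2 ^ d) ^ (k + 1) - 1) / (2 ^ d - 1) := by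
    obtain ⟨c, hc⟩ := h2
    rw [hc, show (2 ^ d) ^ (k + 1) = (2 ^ d - 1) * c + 1 by omega, Nat.mul_add_div (by omega),
      Nat.div_eq_of_lt (by omega), Nat.mul_div_cancel_left _ (by omega), add_zero]
  rw [pow_mul, h5, ← h1, geom_sum_succ]
  obtain ⟨e, rfl⟩ := Nat.exists_eq_add_of_le' hd
  rw [pow_succ, mul_comm _ 2, mul_assoc, Nat.mul_add_mod]
  rfl

theorem cnt_bit {M j d : ℕ} (hd : 2 ≤ d) (hj : j < M) (h : d ∣ M - j) :
    (2 ^ M / (2 ^ d - 1)).testBit j = true := by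
  obtain ⟨k, hk⟩ := h
  obtain ⟨k, rfl⟩ : ∃ k', k = k' + 1 := ⟨k - 1, by rcases k with _ | k <;> omega⟩
  rw [Nat.testBit_eq_decide_div_mod_eq, Nat.div_div_eq_div_mul, mul_comm, ← Nat.div_div_eq_div_mul,
    Nat.pow_div hj.le two_pos, hk, cnt_odd hd]
  rfl

theorem cnt_mask : ∀ N x : ℕ, (x &&& ∑ i ∈ range N, (2 ^ 24) ^ i) % (2 ^ 24 - 1) =
    (∑ i ∈ range N, x / 2 ^ (24 * i) % 2) % (2 ^ 24 - 1)
  | 0, x => by simp
  | N + 1, x => by
    have ih := cnt_mask N (x / 2 ^ 24)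
    rw [geom_sum_succ, sum_range_succ']
    simp only [Nat.div_div_eq_div_mul, ← pow_add] at ih
    simp only [mul_add, mul_one, add_comm (24 * _) 24, mul_zero, pow_zero, Nat.div_one]
    generalize ∑ i ∈ range N, (2 ^ 24) ^ i = m at ih ⊢
    generalize ∑ i ∈ range N, x / 2 ^ (24 + 24 * i) % 2 = t at ih ⊢
    have h1 := Nat.div_add_mod (x &&& (2 ^ 24 * m + 1)) (2 ^ 24)
    rw [Nat.and_div_two_pow, Nat.and_mod_two_pow, show (2 ^ 24 * m + 1) / 2 ^ 24 = m by omega,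
      show (2 ^ 24 * m + 1) % 2 ^ 24 = 1 by omega, Nat.and_one_is_mod] at h1
    rw [← h1]
    generalize x / 2 ^ 24 &&& m = y at ih ⊢
    omega

theorem cnt_pc (x N : ℕ) : ∀ w, cntPc x (∑ i ∈ range N, (2 ^ 24) ^ i) w ≤
    ∑ r ∈ range w, ∑ i ∈ range N, x / 2 ^ (24 * i + r) % 2
  | 0 => le_rfl
  | w + 1 => by
    rw [sum_range_succ]
    refine Nat.add_le_add (cnt_pc x N w) ?_
    rw [cnt_mask, Nat.shiftRight_eq_div_pow]
    simp only [Nat.div_div_eq_div_mul, ← pow_add, add_comm w]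
    exact Nat.mod_le _ _

theorem cnt_two (f : ℕ → ℕ) : ∀ N, ∑ r ∈ range 24, ∑ i ∈ range N, f (24 * i + r) =
    ∑ j ∈ range (24 * N), f j
  | 0 => by simp
  | N + 1 => by
    rw [mul_add, mul_one, sum_range_add, ← cnt_two f N, ← sum_add_distrib]
    exact sum_congr rfl fun r _ => sum_range_succ _ _

theorem cnt_le {A M s : ℕ} (hA : 1 ≤ A) (hM : M < (s + 1) ^ 2) :
    cnt A M s ≤ ((Ioc A M).filter Nat.Prime).card := by
  rw [cnt, pow_mul, ← Nat.geomSum_eq (by norm_num)]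
  refine (cnt_pc _ _ _).trans ?_
  generalize hx : (2 ^ (M - A) - 1) ^^^ (cntSv (2 ^ M) (s + 1) % 2 ^ (M - A)) = x
  rw [cnt_two fun j => x / 2 ^ j % 2]
  have h1 : ∀ j, x / 2 ^ j % 2 = if x.testBit j = true then 1 else 0 := fun j => by
    rw [← Nat.toNat_testBit]
    cases x.testBit j <;> rfl
  have h2 : ∀ j, x.testBit j = true → j < M - A ∧ (M - j).Prime := fun j h => by
    rw [← hx, Nat.testBit_xor, Nat.testBit_two_pow_sub_one, Nat.testBit_mod_two_pow] at h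
    have hj : j < M - A := by
      by_contra k
      simp [k] at h
    refine ⟨hj, by_contra fun k => ?_⟩
    have hp := Nat.minFac_prime (n := M - j) (by omega)
    have h3 := Nat.minFac_sq_le_self (n := M - j) (by omega) k
    have h4 : (M - j).minFac < s + 1 := lt_of_pow_lt_pow_left₀ 2 (by omega) (by omega)
    rw [cnt_sv hp (cnt_bit hp.two_le (by omega) (Nat.minFac_dvd _)) _ h4] at h
    simp [hj] at h
  simp only [h1]
  rw [← card_filter]
  refine card_le_card_of_injOn (fun j => M - j) (fun j hj => ?_) fun i hi j hj e => ?_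
  · have := h2 j (mem_filter.1 hj).2
    exact mem_coe.2 (mem_filter.2 ⟨mem_Ioc.2 ⟨by dsimp only; omega, Nat.sub_le _ _⟩, this.2⟩)
  · have := h2 i (mem_filter.1 hi).2
    have := h2 j (mem_filter.1 hj).2
    dsimp only at e
    omega

end Pool.Agent.Lib.MP_fc51f7_nt.MT
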