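import Pool.Agent.Lib.MP_fc51f7_nt.MT.Sums

/-! Four primes in translates of an admissible tuple. -/

set_option autoImplicit false
set_option linter.unusedSectionVars false

namespace Pool.Agent.Lib.MP_fc51f7_nt.MT

open Finset Filter Topology Polynomial

theorem crt_adm {k : ℕ} (g : Fin k → ℕ) (h : ∀ p : ℕ, p.Prime → ∃ r : ℕ, ∀ j, ¬ p ∣ r + g j)
    (D : ℕ) : ∃ a : ℕ, ∀ j, Nat.Coprime (a + g j) (primorial D) := by
  choose! r hr using h
  obtain ⟨a, ha⟩ := Nat.chineseRemainderOfFinset r id ((range (D + 1)).filter Nat.Prime)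
    (fun p hp => (mem_filter.1 hp).2.ne_zero) fun p hp q hq hne =>
      (Nat.coprime_primes (mem_filter.1 hp).2 (mem_filter.1 hq).2).2 hne
  refine ⟨a, fun j => Nat.Coprime.prod_right fun p hp => ?_⟩
  have pp := (mem_filter.1 hp).2
  exact ((Nat.Prime.coprime_iff_not_dvd pp).2 fun c => hr p pp j
    ((((ha p hp).add_right (g j)).dvd_iff dvd_rfl).1 c)).symm

theorem dhl {k : ℕ} {ω : ℝ} (hω : 4 * Real.log 16 < ω) (hC : Cert k ω) {g : Fin (k + 1) → ℕ}
    (hg : Function.Injective g) (h : ∀ p : ℕ, p.Prime → ∃ r : ℕ, ∀ j, ¬ p ∣ r + g j) (N : ℕ) :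
    ∃ z : ℕ, N ≤ z ∧ 4 ≤ (univ.filter fun j => (z + g j).Prime).card := by
  obtain ⟨m, c, n, b, a', hc, hn, hlt⟩ := hC
  have w0 : 0 < ω := lt_trans (mul_pos (by norm_num) (Real.log_pos (by norm_num))) hω
  obtain ⟨I, hI⟩ : ∃ I, I = Iv c n b k / ω ^ (k + 1) := ⟨_, rfl⟩
  obtain ⟨J, hJ⟩ : ∃ J, J = Jv c n b a' k / ω ^ (k + 2) := ⟨_, rfl⟩
  have d0 : 0 < (k + 1) * J - 3 * I := by
    have e : (k + 1) * J - 3 * I = ((k + 1) * Jv c n b a' k - 3 * ω * Iv c n b k) / ω ^ (k + 2) := by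
      rw [hI, hJ]
      field_simp
      ring
    rw [e]
    exact div_pos (sub_pos.2 hlt) (pow_pos w0 _)
  obtain ⟨ε, e0, e1⟩ : ∃ ε : ℝ, 0 < ε ∧ 3 * (I + ε) < (k + 1) * (J - ε) := by
    have k5 : (0 : ℝ) < k + 5 := by positivity
    refine ⟨((k + 1) * J - 3 * I) / (k + 5), div_pos d0 k5, ?_⟩
    have := div_pos d0 k5
    have := mul_div_cancel₀ ((k + 1) * J - 3 * I) k5.ne'
    linarith
  have hG : ∀ j, g j ≤ univ.sup g := fun j => le_sup (mem_univ j)
  generalize univ.sup g = G at hG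
  obtain ⟨D, h1, h2⟩ := ((S1_le c hn b hω hg hG e0).and
    (eventually_all.2 fun j => S2_ge hc hn b a' hω hg hG j e0)).exists
  obtain ⟨a, ha⟩ := crt_adm g h D
  obtain ⟨x, ⟨k1, k2⟩, k3, k4⟩ := (((h1 a).and (eventually_all.2 fun j => h2 j a (ha j))).and
    ((Meas.BB_pos D).and (eventually_ge_atTop (N + G + 1)))).exists
  rw [← hI] at k1
  rw [← hJ] at k2
  have P0 : (0 : ℝ) < x / primorial D * BB D x ^ (k + 1) :=
    mul_pos (div_pos (Nat.cast_pos.2 (by omega)) (Nat.cast_pos.2 (primorial_pos D))) (pow_pos k3 _)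
  generalize (x : ℝ) / primorial D * BB D x ^ (k + 1) = P at k1 k2 P0
  generalize SS (qq D x) (fun j => (g j : ℤ)) (yF c n b (qq D x) (ω / Real.log x)) = w at k1 k2
  by_contra hz
  have k5 := sum_le_sum fun j (_ : j ∈ univ) => k2 j
  simp only [← filter_filter, sum_filter fun z => (z + g _).Prime] at k5
  rw [sum_comm, sum_const, card_univ, Fintype.card_fin, nsmul_eq_mul] at k5
  have k6 := k5.trans (sum_le_sum (g := fun z : ℕ => 3 * w z ^ 2) fun z hz' => by
    have z0 : N ≤ z := by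
      have := (mem_Ioc.1 (mem_filter.1 hz').1).1
      omega
    have z1 : (univ.filter fun j => (z + g j).Prime).card ≤ 3 := by
      by_contra q
      exact hz ⟨z, z0, by omega⟩
    rw [← sum_filter, sum_const, nsmul_eq_mul]
    exact mul_le_mul_of_nonneg_right (by exact_mod_cast z1) (sq_nonneg _))
  rw [← mul_sum] at k6
  push_cast at k6
  nlinarith [mul_lt_mul_of_pos_left e1 P0]

/-- Primes above `k` form an admissible tuple. -/
theorem tuple_of_count {k A M : ℕ} (hA : k ≤ A) (h : k ≤ ((Ioc A M).filter Nat.Prime).card) :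
    ∃ g : Fin k → ℕ, Function.Injective g ∧ (∀ j, A < g j ∧ g j ≤ M) ∧
      ∀ p : ℕ, p.Prime → ∃ r : ℕ, ∀ j, ¬ p ∣ r + g j := by
  obtain ⟨s, hs, hk⟩ := exists_subset_card_eq h
  have m := fun j => mem_filter.1 (hs (s.orderEmbOfFin_mem hk j))
  refine ⟨s.orderEmbOfFin hk, (s.orderEmbOfFin hk).injective, fun j => mem_Ioc.1 (m j).1,
    fun p hp => ?_⟩
  by_cases c : p ≤ k
  · refine ⟨0, fun j q => ?_⟩
    rw [zero_add, Nat.prime_dvd_prime_iff_eq hp (m j).2] at q
    have := (mem_Ioc.1 (m j).1).1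
    omega
  · have : NeZero p := ⟨hp.ne_zero⟩
    obtain ⟨y, hy⟩ : ∃ y : ZMod p, ∀ j, -(s.orderEmbOfFin hk j : ZMod p) ≠ y := by
      by_contra! q
      have := Fintype.card_le_of_surjective _ q
      rw [ZMod.card, Fintype.card_fin] at this
      exact c this
    refine ⟨y.val, fun j q => hy j ?_⟩
    rw [← ZMod.natCast_eq_zero_iff, Nat.cast_add, ZMod.natCast_zmod_val] at q
    exact neg_eq_of_add_eq_zero_left q

theorem nth_gap {X : ℕ}
    (h : ∀ N : ℕ, ∃ z : ℕ, N ≤ z ∧ 4 ≤ ((Ioc z (z + X + 1)).filter Nat.Prime).card) :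
    {i : ℕ | Nat.nth Nat.Prime (i + 3) ≤ Nat.nth Nat.Prime i + X}.Infinite := by
  have hp : (Set.ofPred Nat.Prime).Infinite := Nat.infinite_setOfPred_prime
  refine Set.infinite_of_forall_exists_gt fun i => ?_
  obtain ⟨z, h1, h2⟩ := h (Nat.nth Nat.Prime i)
  refine ⟨Nat.count Nat.Prime (z + 1), ?_, (Nat.lt_nth_iff_count_lt hp).2 (Nat.lt_succ_of_le h1)⟩
  have a := Nat.le_nth_count hp (z + 1)
  have b : Nat.count Nat.Prime (z + 1) + 3 < Nat.count Nat.Prime (z + X + 2) := by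
    have c : ((range (z + 1)).filter Nat.Prime ∪ (Ioc z (z + X + 1)).filter Nat.Prime).card ≤
        ((range (z + X + 2)).filter Nat.Prime).card := card_le_card fun y hy => by
      simp only [mem_union, mem_filter, mem_range, mem_Ioc] at hy ⊢
      rcases hy with q | q
      · exact ⟨by omega, q.2⟩
      · exact ⟨by omega, q.2⟩
    rw [card_union_of_disjoint (disjoint_left.2 fun y q q' => by
      simp only [mem_filter, mem_range, mem_Ioc] at q q'
      omega)] at c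
    rw [Nat.count_eq_card_filter_range, Nat.count_eq_card_filter_range]
    exact lt_of_lt_of_le (Nat.add_lt_add_left h2 _) c
  have := Nat.nth_lt_of_lt_count b
  change Nat.nth Nat.Prime (_ + 3) ≤ _
  omega

theorem four_primes {k A X : ℕ} {ω : ℝ} (hω : 4 * Real.log 16 < ω) (hC : Cert k ω)
    (hA : k + 1 ≤ A) (h : k + 1 ≤ ((Ioc A (A + X + 1)).filter Nat.Prime).card) :
    {i : ℕ | Nat.nth Nat.Prime (i + 3) ≤ Nat.nth Nat.Prime i + X}.Infinite := by
  obtain ⟨g, h1, h2, h3⟩ := tuple_of_count hA h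
  refine nth_gap fun N => ?_
  obtain ⟨z, z0, z1⟩ := dhl hω hC h1 h3 N
  refine ⟨z + A, by omega, z1.trans (card_le_card_of_injOn (fun j => z + g j) (fun j hj => ?_)
    fun i _ j _ q => h1 (Nat.add_left_cancel q))⟩
  have := h2 j
  exact mem_coe.2 (mem_filter.2 ⟨mem_Ioc.2 (show z + A < z + g j ∧ z + g j ≤ _ by omega),
    (mem_filter.1 (mem_coe.1 hj)).2⟩)

end Pool.Agent.Lib.MP_fc51f7_nt.MT
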