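import Pool.Agent.Lib.MP_fc51f7_nt.PrC

/-! Definitions for the Maynard-Tao sieve with many forms. -/

set_option autoImplicit false
set_option linter.unusedSectionVars false

namespace Pool.Agent.Lib.MP_fc51f7_nt.MT

open Finset Filter Topology Polynomial

noncomputable section

/-- The local error constant for at most `K` forms. -/
def cK (K : ℕ) : ℝ := 8 * ((K : ℝ) + 1) ^ 2 * 2 ^ K

/-- The relative error of the independent model. -/
def eK (K D : ℕ) : ℝ := 3 * (Real.exp (4 ^ K * ((cK K + 2) / D)) - 1)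

theorem cK_pos (K : ℕ) : 0 < cK K := by unfold cK; positivity

theorem eK_nonneg (K D : ℕ) : 0 ≤ eK K D := by
  have := cK_pos K
  exact mul_nonneg (by norm_num) (sub_nonneg.2 (Real.one_le_exp (by positivity)))

theorem eK_tendsto (K : ℕ) : Tendsto (eK K) atTop (𝓝 0) := by
  have h : Tendsto (fun D : ℕ => (4 : ℝ) ^ K * ((cK K + 2) / D)) atTop (𝓝 (4 ^ K * 0)) :=
    (tendsto_const_div_atTop_nhds_zero_nat (cK K + 2)).const_mul _
  have := (((Real.continuous_exp.tendsto _).comp h).sub_const 1).const_mul 3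
  unfold eK
  simpa using this

section
variable {ι κ : Type} [Fintype ι] [DecidableEq ι] [Fintype κ] [DecidableEq κ] {m : ℕ}

def Yf (q : ι → ℕ) (s : ℝ) (T : Finset ι) : ℝ := Real.exp (-(s * lg q T))

def YY (q : ι → ℕ) (s : ℝ) (T : κ → Finset ι) : ℝ := ∏ j, Yf q s (T j)

/-- The one-dimensional profile, a positive combination of exponentials. -/
def GG (c : Fin m → ℝ) (n : Fin m → ℕ) (q : ι → ℕ) (s : ℝ) (T : Finset ι) : ℝ :=
  ∑ i, c i * Yf q s T ^ n i

/-- The radial polynomial, not positive below `1/16`. -/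
def hh (b : ℝ[X]) : ℝ[X] := (C 16 * X - 1) * b ^ 2

/-- The sieve weight: product profile times radial profile, cut at the level. -/
def yF (c : Fin m → ℝ) (n : Fin m → ℕ) (b : ℝ[X]) (q : ι → ℕ) (s : ℝ) (T : κ → Finset ι) : ℝ :=
  (∏ j, GG c n q s (T j)) * if 1 / 16 ≤ YY q s T then (hh b).eval (YY q s T) else 0

/-- The marginal of a weight in the distinguished variable. -/
def marg (q : ι → ℕ) (y : (Option κ → Finset ι) → ℝ) (T : κ → Finset ι) : ℝ :=
  ∑ T0 : Finset ι, (y fun o => o.elim T0 T) * wt q T0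

def M1 (c : Fin m → ℝ) (n : Fin m → ℕ) (q : ι → ℕ) (s : ℝ) (j : ℕ) : ℝ :=
  ∑ T : Finset ι, wt q T * (GG c n q s T * Yf q s T ^ j)

def M2 (c : Fin m → ℝ) (n : Fin m → ℕ) (q : ι → ℕ) (s : ℝ) (j : ℕ) : ℝ :=
  ∑ T : Finset ι, wt q T * (GG c n q s T ^ 2 * Yf q s T ^ j)

def l1 (c : Fin m → ℝ) (n : Fin m → ℕ) (j : ℕ) : ℝ := ∑ i, c i / ((n i : ℝ) + j)

def l2 (c : Fin m → ℝ) (n : Fin m → ℕ) (j : ℕ) : ℝ :=
  ∑ i, ∑ i', c i * c i' / ((n i : ℝ) + n i' + j)

end

/-- The linear functional sending `X ^ j` to `μ j`. -/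
def Phi (μ : ℕ → ℝ) (P : ℝ[X]) : ℝ := P.sum fun j p => p * μ j

/-- The linear map sending `X ^ j` to `ν j • X ^ j`. -/
def Tw (ν : ℕ → ℝ) (P : ℝ[X]) : ℝ[X] := P.sum fun j p => monomial j (p * ν j)

/-- Upper bound for the normalised square norm of the weight in `k + 1` variables. -/
def Iv {m : ℕ} (c : Fin m → ℝ) (n : Fin m → ℕ) (b : ℝ[X]) (k : ℕ) : ℝ :=
  Phi (fun j => l2 c n j ^ (k + 1)) (hh b ^ 2)

/-- Lower bound for the normalised square norm of the marginal. -/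
def Jv {m : ℕ} (c : Fin m → ℝ) (n : Fin m → ℕ) (b a : ℝ[X]) (k : ℕ) : ℝ :=
  2 * Phi (fun j => l2 c n j ^ k) (a ^ 2 * Tw (l1 c n) (hh b)) - Phi (fun j => l2 c n j ^ k) (a ^ 4)

/-- The numerical certificate for `k + 1` forms and four primes. -/
def Cert (k : ℕ) (ω : ℝ) : Prop :=
  ∃ (m : ℕ) (c : Fin m → ℝ) (n : Fin m → ℕ) (b a : ℝ[X]), (∀ i, 0 ≤ c i) ∧ (∀ i, 0 < n i) ∧
    3 * ω * Iv c n b k < (k + 1) * Jv c n b a k

end

end Pool.Agent.Lib.MP_fc51f7_nt.MT
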