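import Pool.Agent.Lib.MP_fc51f7_nt.MT.Defs

/-! Finite identities and inequalities for the product-radial weight. -/

set_option autoImplicit false
set_option linter.unusedSectionVars false

namespace Pool.Agent.Lib.MP_fc51f7_nt.MT

open Finset Filter Topology Polynomial

section
variable {ι κ κ' : Type} [Fintype ι] [DecidableEq ι] [Fintype κ] [DecidableEq κ] [Fintype κ']
  [DecidableEq κ'] {m : ℕ}

theorem Yf_posK (q : ι → ℕ) (s : ℝ) (T : Finset ι) : 0 < Yf q s T := Real.exp_pos _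

theorem YY_eqK (q : ι → ℕ) (s : ℝ) (T : κ → Finset ι) :
    YY q s T = Real.exp (-(s * lgs q T)) := by
  rw [YY, lgs, mul_sum, ← sum_neg_distrib, Real.exp_sum]
  rfl

theorem Yf_leK (q : ι → ℕ) {s : ℝ} (hs : 0 ≤ s) (T : Finset ι) : Yf q s T ≤ 1 :=
  Real.exp_le_one_iff.2 (neg_nonpos.2 (mul_nonneg hs (lg_nonneg q T)))

theorem YY_posK (q : ι → ℕ) (s : ℝ) (T : κ → Finset ι) : 0 < YY q s T :=
  prod_pos fun _ _ => Yf_posK q s _

theorem YY_leK (q : ι → ℕ) {s : ℝ} (hs : 0 ≤ s) (T : κ → Finset ι) : YY q s T ≤ 1 :=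
  prod_le_one (fun _ _ => (Yf_posK q s _).le) fun _ _ => Yf_leK q hs _

theorem YY_elimK (q : ι → ℕ) (s : ℝ) (T0 : Finset ι) (T : κ → Finset ι) :
    YY q s (fun o : Option κ => o.elim T0 T) = Yf q s T0 * YY q s T := by
  simp [YY, Fintype.prod_option]

theorem GG_nonnegK {c : Fin m → ℝ} (hc : ∀ i, 0 ≤ c i) (n : Fin m → ℕ) (q : ι → ℕ) (s : ℝ)
    (T : Finset ι) : 0 ≤ GG c n q s T :=
  sum_nonneg fun i _ => mul_nonneg (hc i) (pow_nonneg (Yf_posK q s T).le _)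

theorem sum_PhiK (c : Fin m → ℝ) (n : Fin m → ℕ) (q : ι → ℕ) (s : ℝ) (P : ℝ[X]) :
    ∑ T : κ → Finset ι, (∏ j, GG c n q s (T j)) ^ 2 * P.eval (YY q s T) * wts q T =
      Phi (fun j => M2 c n q s j ^ Fintype.card κ) P := by
  simp only [Phi, eval_eq_sum, Polynomial.sum, mul_sum, sum_mul]
  rw [sum_comm]
  refine sum_congr rfl fun l _ => ?_
  rw [M2, ← card_univ, ← prod_const, Fintype.prod_sum, mul_sum]
  refine sum_congr rfl fun T _ => ?_
  rw [prod_mul_distrib, prod_mul_distrib, prod_pow, prod_pow, wts, YY]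
  ring

theorem sum_TwK (c : Fin m → ℝ) (n : Fin m → ℕ) (q : ι → ℕ) (s : ℝ) (P : ℝ[X]) (y : ℝ) :
    ∑ T0 : Finset ι, GG c n q s T0 * P.eval (Yf q s T0 * y) * wt q T0 =
      (Tw (M1 c n q s) P).eval y := by
  rw [Tw, Polynomial.sum, eval_finsetSum]
  simp only [eval_monomial]
  simp only [eval_eq_sum, Polynomial.sum, mul_sum, sum_mul, M1]
  rw [sum_comm]
  refine sum_congr rfl fun l _ => sum_congr rfl fun T _ => ?_
  ring

theorem hh_leK (b : ℝ[X]) (y : ℝ) : (hh b).eval y ≤ if 1 / 16 ≤ y then (hh b).eval y else 0 := by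
  split_ifs with h
  · exact le_rfl
  · simp only [hh, eval_mul, eval_sub, eval_C, eval_X, eval_one, eval_pow]
    exact mul_nonpos_of_nonpos_of_nonneg (by linarith [not_le.1 h]) (sq_nonneg _)

theorem marg_geK {c : Fin m → ℝ} (hc : ∀ i, 0 ≤ c i) (n : Fin m → ℕ) (b : ℝ[X]) (q : ι → ℕ)
    (hq : ∀ i, 2 ≤ q i) (s : ℝ) (T : κ → Finset ι) :
    (∏ j, GG c n q s (T j)) * (Tw (M1 c n q s) (hh b)).eval (YY q s T) ≤
      marg q (yF c n b q s) T := by
  rw [← sum_TwK, mul_sum, marg]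
  refine sum_le_sum fun T0 _ => ?_
  rw [← mul_assoc, yF, YY_elimK, Fintype.prod_option, ← mul_assoc, mul_comm _ (GG c n q s T0)]
  exact mul_le_mul_of_nonneg_right (mul_le_mul_of_nonneg_left (hh_leK b _)
    (mul_nonneg (GG_nonnegK hc n q s _) (prod_nonneg fun _ _ => GG_nonnegK hc n q s _)))
    (wt_nonneg q hq T0)

theorem yF_neK {c : Fin m → ℝ} {n : Fin m → ℕ} {b : ℝ[X]} {q : ι → ℕ} {s : ℝ}
    {T : κ → Finset ι} (h : yF c n b q s T ≠ 0) : 1 / 16 ≤ YY q s T := by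
  by_contra k
  exact h (by rw [yF, if_neg k, mul_zero])

theorem yF_absK (c : Fin m → ℝ) (n : Fin m → ℕ) (b : ℝ[X]) (q : ι → ℕ) {s : ℝ} (hs : 0 ≤ s)
    (T : κ → Finset ι) : |yF c n b q s T| ≤
      (∑ i, |c i|) ^ Fintype.card κ * ∑ l ∈ (hh b).support, |(hh b).coeff l| := by
  have h1 : ∀ (a y : ℝ) (l : ℕ), 0 < y → y ≤ 1 → |a * y ^ l| ≤ |a| := fun a y l h h' => by
    rw [abs_mul, abs_of_pos (pow_pos h l)]
    exact mul_le_of_le_one_right (abs_nonneg _) (pow_le_one₀ h.le h')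
  rw [yF, abs_mul, abs_prod, ← card_univ, ← prod_const]
  refine mul_le_mul (prod_le_prod (fun _ _ => abs_nonneg _) fun j _ =>
    (abs_sum_le_sum_abs _ _).trans (sum_le_sum fun i _ =>
      h1 _ _ _ (Yf_posK q s _) (Yf_leK q hs _))) ?_ (abs_nonneg _) (by positivity)
  split_ifs
  · rw [eval_eq_sum, Polynomial.sum]
    exact (abs_sum_le_sum_abs _ _).trans (sum_le_sum fun l _ =>
      h1 _ _ _ (YY_posK q s T) (YY_leK q hs T))
  · rw [abs_zero]
    positivity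

/-- Upper bound for the square norm: drop the cut. -/
theorem I_le (c : Fin m → ℝ) (n : Fin m → ℕ) (b : ℝ[X]) (q : ι → ℕ) (hq : ∀ i, 2 ≤ q i) (s : ℝ) :
    ∑ T : κ → Finset ι, yF c n b q s T * yF c n b q s T * wts q T ≤
      Phi (fun j => M2 c n q s j ^ Fintype.card κ) (hh b ^ 2) := by
  rw [← sum_PhiK]
  refine sum_le_sum fun T _ => mul_le_mul_of_nonneg_right ?_ (wts_nonneg q hq T)
  rw [yF, eval_pow]
  split_ifs
  · exact le_of_eq (by ring)
  · rw [mul_zero, mul_zero]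
    positivity

/-- Lower bound for the square norm of the marginal, by duality. -/
theorem J_ge {c : Fin m → ℝ} (hc : ∀ i, 0 ≤ c i) (n : Fin m → ℕ) (b a : ℝ[X]) (q : ι → ℕ)
    (hq : ∀ i, 2 ≤ q i) (s : ℝ) {t : ℝ} (ht : 0 ≤ t) :
    2 * t * Phi (fun j => M2 c n q s j ^ Fintype.card κ) (a ^ 2 * Tw (M1 c n q s) (hh b)) -
        t ^ 2 * Phi (fun j => M2 c n q s j ^ Fintype.card κ) (a ^ 4) ≤
      ∑ T : κ → Finset ι, marg q (yF c n b q s) T * marg q (yF c n b q s) T * wts q T := by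
  rw [← sum_PhiK, ← sum_PhiK, mul_sum, mul_sum, ← sum_sub_distrib]
  refine sum_le_sum fun T _ => ?_
  rw [← mul_assoc, ← mul_assoc (t ^ 2), ← sub_mul]
  refine mul_le_mul_of_nonneg_right ?_ (wts_nonneg q hq T)
  have h1 := marg_geK hc n b q hq s T
  have h2 : 0 ≤ t * (∏ j, GG c n q s (T j)) * a.eval (YY q s T) ^ 2 :=
    mul_nonneg (mul_nonneg ht (prod_nonneg fun _ _ => GG_nonnegK hc n q s _)) (sq_nonneg _)
  rw [eval_mul, eval_pow, eval_pow]
  nlinarith [mul_le_mul_of_nonneg_left h1 h2, sq_nonneg (marg q (yF c n b q s) T -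
    t * (∏ j, GG c n q s (T j)) * a.eval (YY q s T) ^ 2)]

/-- At a prime value of the distinguished form the sieve sum is that of the marginal. -/
theorem SS_marg (q : ι → ℕ) (hq : ∀ i, (q i).Prime) (g : Option κ → ℤ)
    (y : (Option κ → Finset ι) → ℝ) {z : ℤ} {p : ℕ} (hp : p.Prime) (hz : z + g none = p)
    (hy : ∀ T, y T ≠ 0 → lgs q T < Real.log p) :
    SS q g y z = SS q (fun j => g (some j) - g none) (marg q y) p := by
  rw [SS, sum_option, sum_comm, SS]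
  refine sum_congr rfl fun T _ => ?_
  rw [marg, sum_mul]
  refine sum_congr rfl fun T0 _ => ?_
  by_cases h : (y fun o => o.elim T0 T) = 0
  · rw [h, zero_mul, zero_mul, zero_mul]
  have h1 := hy _ h
  rw [lgs_option] at h1
  have h2 : Xi q T0 p = wt q T0 := prod_congr rfl fun i hi => if_neg fun k => by
    have h3 : Real.log (q i) ≤ lg q T0 :=
      single_le_sum (f := fun i => Real.log (q i)) (fun _ _ => Real.log_natCast_nonneg _) hi
    rw [(Nat.prime_dvd_prime_iff_eq (hq i) hp).1 (Int.natCast_dvd_natCast.1 k)] at h3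
    exact (h3.trans (le_add_of_nonneg_right (lgs_nonneg q _))).not_gt h1
  rw [Fintype.prod_option, hz, mul_assoc, ← h2, ← hz]
  simp only [Option.elim, add_assoc, add_sub_cancel]

theorem yF_re (e : κ ≃ κ') (c : Fin m → ℝ) (n : Fin m → ℕ) (b : ℝ[X]) (q : ι → ℕ) (s : ℝ)
    (T : κ' → Finset ι) : yF c n b q s (fun j => T (e j)) = yF c n b q s T := by
  rw [yF, yF, YY, YY, e.prod_comp fun j => GG c n q s (T j), e.prod_comp fun j => Yf q s (T j)]

theorem yF_supp {c : Fin m → ℝ} {n : Fin m → ℕ} {b : ℝ[X]} {q : ι → ℕ} {s : ℝ}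
    {T : κ → Finset ι} (h : yF c n b q s T ≠ 0) : s * lgs q T ≤ Real.log 16 := by
  have h1 := Real.log_le_log (by norm_num) (yF_neK h)
  rw [YY_eqK, Real.log_exp, one_div, Real.log_inv] at h1
  linarith

theorem marg_supp {c : Fin m → ℝ} {n : Fin m → ℕ} {b : ℝ[X]} {q : ι → ℕ} {s : ℝ} (hs : 0 ≤ s)
    {T : κ → Finset ι} (h : marg q (yF c n b q s) T ≠ 0) : s * lgs q T ≤ Real.log 16 := by
  obtain ⟨T0, -, h1⟩ := exists_ne_zero_of_sum_ne_zero h
  have h2 := yF_supp (left_ne_zero_of_mul h1)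
  rw [lgs_option] at h2
  exact (mul_le_mul_of_nonneg_left (le_add_of_nonneg_left (lg_nonneg q _)) hs).trans h2

end

/-- Sup bounds for the weight and its marginal. -/
theorem yF_bdd {m : ℕ} (c : Fin m → ℝ) (n : Fin m → ℕ) (b : ℝ[X]) (k : ℕ) : ∃ C : ℝ, 0 < C ∧
    ∀ (ι : Type) [Fintype ι] [DecidableEq ι] (q : ι → ℕ) (s : ℝ), (∀ i, 2 ≤ q i) → 0 ≤ s →
      (∀ T : Fin (k + 1) → Finset ι, |yF c n b q s T| ≤ C) ∧
      ∀ T : Fin k → Finset ι, |marg q (yF c n b q s) T| ≤ C * Zf q s := by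
  set B := (∑ i, |c i|) ^ (k + 1) * ∑ l ∈ (hh b).support, |(hh b).coeff l| with hB
  have h0 : 0 ≤ B := by positivity
  refine ⟨16 * B + 1, by positivity, fun ι _ _ q s hq hs => ⟨fun T => ?_, fun T => ?_⟩⟩
  · have := yF_absK c n b q hs T
    rw [Fintype.card_fin] at this
    linarith
  rw [← sum_wt_exp, mul_sum, marg]
  refine (abs_sum_le_sum_abs _ _).trans (sum_le_sum fun T0 _ => ?_)
  have h1 := wt_nonneg q hq T0
  have h2 := Yf_posK q s T0
  change _ ≤ _ * (_ * Yf q s T0)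
  by_cases h : yF c n b q s (fun o : Option (Fin k) => o.elim T0 T) = 0
  · rw [h, zero_mul, abs_zero]
    positivity
  have h3 := yF_neK h
  rw [YY_elimK] at h3
  have h4 := h3.trans (mul_le_of_le_one_right h2.le (YY_leK q hs T))
  have h5 := yF_absK c n b q hs fun o : Option (Fin k) => o.elim T0 T
  rw [Fintype.card_option, Fintype.card_fin, ← hB] at h5
  rw [abs_mul, abs_of_nonneg h1, mul_comm (wt q T0), ← mul_assoc]
  exact mul_le_mul_of_nonneg_right (by nlinarith) h1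

end Pool.Agent.Lib.MP_fc51f7_nt.MT
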