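import Pool.Agent.Lib.MP_fc51f7_nt.MT.Disc

/-! Limits of the norms of the product-radial weight. -/

set_option autoImplicit false
set_option linter.unusedSectionVars false

namespace Pool.Agent.Lib.MP_fc51f7_nt.MT

open Finset Filter Topology Polynomial

theorem pow_tendstoK {ω : ℝ} (hω : 0 < ω) (D : ℕ) {N : ℕ} (hN : 0 < N) :
    Tendsto (fun x : ℕ => (∑ T, wt (qq D x) T * Yf (qq D x) (ω / Real.log x) T ^ N) / BB D x) atTop
      (𝓝 ((N * ω)⁻¹)) := by
  refine (Zf_tendsto D (w := N * ω) (by positivity)).congr fun x => ?_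
  rw [← sum_wt_exp]
  refine congrArg (· / _) (sum_congr rfl fun T _ => ?_)
  rw [Yf, ← Real.exp_nat_mul]
  congr 2
  ring

theorem Phi_divK (μ : ℕ → ℝ) (t : ℝ) (k : ℕ) (P : ℝ[X]) :
    Phi (fun j => (μ j / t) ^ k) P = Phi (fun j => μ j ^ k) P / t ^ k := by
  simp only [Phi, Polynomial.sum, sum_div, div_pow, mul_div_assoc]

theorem Phi_tendstoK {μ : ℕ → ℕ → ℝ} {μ' : ℕ → ℝ}
    (h : ∀ j, Tendsto (fun x => μ x j) atTop (𝓝 (μ' j))) (P : ℝ[X]) :
    Tendsto (fun x => Phi (μ x) P) atTop (𝓝 (Phi μ' P)) :=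
  tendsto_finsetSum _ fun j _ => (h j).const_mul _

theorem Phi_TwK (μ ν : ℕ → ℝ) (A P : ℝ[X]) :
    Phi μ (A * Tw ν P) = ∑ j ∈ P.support, P.coeff j * ν j * Phi μ (A * X ^ j) := by
  let L : ℝ[X] →ₗ[ℝ] ℝ := Polynomial.lsum fun j => LinearMap.mulRight ℝ (μ j)
  have e : ∀ Q, Phi μ Q = L Q := fun _ => rfl
  simp only [e, Tw, Polynomial.sum, mul_sum, map_sum]
  refine sum_congr rfl fun j _ => ?_
  rw [← smul_X_eq_monomial, mul_smul_comm, map_smul, smul_eq_mul]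

theorem Phi_Tw_tendstoK {μ ν : ℕ → ℕ → ℝ} {μ' ν' : ℕ → ℝ}
    (h : ∀ j, Tendsto (fun x => μ x j) atTop (𝓝 (μ' j)))
    (h' : ∀ j, Tendsto (fun x => ν x j) atTop (𝓝 (ν' j))) (A P : ℝ[X]) :
    Tendsto (fun x => Phi (μ x) (A * Tw (ν x) P)) atTop (𝓝 (Phi μ' (A * Tw ν' P))) := by
  simp only [Phi_TwK]
  exact tendsto_finsetSum _ fun j _ => ((h' j).const_mul _).mul (Phi_tendstoK h _)

theorem Phi_Tw_divK (μ ν : ℕ → ℝ) (t : ℝ) (A P : ℝ[X]) :
    Phi μ (A * Tw (fun j => ν j / t) P) = Phi μ (A * Tw ν P) / t := by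
  rw [Phi_TwK, Phi_TwK, sum_div]
  exact sum_congr rfl fun j _ => by ring

section
variable {m : ℕ} {c : Fin m → ℝ} {n : Fin m → ℕ}

theorem M1_tendsto (c : Fin m → ℝ) (hn : ∀ i, 0 < n i) {ω : ℝ} (hω : 0 < ω) (D j : ℕ) :
    Tendsto (fun x : ℕ => M1 c n (qq D x) (ω / Real.log x) j / BB D x) atTop
      (𝓝 (l1 c n j / ω)) := by
  have := tendsto_finsetSum univ fun i _ =>
    (pow_tendstoK hω D (N := n i + j) (Nat.add_pos_left (hn i) j)).const_mul (c i)
  convert this using 1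
  · funext x
    simp only [M1, GG, sum_mul, mul_sum, sum_div]
    rw [sum_comm]
    exact sum_congr rfl fun i _ => sum_congr rfl fun T _ => by ring
  · rw [l1, sum_div]
    exact congrArg _ (sum_congr rfl fun i _ => by push_cast; rw [div_div, div_eq_mul_inv])

theorem M2_tendsto (c : Fin m → ℝ) (hn : ∀ i, 0 < n i) {ω : ℝ} (hω : 0 < ω) (D j : ℕ) :
    Tendsto (fun x : ℕ => M2 c n (qq D x) (ω / Real.log x) j / BB D x) atTop
      (𝓝 (l2 c n j / ω)) := by
  have := tendsto_finsetSum univ fun i _ => tendsto_finsetSum univ fun i' _ =>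
    (pow_tendstoK hω D (N := n i + n i' + j)
      (Nat.add_pos_left (Nat.add_pos_left (hn i) _) j)).const_mul (c i * c i')
  convert this using 1
  · funext x
    simp only [M2, GG, sq, sum_mul, mul_sum, sum_div]
    rw [sum_comm]
    refine sum_congr rfl fun i _ => ?_
    rw [sum_comm]
    exact sum_congr rfl fun i' _ => sum_congr rfl fun T _ => by ring
  · simp only [l2, sum_div]
    exact congrArg _ (sum_congr rfl fun i _ => sum_congr rfl fun i' _ => by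
      push_cast; rw [div_div, div_eq_mul_inv])

theorem I_ev (c : Fin m → ℝ) (hn : ∀ i, 0 < n i) (b : ℝ[X]) {ω : ℝ} (hω : 0 < ω) (k D : ℕ)
    {ε : ℝ} (hε : 0 < ε) : ∀ᶠ x : ℕ in atTop,
    ∑ T : Fin (k + 1) → Finset (PP D x), yF c n b (qq D x) (ω / Real.log x) T *
        yF c n b (qq D x) (ω / Real.log x) T * wts (qq D x) T ≤
      (Iv c n b k / ω ^ (k + 1) + ε) * BB D x ^ (k + 1) := by
  have h := Phi_tendstoK (fun j => (M2_tendsto c hn hω D j).pow (k + 1)) (hh b ^ 2)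
  simp only [Phi_divK] at h
  filter_upwards [h.eventually_le_const (lt_add_of_pos_right _ hε), Meas.BB_pos D] with x h1 h2
  rw [div_le_iff₀ (pow_pos h2 _)] at h1
  refine (I_le c n b _ (qq_two D x) _).trans ?_
  rwa [Fintype.card_fin]

theorem J_ev (hc : ∀ i, 0 ≤ c i) (hn : ∀ i, 0 < n i) (b a : ℝ[X]) {ω : ℝ} (hω : 0 < ω) (k D : ℕ)
    {ε : ℝ} (hε : 0 < ε) : ∀ᶠ x : ℕ in atTop,
    (Jv c n b a k / ω ^ (k + 2) - ε) * BB D x ^ (k + 2) ≤
      ∑ T : Fin k → Finset (PP D x), marg (qq D x) (yF c n b (qq D x) (ω / Real.log x)) T *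
        marg (qq D x) (yF c n b (qq D x) (ω / Real.log x)) T * wts (qq D x) T := by
  have h2 := fun j => (M2_tendsto c hn hω D j).pow k
  have h3 := Phi_Tw_tendstoK h2 (M1_tendsto c hn hω D) (a ^ 2) (hh b)
  simp only [Phi_Tw_divK, Phi_divK] at h3
  have h4 := Phi_tendstoK h2 (a ^ 4)
  simp only [Phi_divK] at h4
  have h := (h3.const_mul (2 / ω)).sub (h4.const_mul (1 / ω ^ 2))
  filter_upwards [h.eventually_const_le (u := Jv c n b a k / ω ^ (k + 2) - ε)
    ((sub_lt_self _ hε).trans_eq (by rw [Jv]; field_simp; ring)), Meas.BB_pos D] with x h1 h2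
  refine .trans ?_ (J_ge hc n b a _ (qq_two D x) _ (div_pos h2 hω).le)
  refine (mul_le_mul_of_nonneg_right h1 (pow_pos h2 _).le).trans_eq ?_
  rw [Fintype.card_fin]
  field_simp
  ring

end

end Pool.Agent.Lib.MP_fc51f7_nt.MT
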