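import Pool.Agent.Lib.MP_fc51f7_nt.MT.Defs

/-! Local approximation and Type I sums for any number of forms. -/

set_option autoImplicit false
set_option linter.unusedSectionVars false

namespace Pool.Agent.Lib.MP_fc51f7_nt.MT

open Finset Filter Topology

section
variable {ι κ : Type} [Fintype ι] [DecidableEq ι] [Fintype κ] [DecidableEq κ]

theorem loc_mul_affineK {G p : ℕ} (hp : 2 * G + 16 < p) {g : κ → ℤ} (hg : Function.Injective g)
    (hG : ∀ j, |g j| ≤ G) (A A' : Finset κ) (m : ℤ) :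
    loc p g A m * loc p g A' m = ∏ j, al p A A' j + ∑ j, (if (p : ℤ) ∣ m + g j then 1 else 0) *
      ((be A A' j - al p A A' j) * ∏ l ∈ univ.erase j, al p A A' l) := by
  rw [loc_mul]
  by_cases h : ∃ j, (p : ℤ) ∣ m + g j
  · obtain ⟨j, hj⟩ := h
    have hu : ∀ l, l ≠ j → ¬ (p : ℤ) ∣ m + g l := by
      intro l hl h'
      have h1 : (p : ℤ) ∣ g l - g j := by simpa using dvd_sub h' hj
      have h2 := Int.le_of_dvd (abs_pos.2 (sub_ne_zero.2 (hg.ne hl))) ((dvd_abs _ _).2 h1)
      have h3 := abs_sub (g l) (g j)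
      have := hG l; have := hG j
      omega
    rw [sum_eq_single j (fun l _ hl => by simp [hu l hl]) (by simp),
      ← mul_prod_erase _ _ (mem_univ j), ← mul_prod_erase _ (al p A A') (mem_univ j),
      prod_congr rfl fun l hl => if_neg (hu l (ne_of_mem_erase hl))]
    simp only [hj, if_true]; ring
  · push Not at h
    simp [h]

theorem sum_loc_mulK {G p : ℕ} (hp : 2 * G + 16 < p) {g : κ → ℤ} (hg : Function.Injective g)
    (hG : ∀ j, |g j| ≤ G) (A A' : Finset κ) :
    ∑ r ∈ range p, loc p g A r * loc p g A' r = p * ∏ j, al p A A' j +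
      ∑ j, (be A A' j - al p A A' j) * ∏ l ∈ univ.erase j, al p A A' l := by
  simp only [loc_mul_affineK hp hg hG, sum_add_distrib, sum_const, card_range, nsmul_eq_mul]
  rw [sum_comm]
  simp only [← sum_mul, sum_dvd_one (show 0 < p by omega), one_mul]

theorem approx_coreK {K p : ℕ} (h16 : 16 < p) (hκ : Fintype.card κ ≤ K) (A A' : Finset κ) :
    |∏ j, al p A A' j + (p : ℝ)⁻¹ * ∑ j, (be A A' j - al p A A' j) *
      ∏ l ∈ univ.erase j, al p A A' l - ind p A A'| ≤ 4 * (K : ℝ) ^ 2 * 2 ^ K / (p : ℝ) ^ 2 ∧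
    |∑ j, (be A A' j - al p A A' j) * ∏ l ∈ univ.erase j, al p A A' l| ≤ 2 * K := by
  have h2 : 2 ≤ p := by omega
  have hp : (16 : ℝ) < p := by exact_mod_cast h16
  have hb : ∀ j, |be A A' j - al p A A' j| ≤ 2 := fun j =>
    (abs_sub _ _).trans (by have := abs_al_le h2 A A' j; rw [abs_be]; linarith)
  have hc : (Fintype.card κ : ℝ) ≤ K := by exact_mod_cast hκ
  constructor
  · have := second_order univ (al p A A') (fun j => (be A A' j - al p A A' j) / p) (d := 2 / p)
      (by positivity) (abs_al_le h2 A A') fun j => by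
        rw [abs_div, Nat.abs_cast]; gcongr; exact hb j
    rw [ind_eq h2, abs_sub_comm]
    have e : (p : ℝ)⁻¹ * ∑ j, (be A A' j - al p A A' j) * ∏ l ∈ univ.erase j, al p A A' l =
        ∑ j, (be A A' j - al p A A' j) / p * ∏ l ∈ univ.erase j, al p A A' l := by
      rw [mul_sum]; exact sum_congr rfl fun j _ => by ring
    rw [e, ← sub_sub]
    refine this.trans ?_
    rw [card_univ]
    have h3 : (1 + 2 / (p : ℝ)) ^ Fintype.card κ ≤ 2 ^ K := by
      refine (pow_le_pow_left₀ (by positivity) (show 1 + 2 / (p : ℝ) ≤ 2 by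
        rw [← le_sub_iff_add_le', div_le_iff₀ (by linarith)]; linarith) _).trans ?_
      exact pow_le_pow_right₀ (by norm_num) hκ
    calc _ ≤ ((K : ℝ) * (2 / (p : ℝ))) ^ 2 * 2 ^ K := by gcongr
      _ = _ := by field_simp; norm_num
  · refine (abs_sum_le_sum_abs _ _).trans ?_
    refine (sum_le_card_nsmul _ _ 2 fun j _ => ?_).trans (by rw [card_univ, nsmul_eq_mul]; linarith)
    rw [abs_mul, abs_prod]
    exact (mul_le_of_le_one_right (abs_nonneg _)
      (prod_le_one (fun _ _ => abs_nonneg _) fun l _ => abs_al_le h2 A A' l)).trans (hb j)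

theorem le_cK (K : ℕ) : 4 * (K : ℝ) ^ 2 * 2 ^ K + 4 * K ≤ cK K := by
  have h1 : (1 : ℝ) ≤ 2 ^ K := one_le_pow₀ one_le_two
  have h0 : (0 : ℝ) ≤ K := Nat.cast_nonneg K
  unfold cK
  nlinarith [mul_le_mul_of_nonneg_left h1 h0, mul_nonneg (sq_nonneg (K : ℝ)) (zero_le_one.trans h1)]

theorem avgK {K G p : ℕ} (hp : 2 * G + 16 < p) (hκ : Fintype.card κ ≤ K) {g : κ → ℤ}
    (hg : Function.Injective g) (hG : ∀ j, |g j| ≤ G) (A A' : Finset κ) :
    |(p : ℝ)⁻¹ * ∑ r ∈ range p, loc p g A r * loc p g A' r - ind p A A'| ≤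
      cK K / (p : ℝ) ^ 2 := by
  have h16 : 16 < p := by omega
  have hp' : (16 : ℝ) < p := by exact_mod_cast h16
  have h0 : (0 : ℝ) ≤ K := Nat.cast_nonneg K
  rw [sum_loc_mulK hp hg hG, mul_add, ← mul_assoc, inv_mul_cancel₀ (by linarith), one_mul]
  exact (approx_coreK h16 hκ A A').1.trans
    (div_le_div_of_nonneg_right (by linarith [le_cK K]) (by positivity))

theorem ubarK {K G p : ℕ} (hp : 2 * G + 16 < p) (hκ : Fintype.card κ ≤ K) {g : κ → ℤ}
    (hg : Function.Injective g) (hG : ∀ j, g j ≠ 0 ∧ |g j| ≤ G) (A A' : Finset κ) :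
    |ubar p g A A' - ind p A A'| ≤ cK K / (p : ℝ) ^ 2 := by
  have h16 : 16 < p := by omega
  have hp' : (16 : ℝ) < p := by exact_mod_cast h16
  have hK : (0 : ℝ) ≤ K := Nat.cast_nonneg K
  have h0 : loc p g A (0 : ℕ) * loc p g A' (0 : ℕ) = ∏ j, al p A A' j := by
    rw [loc_mul]
    refine prod_congr rfl fun j _ => if_neg fun h => ?_
    have := Int.le_of_dvd (abs_pos.2 (hG j).1) ((dvd_abs _ _).2 (by simpa using h))
    have := (hG j).2
    omega
  have h1 := sum_loc_mulK hp hg (fun j => (hG j).2) A A'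
  rw [range_eq_Ico, sum_eq_sum_Ico_succ_bot (by omega), h0] at h1
  obtain ⟨h2, h3⟩ := approx_coreK h16 hκ A A'
  unfold ubar
  set V := ∑ j, (be A A' j - al p A A' j) * ∏ l ∈ univ.erase j, al p A A' l
  set P := ∏ j, al p A A' j
  have h4 : ∑ r ∈ Ico 1 p, loc p g A r * loc p g A' r = (p - 1) * P + V := by
    simp only [zero_add] at h1; linarith
  have h5 : (p : ℝ) - 1 ≠ 0 := by linarith
  have e : ((p : ℝ) - 1)⁻¹ * ((p - 1) * P + V) - ind p A A' =
      (P + (p : ℝ)⁻¹ * V - ind p A A') + V / (p * (p - 1)) := by field_simp; ring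
  rw [h4, e]
  refine (abs_add_le _ _).trans ?_
  have h6 : |V / (p * (p - 1))| ≤ 4 * K / (p : ℝ) ^ 2 := by
    rw [abs_div, abs_of_pos (show (0 : ℝ) < p * (p - 1) by nlinarith),
      div_le_div_iff₀ (by nlinarith) (by positivity)]
    have h7 : (p : ℝ) ^ 2 ≤ 2 * (p * (p - 1)) := by nlinarith
    calc |V| * (p : ℝ) ^ 2 ≤ 2 * K * (2 * (p * (p - 1))) :=
          mul_le_mul h3 h7 (by positivity) (by positivity)
      _ = _ := by ring
  refine (add_le_add h2 h6).trans ?_
  rw [← add_div]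
  exact div_le_div_of_nonneg_right (le_cK K) (by positivity)

theorem cond_approxK {G p : ℕ} (hpG : 2 * G + 16 < p) {g : κ → ℤ} (hg : Function.Injective g)
    (hG : ∀ j, |g j| ≤ G) {j0 : κ} (hj0 : g j0 = 0) {A A' : Finset κ} (hA : j0 ∉ A)
    (hA' : j0 ∉ A') : |loc p g A 0 * loc p g A' 0 - ind p A A'| ≤ 2 / p := by
  have hp : (16 : ℝ) < p := by exact_mod_cast (show 16 < p by omega)
  have h0 : 0 ≤ ((p : ℝ) - 1)⁻¹ := inv_nonneg.2 (by linarith)
  have h1 : ((p : ℝ) - 1)⁻¹ ≤ 1 := inv_le_one_of_one_le₀ (by linarith)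
  have h2 : ((p : ℝ) - 1)⁻¹ ≤ 2 / p := by
    rw [inv_eq_one_div, div_le_div_iff₀ (by linarith) (by linarith)]; linarith
  have hl : ∀ B : Finset κ, j0 ∉ B → loc p g B 0 = ((p : ℝ) - 1)⁻¹ ^ B.card := by
    intro B hB
    rw [loc, ← prod_const]
    refine prod_congr rfl fun j hj => if_neg fun h => ?_
    have hne : g j ≠ 0 := fun h' => hB (hg (h'.trans hj0.symm) ▸ hj)
    have := Int.le_of_dvd (abs_pos.2 hne) ((dvd_abs _ _).2 (by simpa using h))
    have := hG j
    omega
  have hb : ∀ n, n ≠ 0 → ((p : ℝ) - 1)⁻¹ ^ n ≤ 2 / p := fun n hn =>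
    (pow_le_of_le_one h0 h1 hn).trans h2
  rw [hl A hA, hl A' hA', ← pow_add, ind]
  by_cases he : A.card + A'.card = 0
  · have h3 : A = ∅ := card_eq_zero.1 (by omega)
    have h4 : A' = ∅ := card_eq_zero.1 (by omega)
    subst h3 h4; simp; positivity
  · have h3 := hb _ he
    have h4 := pow_nonneg h0 (A.card + A'.card)
    split_ifs with h
    · subst h
      have h5 := hb A.card (by omega)
      have h6 := pow_nonneg h0 A.card
      rw [abs_le]; constructor <;> linarith
    · rwa [sub_zero, abs_of_nonneg h4]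

theorem typeI_errorK (q : ι → ℕ) (hq : ∀ i, 2 ≤ q i) (hinj : Function.Injective q) {K : ℕ}
    (hκ : Fintype.card κ ≤ K) {σ : ℝ} (hσ : 1 < σ) :
    ∏ i, ∑ A : Finset κ, ∑ A' : Finset κ, (if A = ∅ ∧ A' = ∅ then 1 else 3) *
        Real.exp (-(σ * ((A.card : ℝ) + A'.card) * Real.log (q i))) ≤
      Real.exp (3 * 4 ^ K * ∑' n : ℕ, (n : ℝ) ^ (-σ)) := by
  have hs : Summable fun n : ℕ => (n : ℝ) ^ (-σ) := Real.summable_nat_rpow.2 (by linarith)
  calc _ ≤ ∏ i, Real.exp (3 * 4 ^ K * (q i : ℝ) ^ (-σ)) := by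
        refine prod_le_prod (fun i _ => sum_nonneg fun A _ => sum_nonneg fun A' _ => by
          split_ifs <;> positivity) fun i _ => ?_
        have h2 : (2 : ℝ) ≤ q i := by exact_mod_cast hq i
        have hl : 0 ≤ Real.log (q i) := Real.log_nonneg (by linarith)
        refine le_trans ?_ (Real.add_one_le_exp _)
        calc _ ≤ ∑ A : Finset κ, ∑ A' : Finset κ,
              ((if ∅ = A' then (if ∅ = A then 1 else 0) else 0) + 3 * (q i : ℝ) ^ (-σ)) := by
              refine sum_le_sum fun A _ => sum_le_sum fun A' _ => ?_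
              by_cases h : A = ∅ ∧ A' = ∅
              · obtain ⟨rfl, rfl⟩ := h
                simp; positivity
              · rw [if_neg h, Real.rpow_def_of_pos (by linarith)]
                refine le_add_of_nonneg_of_le (by split_ifs <;> norm_num) ?_
                have h1 : 1 ≤ A.card + A'.card := by
                  by_contra h'
                  exact h ⟨card_eq_zero.1 (by omega), card_eq_zero.1 (by omega)⟩
                have h3 : (1 : ℝ) ≤ A.card + A'.card := by exact_mod_cast h1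
                gcongr
                nlinarith [mul_nonneg (mul_nonneg (show 0 ≤ σ by linarith) (sub_nonneg.2 h3)) hl]
          _ ≤ _ := by
              simp only [sum_add_distrib, sum_ite_eq, mem_univ, if_true, sum_const, card_univ,
                Fintype.card_finset, nsmul_eq_mul]
              have h4 : ((2 ^ Fintype.card κ : ℕ) : ℝ) ≤ 2 ^ K := by
                exact_mod_cast (Nat.pow_le_pow_right two_pos hκ)
              have h5 : 0 ≤ (q i : ℝ) ^ (-σ) := by positivity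
              have h6 : (0 : ℝ) ≤ ((2 ^ Fintype.card κ : ℕ) : ℝ) := by positivity
              have h7 : (4 : ℝ) ^ K = 2 ^ K * 2 ^ K := by rw [← mul_pow]; norm_num
              have h8 := mul_le_mul_of_nonneg_right (mul_le_mul h4 h4 h6 (by positivity)) h5
              rw [h7]
              linarith
    _ ≤ _ := by
        rw [← Real.exp_sum, ← mul_sum]
        gcongr
        rw [← sum_image (s := univ) (g := q) (f := fun n : ℕ => (n : ℝ) ^ (-σ)) hinj.injOn]
        exact hs.sum_le_tsum _ fun _ _ => by positivity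

theorem typeIK (q : ι → ℕ) (hq : ∀ i, (q i).Prime) (hinj : Function.Injective q) {K G D : ℕ}
    (hD : 2 * G + 16 ≤ D) (hDq : ∀ i, D < q i) {W : ℕ} (hW : W ≠ 0)
    (hWq : ∀ i, Nat.Coprime W (q i)) (hκ : Fintype.card κ ≤ K) {g : κ → ℤ}
    (hg : Function.Injective g) (hG : ∀ j, |g j| ≤ G) {j0 : κ} (E0 : Finset ι)
    (hj0 : E0.Nonempty → g j0 = 0) (a : ℕ) {N1 N2 : ℕ} (hN : N1 ≤ N2)
    (y y' : (κ → Finset ι) → ℝ) (hy : ∀ T, |y T| ≤ 1) (hy' : ∀ T, |y' T| ≤ 1)
    (hd : ∀ T, y T ≠ 0 → ∀ i ∈ E0, i ∉ T j0) (hd' : ∀ T, y' T ≠ 0 → ∀ i ∈ E0, i ∉ T j0)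
    {s σ Λ : ℝ} (hs : 0 ≤ s) (hσ : 1 < σ)
    (hsupp : ∀ T U, y T ≠ 0 → y' U ≠ 0 → lgs q T + lgs q U ≤ Λ) :
    |∑ m ∈ Ioc N1 N2 with m ≡ a [MOD W] ∧ ∀ i ∈ E0, q i ∣ m, SS q g y m * SS q g y' m -
      ((N2 : ℝ) - N1) / (W * ∏ i ∈ E0, (q i : ℝ)) * ∑ T, y T * y' T * wts q T| ≤
      ((N2 : ℝ) - N1) / (W * ∏ i ∈ E0, (q i : ℝ)) * (Real.exp (s * Λ) *
        (Zf q (2 * s) ^ Fintype.card κ *
          (Real.exp (4 ^ K * ((cK K + 2 * E0.card) / D)) - 1))) +
      4 * Real.exp (σ * Λ) * Real.exp (3 * 4 ^ K * ∑' n : ℕ, (n : ℝ) ^ (-σ)) := by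
  have h2 : ∀ i, 2 ≤ q i := fun i => (hq i).two_le
  have hD' : (0 : ℝ) < D := by have : 0 < D := by omega
                               positivity
  have hc := cK_pos K
  set X : ℝ := ((N2 : ℝ) - N1) / (W * ∏ i ∈ E0, (q i : ℝ)) with hX
  have hX0 : 0 ≤ X := div_nonneg (sub_nonneg.2 (by exact_mod_cast hN)) (by positivity)
  set E : ι → Finset κ → Finset κ → ℝ := fun i A A' => if i ∈ E0 then
    (if j0 ∈ A ∨ j0 ∈ A' then ind (q i) A A' else loc (q i) g A 0 * loc (q i) g A' 0) else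
    (q i : ℝ)⁻¹ * ∑ r ∈ range (q i), loc (q i) g A r * loc (q i) g A' r with hE
  have hp := perturb q h2 E (fun i => cK K / (q i : ℝ) ^ 2 + if i ∈ E0 then 2 / (D : ℝ) else 0)
    (fun i A A' => by
      have h16 : 2 * G + 16 < q i := lt_of_le_of_lt hD (hDq i)
      simp only [hE]
      split_ifs with h1 h3
      · simp; positivity
      · push Not at h3
        refine (cond_approxK h16 hg hG (hj0 ⟨i, h1⟩) h3.1 h3.2).trans (le_add_of_nonneg_of_le
          (by positivity) ?_)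
        gcongr; exact (hDq i).le
      · simpa using avgK h16 hκ hg hG A A') hs y y' hy hy' hsupp
  have he : (4 : ℝ) ^ Fintype.card κ *
      ∑ i, (cK K / (q i : ℝ) ^ 2 + if i ∈ E0 then 2 / (D : ℝ) else 0) ≤
      4 ^ K * ((cK K + 2 * (E0.card : ℝ)) / D) := by
    have h3 := sum_inv_sq_le q hinj (show 0 < D by omega) hDq
    refine mul_le_mul (pow_le_pow_right₀ (by norm_num) hκ) ?_
      (sum_nonneg fun i _ => by split_ifs <;> positivity) (by positivity)
    rw [sum_add_distrib, sum_ite_mem, univ_inter, sum_const, nsmul_eq_mul, add_div]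
    refine add_le_add ?_ (le_of_eq (by ring))
    calc ∑ i, cK K / (q i : ℝ) ^ 2 = cK K * ∑ i, 1 / (q i : ℝ) ^ 2 := by
          rw [mul_sum]; exact sum_congr rfl fun i _ => by ring
      _ ≤ cK K * (1 / (D : ℝ)) := by gcongr
      _ = _ := by ring
  have h1 : |∑ m ∈ Ioc N1 N2 with m ≡ a [MOD W] ∧ ∀ i ∈ E0, q i ∣ m, SS q g y m * SS q g y' m -
      X * ∑ T : κ → Finset ι, ∑ U : κ → Finset ι, y T * y' U * ∏ i, E i (tr T i) (tr U i)| ≤
      4 * Real.exp (σ * Λ) * Real.exp (3 * 4 ^ K * ∑' n : ℕ, (n : ℝ) ^ (-σ)) := by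
    refine le_trans ?_ (mul_le_mul_of_nonneg_left (typeI_errorK q h2 hinj hκ hσ) (by positivity))
    rw [← transpose (fun i A A' => (if A = ∅ ∧ A' = ∅ then 1 else 3) *
        Real.exp (-(σ * ((A.card : ℝ) + A'.card) * Real.log (q i))))]
    simp only [SS_mul, mul_sum]
    rw [sum_comm, ← sum_sub_distrib]
    refine (abs_sum_le_sum_abs _ _).trans (sum_le_sum fun T _ => ?_)
    rw [sum_comm, ← sum_sub_distrib]
    refine (abs_sum_le_sum_abs _ _).trans (sum_le_sum fun U _ => ?_)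
    by_cases h0 : y T ≠ 0 ∧ y' U ≠ 0
    · have h3 := typeI_term q hq hinj hW hWq g E0 a hN (tr T) (tr U)
      have h4 := rankin q (show 0 ≤ σ by linarith) T U (hsupp T U h0.1 h0.2)
      have h5 : |y T * y' U| ≤ 1 := by
        rw [abs_mul]; exact mul_le_one₀ (hy T) (abs_nonneg _) (hy' U)
      have h6 : ∏ i, E i (tr T i) (tr U i) = ∏ i, (if i ∈ E0 then
          loc (q i) g (tr T i) 0 * loc (q i) g (tr U i) 0 else (q i : ℝ)⁻¹ *
            ∑ r ∈ range (q i), loc (q i) g (tr T i) r * loc (q i) g (tr U i) r) := by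
        refine prod_congr rfl fun i _ => ?_
        simp only [hE]
        split_ifs with h7 h8
        · simp only [mem_tr] at h8
          exact absurd h8 (not_or.2 ⟨hd T h0.1 i h7, hd' U h0.2 i h7⟩)
        · rfl
        · rfl
      rw [← mul_sum, mul_left_comm X, ← mul_sub, abs_mul, h6, prod_mul_distrib]
      refine (mul_le_of_le_one_left (abs_nonneg _) h5).trans (h3.trans ?_)
      refine (le_mul_of_one_le_right ((abs_nonneg _).trans h3) h4).trans (le_of_eq (by ring))
    · have : y T * y' U = 0 := by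
        by_contra h; exact h0 (mul_ne_zero_iff.1 h)
      simp only [this, zero_mul, sum_const_zero, mul_zero, sub_zero, abs_zero]
      exact mul_nonneg (by positivity) (prod_nonneg fun i _ => by split_ifs <;> positivity)
  refine (abs_sub_le _ (X * ∑ T : κ → Finset ι, ∑ U : κ → Finset ι,
    y T * y' U * ∏ i, E i (tr T i) (tr U i)) _).trans ?_
  rw [add_comm, ← mul_sub, abs_mul, abs_of_nonneg hX0]
  refine add_le_add (mul_le_mul_of_nonneg_left (hp.trans ?_) hX0) h1
  have := one_le_Zf q h2 (2 * s)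
  gcongr

end

end Pool.Agent.Lib.MP_fc51f7_nt.MT
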