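import Pool.Agent.Lib.MP_fc51f7_nt.MT.BVF

/-! Asymptotic Type I estimates and the bilinear estimate with its main term. -/

set_option autoImplicit false
set_option linter.unusedSectionVars false

namespace Pool.Agent.Lib.MP_fc51f7_nt.MT

open Finset Filter Topology

section
variable {κ : Type} [Fintype κ] [DecidableEq κ]

theorem og_okK {G : ℕ} {g : κ → ℤ} (hg : Function.Injective g)
    (hG : ∀ j, g j ≠ 0 ∧ |g j| ≤ G) : Function.Injective (og g) ∧ ∀ j, |og g j| ≤ G := by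
  refine ⟨?_, ?_⟩
  · rintro (_ | i) (_ | j) h
    · rfl
    · exact absurd h.symm (hG j).1
    · exact absurd h (hG i).1
    · exact congrArg some (hg h)
  · rintro (_ | j)
    · simp [og]
    · exact (hG j).2

/-- The relative error of the Type I estimate is at most `eK`. -/
theorem relK {K D x k : ℕ} (hZ : Zf (qq D x) (2 * (Real.log x)⁻¹) ≤ BB D x)
    (hL : 0 < Real.log x) {t e : ℝ} (ht : t ≤ 1) (he0 : 0 ≤ e) (he : e ≤ 1) :
    Real.exp ((Real.log x)⁻¹ * (t * Real.log x)) * (Zf (qq D x) (2 * (Real.log x)⁻¹) ^ k *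
      (Real.exp (4 ^ K * ((cK K + 2 * e) / D)) - 1)) ≤ eK K D * BB D x ^ k := by
  have h0 := cK_pos K
  have h1 : Real.exp ((Real.log x)⁻¹ * (t * Real.log x)) ≤ 3 :=
    exp_le_three (by field_simp; exact ht)
  have h2 := one_le_Zf (qq D x) (qq_two D x) (2 * (Real.log x)⁻¹)
  have h4 : Real.exp (4 ^ K * ((cK K + 2 * e) / D)) ≤ Real.exp (4 ^ K * ((cK K + 2) / D)) := by
    gcongr; linarith
  have h5 : 1 ≤ Real.exp (4 ^ K * ((cK K + 2 * e) / D)) := Real.one_le_exp (by positivity)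
  calc _ ≤ 3 * (BB D x ^ k * (Real.exp (4 ^ K * ((cK K + 2) / D)) - 1)) := by
        have := Meas.BB_nonneg D x
        gcongr
    _ = _ := by unfold eK; ring

theorem absK {x : ℕ} (hx : 0 < x) (hL : 0 < Real.log x) {t C : ℝ} (ht : t ≤ 90 / 100)
    (hC : 4 * C ≤ (x : ℝ) ^ (1 / 10000 : ℝ)) :
    4 * Real.exp (2001 / 2000 * (t * Real.log x)) * C ≤ (x : ℝ) ^ (901 / 1000 : ℝ) := by
  rw [mul_right_comm]
  refine (mul_le_mul_of_nonneg_right hC (Real.exp_pos _).le).trans ?_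
  rw [rpow_eq_exp hx, rpow_eq_exp hx, ← Real.exp_add, Real.exp_le_exp]
  nlinarith

/-- Type I estimate with one short factor. -/
theorem TTK {K G D : ℕ} (hD : 2 * G + 16 ≤ D) (hκ : Fintype.card κ < K) {g : κ → ℤ}
    (hg : Function.Injective g) (hG : ∀ j, g j ≠ 0 ∧ |g j| ≤ G) (a : ℕ) :
    ∀ᶠ x : ℕ in atTop, ∀ (E0 : Finset (PP D x)) (N1 N2 : ℕ) (r : Finset (PP D x) → ℝ) (c : ℝ)
      (y y' : (κ → Finset (PP D x)) → ℝ), E0.card ≤ 1 → N1 ≤ N2 → 0 < c → (∀ T, |r T| ≤ c) →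
      (∀ T, r T ≠ 0 → (∀ i ∈ E0, i ∉ T) ∧ lg (qq D x) T ≤ 1 / 20 * Real.log x) →
      (∀ T, |y T| ≤ 1) → (∀ T, |y' T| ≤ 1) →
      (∀ T, y T ≠ 0 → lgs (qq D x) T ≤ 2 / 5 * Real.log x) →
      (∀ T, y' T ≠ 0 → lgs (qq D x) T ≤ 2 / 5 * Real.log x) →
      |∑ m ∈ Ioc N1 N2 with m ≡ a [MOD primorial D] ∧ ∀ i ∈ E0, qq D x i ∣ m,
          S0 (qq D x) r m ^ 2 * (SS (qq D x) g y m * SS (qq D x) g y' m) -
        ((N2 : ℝ) - N1) / (primorial D * ∏ i ∈ E0, (qq D x i : ℝ)) *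
          ((∑ T, r T * r T * wt (qq D x) T) * ∑ T, y T * y' T * wts (qq D x) T)| ≤
        c ^ 2 * (((N2 : ℝ) - N1) / (primorial D * ∏ i ∈ E0, (qq D x i : ℝ)) *
          (eK K D * BB D x ^ (Fintype.card κ + 1)) + (x : ℝ) ^ (901 / 1000 : ℝ)) := by
  filter_upwards [Zf_le D, Meas.L_pos, eventually_gt_atTop 0, const_le_rpow
    (4 * Real.exp (3 * 4 ^ K * ∑' n : ℕ, (n : ℝ) ^ (-(2001 / 2000 : ℝ))))
    (show (0 : ℝ) < 1 / 10000 by norm_num)] with x hZ hL hx hC E0 N1 N2 r c y y' hE hN hc hr hrs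
    hy hy' hs hs'
  have hb : ∀ T, |c⁻¹ * r T| ≤ 1 := fun T => by
    rw [abs_mul, abs_of_pos (inv_pos.2 hc), inv_mul_le_iff₀ hc, mul_one]; exact hr T
  have ht : ∀ y : (κ → Finset (PP D x)) → ℝ, (∀ T, |y T| ≤ 1) →
      ∀ T, |tens (fun T => c⁻¹ * r T) y T| ≤ 1 := fun y hy T => by
    rw [tens, abs_mul]; exact mul_le_one₀ (hb _) (abs_nonneg _) (hy _)
  have hl : ∀ y : (κ → Finset (PP D x)) → ℝ,
      (∀ T, y T ≠ 0 → lgs (qq D x) T ≤ 2 / 5 * Real.log x) →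
      ∀ T, tens (fun T => c⁻¹ * r T) y T ≠ 0 → (∀ i ∈ E0, i ∉ T none) ∧
        lgs (qq D x) T ≤ 45 / 100 * Real.log x := fun y hy T h => by
    have h1 := hrs _ (right_ne_zero_of_mul (left_ne_zero_of_mul h))
    have h2 := hy _ (right_ne_zero_of_mul h)
    exact ⟨h1.1, by rw [lgs_option]; linarith [h1.2]⟩
  have key := typeIK (qq D x) (gr_prime D x) (qq_inj D x) (K := K) hD (gr_gt D x)
    (primorial_ne_zero D) (qq_cop D x) (κ := Option κ) (by rw [Fintype.card_option]; omega)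
    (og_okK hg hG).1 (og_okK hg hG).2
    (j0 := none) E0 (fun _ => rfl) a hN _ _ (ht y hy) (ht y' hy') (fun T h => (hl y hs T h).1)
    (fun T h => (hl y' hs' T h).1)
    (s := (Real.log x)⁻¹) (σ := 2001 / 2000) (Λ := 90 / 100 * Real.log x) (by positivity)
    (by norm_num) fun T U h h' => by linarith [(hl y hs T h).2, (hl y' hs' U h').2]
  simp only [SS_tens, sum_tens, Fintype.card_option] at key
  rw [← inv_mul_le_iff₀ (by positivity), ← abs_of_pos (show 0 < (c ^ 2)⁻¹ by positivity),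
    ← abs_mul]
  refine le_trans (le_of_eq ?_) (key.trans (add_le_add ?_ (absK hx hL le_rfl hC)))
  · congr 1
    rw [mul_sub, mul_sum]
    congr 1
    · refine sum_congr rfl fun m _ => ?_
      simp only [S0, mul_assoc c⁻¹, ← mul_sum, ← inv_pow]; ring
    · rw [show ∑ T, c⁻¹ * r T * (c⁻¹ * r T) * wt (qq D x) T =
        (c ^ 2)⁻¹ * ∑ T, r T * r T * wt (qq D x) T by
          rw [mul_sum]; exact sum_congr rfl fun T _ => by rw [← inv_pow]; ring]
      ring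
  · exact mul_le_mul_of_nonneg_left (relK hZ hL (by norm_num) (Nat.cast_nonneg _)
      (by exact_mod_cast hE)) (div_nonneg (sub_nonneg.2 (by exact_mod_cast hN)) (by positivity))

/-- Plain Type I upper bound. -/
theorem TIK {K G D : ℕ} (hD : 2 * G + 16 ≤ D) (hκ : Fintype.card κ ≤ K) (j0 : κ) {g : κ → ℤ}
    (hg : Function.Injective g) (hG : ∀ j, |g j| ≤ G) (a : ℕ) :
    ∀ᶠ x : ℕ in atTop, ∀ (N1 N2 : ℕ) (c : ℝ) (y : (κ → Finset (PP D x)) → ℝ), N1 ≤ N2 → 0 < c →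
      (∀ T, |y T| ≤ c) → (∀ T, y T ≠ 0 → lgs (qq D x) T ≤ 2 / 5 * Real.log x) →
      ∑ m ∈ Ioc N1 N2 with m ≡ a [MOD primorial D], SS (qq D x) g y m ^ 2 ≤
        ((N2 : ℝ) - N1) / primorial D * (∑ T, y T * y T * wts (qq D x) T +
          c ^ 2 * (eK K D * BB D x ^ Fintype.card κ)) + c ^ 2 * (x : ℝ) ^ (901 / 1000 : ℝ) := by
  filter_upwards [Zf_le D, Meas.L_pos, eventually_gt_atTop 0, const_le_rpow
    (4 * Real.exp (3 * 4 ^ K * ∑' n : ℕ, (n : ℝ) ^ (-(2001 / 2000 : ℝ))))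
    (show (0 : ℝ) < 1 / 10000 by norm_num)] with x hZ hL hx hC N1 N2 c y hN hc hy hs
  have hb : ∀ T, |c⁻¹ * y T| ≤ 1 := fun T => by
    rw [abs_mul, abs_of_pos (inv_pos.2 hc), inv_mul_le_iff₀ hc, mul_one]; exact hy T
  have key := typeIK (qq D x) (gr_prime D x) (qq_inj D x) hD (gr_gt D x)
    (primorial_ne_zero D) (qq_cop D x) hκ hg hG (j0 := j0) ∅ (fun h => absurd h (by simp)) a hN
    (fun T => c⁻¹ * y T) (fun T => c⁻¹ * y T) hb hb (by simp) (by simp)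
    (s := (Real.log x)⁻¹) (σ := 2001 / 2000) (Λ := 4 / 5 * Real.log x) (by positivity)
    (by norm_num) fun T U h h' => by
      linarith [hs T (right_ne_zero_of_mul h), hs U (right_ne_zero_of_mul h')]
  have hN' : 0 ≤ ((N2 : ℝ) - N1) / primorial D :=
    div_nonneg (sub_nonneg.2 (by exact_mod_cast hN)) (by positivity)
  have k2 := (le_abs_self _).trans (key.trans (add_le_add (mul_le_mul_of_nonneg_left
    (relK hZ hL (by norm_num) (Nat.cast_nonneg _) (by simp)) (by simpa using hN'))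
    (absK hx hL (by norm_num) hC)))
  have e1 : ∀ m : ℤ, SS (qq D x) g (fun T => c⁻¹ * y T) m = c⁻¹ * SS (qq D x) g y m := fun m => by
    simp only [SS, mul_sum, mul_assoc]
  have e2 : ∑ T, c⁻¹ * y T * (c⁻¹ * y T) * wts (qq D x) T =
      (c ^ 2)⁻¹ * ∑ T, y T * y T * wts (qq D x) T := by
    rw [mul_sum]; exact sum_congr rfl fun T _ => by rw [← inv_pow]; ring
  have e3 : ∑ m ∈ Ioc N1 N2 with m ≡ a [MOD primorial D],
      c⁻¹ * SS (qq D x) g y m * (c⁻¹ * SS (qq D x) g y m) =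
      (c ^ 2)⁻¹ * ∑ m ∈ Ioc N1 N2 with m ≡ a [MOD primorial D], SS (qq D x) g y m ^ 2 := by
    rw [mul_sum]; exact sum_congr rfl fun m _ => by rw [← inv_pow]; ring
  simp only [e1, e2, notMem_empty, false_imp_iff, implies_true, and_true, prod_empty,
    mul_one] at k2
  rw [e3] at k2
  have hc2 : 0 < c ^ 2 := by positivity
  have k3 := mul_le_mul_of_nonneg_left k2 hc2.le
  rw [mul_sub, mul_inv_cancel_left₀ hc2.ne', mul_left_comm, mul_inv_cancel_left₀ hc2.ne'] at k3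
  linarith

theorem crudeK (D G : ℕ) {g : κ → ℤ} (hG : ∀ j, |g j| ≤ G) {b : ℝ} (hb : 0 < b) :
    ∀ᶠ x : ℕ in atTop, ∀ m ∈ Ioc x (2 * x), ∀ y : (κ → Finset (PP D x)) → ℝ,
      (∀ T, |y T| ≤ 1) → (∀ T, y T ≠ 0 → lgs (qq D x) T ≤ 1 / 2 * Real.log x) →
      |SS (qq D x) g y m| ≤ (x : ℝ) ^ b := by
  obtain ⟨b, rfl⟩ : ∃ b' : ℝ, b = (3 * Fintype.card κ + 4) * b' :=
    ⟨b / (3 * Fintype.card κ + 4), by field_simp⟩
  replace hb : 0 < b := (mul_pos_iff_of_pos_left (by positivity)).1 hb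
  obtain ⟨C, hC, h⟩ := pow_card_le 2 b one_le_two hb
  filter_upwards [Zf_le D, Meas.L_pos, eventually_gt_atTop G, eventually_gt_atTop 0,
    const_le_rpow (C * 3 ^ b / b) hb,
    const_le_rpow 3 (show 0 < 4 * b by positivity)] with x hZ hl hx hx0 h1 h2 m hm y hy hs
  have hx' : (0 : ℝ) < x := by positivity
  refine (abs_SS_le (qq D x) (qq_two D x) g y hy (s := 2 * (Real.log x)⁻¹) (by positivity)
    hs m).trans ?_
  have h3 : Real.exp (2 * (Real.log x)⁻¹ * (1 / 2 * Real.log x)) ≤ 3 :=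
    exp_le_three (by field_simp; norm_num)
  have h4 := one_le_Zf (qq D x) (qq_two D x) (2 * (Real.log x)⁻¹)
  have h5 : Zf (qq D x) (2 * (Real.log x)⁻¹) ≤ (x : ℝ) ^ b / b :=
    hZ.trans ((BB_le D x).trans (Real.log_le_rpow_div hx'.le hb))
  refine (mul_le_mul (h3.trans h2) (prod_le_prod (g := fun _ => (x : ℝ) ^ (3 * b))
    (fun _ _ => by positivity) fun j _ => ?_) (by positivity) (by positivity)).trans ?_
  · obtain ⟨a1, a2⟩ := mem_Ioc.1 hm
    obtain ⟨a3, a4⟩ := abs_le.1 (hG j)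
    obtain ⟨n, hn⟩ := Int.eq_ofNat_of_zero_le (show 0 ≤ (m : ℤ) + g j by omega)
    have hn0 : n ≠ 0 := by omega
    have a5 : ((∏ p ∈ n.primeFactors, p : ℕ) : ℝ) ≤ 3 * x := by
      have := Nat.le_of_dvd (Nat.pos_of_ne_zero hn0) (Nat.prod_primeFactors_dvd n)
      exact_mod_cast (by omega : ∏ p ∈ n.primeFactors, p ≤ 3 * x)
    have a6 := h n.primeFactors fun p hp => (Nat.prime_of_mem_primeFactors hp).two_le
    rw [← Nat.cast_prod] at a6
    have a7 := card_dvd_le (qq D x) (gr_prime D x) (qq_inj D x) hn0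
    rw [hn]
    calc _ ≤ C * (3 * x : ℝ) ^ b * ((x : ℝ) ^ b / b) := by
          gcongr
          exact (pow_le_pow_right₀ one_le_two a7).trans (a6.trans (by gcongr))
      _ = C * 3 ^ b / b * ((x : ℝ) ^ b * (x : ℝ) ^ b) := by
          rw [Real.mul_rpow (by norm_num) hx'.le]; ring
      _ ≤ (x : ℝ) ^ b * ((x : ℝ) ^ b * (x : ℝ) ^ b) := by gcongr
      _ = _ := by rw [← Real.rpow_add hx', ← Real.rpow_add hx']; ring_nf
  · rw [prod_const, ← Real.rpow_mul_natCast hx'.le, ← Real.rpow_add hx', card_univ]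
    exact le_of_eq (by congr 1; ring)

theorem TbarK {K G D : ℕ} (hD : 2 * G + 16 ≤ D) (hκ : Fintype.card κ ≤ K) {g : κ → ℤ}
    (hg : Function.Injective g) (hG : ∀ j, g j ≠ 0 ∧ |g j| ≤ G) :
    ∀ᶠ x : ℕ in atTop, ∀ y y' : (κ → Finset (PP D x)) → ℝ,
    (∀ T, |y T| ≤ 1) → (∀ T, |y' T| ≤ 1) →
    (∀ T U, y T ≠ 0 → y' U ≠ 0 → lgs (qq D x) T + lgs (qq D x) U ≤ Real.log x) →
    |Tbar (qq D x) g y y' - ∑ T, y T * y' T * wts (qq D x) T| ≤
      eK K D * BB D x ^ Fintype.card κ := by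
  filter_upwards [Zf_le D, Meas.L_pos] with x hZ hl y y' hy hy' hs
  refine (perturb (qq D x) (qq_two D x) (fun i => ubar (qq D x i) g)
    (fun i => cK K / (qq D x i : ℝ) ^ 2) (fun i => ubarK
      (hD.trans_lt (gr_gt D x i)) hκ hg hG) (s := (Real.log x)⁻¹) (by positivity)
    y y' hy hy' hs).trans ?_
  have h0 := cK_pos K
  have h1 : Real.exp ((Real.log x)⁻¹ * Real.log x) ≤ 3 := exp_le_three (by field_simp; rfl)
  have h2 := one_le_Zf (qq D x) (qq_two D x) (2 * (Real.log x)⁻¹)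
  have h3 := sum_inv_sq_le (qq D x) (qq_inj D x) (show 0 < D by omega) (gr_gt D x)
  have h4 : ∑ i, cK K / (qq D x i : ℝ) ^ 2 ≤ (cK K + 2) / D := by
    simp only [div_eq_mul_one_div (cK K), div_eq_mul_one_div (cK K + 2), ← mul_sum]
    gcongr; linarith
  have h5 : 0 ≤ ∑ i, cK K / (qq D x i : ℝ) ^ 2 := by positivity
  have h6 : 1 ≤ Real.exp (4 ^ Fintype.card κ * ∑ i, cK K / (qq D x i : ℝ) ^ 2) :=
    Real.one_le_exp (by positivity)
  calc _ ≤ 3 * (BB D x ^ Fintype.card κ * (Real.exp (4 ^ K * ((cK K + 2) / D)) - 1)) := by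
        have := Meas.BB_nonneg D x
        gcongr
        norm_num
    _ = _ := by unfold eK; ring

open Classical in
/-- The bilinear estimate with its main term evaluated. -/
theorem bvMain {K G D : ℕ} (hD : 2 * G + 16 ≤ D) (hκ : Fintype.card κ ≤ K) {η δ ε : ℝ}
    (hη : 0 < η) (hδ : 0 < δ) (hε : 0 < ε) {g : κ → ℤ} (hg : Function.Injective g)
    (hG : ∀ j, g j ≠ 0 ∧ |g j| ≤ G) (a : ℕ) :
    ∀ᶠ x : ℕ in atTop, ∀ (y y' : (κ → Finset (PP D x)) → ℝ) (w : ℕ → ℝ) (lo hi : ℕ → ℕ),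
      (∀ T, |y T| ≤ 1) → (∀ T, |y' T| ≤ 1) →
      (∀ T U, y T ≠ 0 → y' U ≠ 0 →
        lgs (qq D x) T + lgs (qq D x) U ≤ (1 / 2 - η) * Real.log x) →
      (∀ m ∈ Icc 1 x, rough η x m → |w m| ≤ 1) →
      (∀ j, (x : ℝ) ^ η ≤ lo j + 1 ∧ (hi j : ℝ) ≤ 2 * x * Real.exp (-(j * δ))) →
      |∑ m ∈ Icc 1 x with rough η x m, ∑ p ∈ Ioc (lo (box δ m)) (hi (box δ m)) with
          p.Prime ∧ p * m ≡ a [MOD primorial D], Real.log p * w m *
            (SS (qq D x) g y (p * m : ℕ) * SS (qq D x) g y' (p * m : ℕ)) -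
        (∑ T, y T * y' T * wts (qq D x) T) *
        ∑ m ∈ Icc 1 x with rough η x m, ∑ p ∈ Ioc (lo (box δ m)) (hi (box δ m)) with
          p.Prime ∧ p * m ≡ a [MOD primorial D], Real.log p * w m| ≤
      ε * x * Real.log x ^ Fintype.card κ + eK K D * BB D x ^ Fintype.card κ *
        |∑ m ∈ Icc 1 x with rough η x m, ∑ p ∈ Ioc (lo (box δ m)) (hi (box δ m)) with
          p.Prime ∧ p * m ≡ a [MOD primorial D], Real.log p * w m| := by
  filter_upwards [bvK D hD (half_pos hη) hδ hε g hg hG a, TbarK hD hκ hg hG, Meas.L_pos,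
    eventually_gt_atTop 1, const_le_rpow 2 (half_pos hη),
    const_le_rpow (2 * Real.exp δ) (half_pos hη)] with x h1 h2 hl hx h3 h4 y y' w lo hi hy hy' hs
    hw hb
  have hx' : (1 : ℝ) < x := by exact_mod_cast hx
  have hx0 : (0 : ℝ) < x := by linarith
  have e2 : (x : ℝ) ^ η = (x : ℝ) ^ (η / 2) * (x : ℝ) ^ (η / 2) := by
    rw [← Real.rpow_add hx0]; ring_nf
  have e3 : (x : ℝ) ^ (η / 2) ≤ (x : ℝ) ^ η := Real.rpow_le_rpow_of_exponent_le hx'.le (by linarith)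
  set P : ℕ → Finset ℕ := fun m => (Ioc (lo (box δ m)) (hi (box δ m))).filter
    fun p => p.Prime ∧ p * m ≡ a [MOD primorial D] with hP
  have b1 := h1 y y'
    (fun m => if m ∈ Icc 1 x ∧ rough η x m ∧ (m : ℝ) ≤ (x : ℝ) ^ (1 - η / 2) then w m else 0) lo hi
    hy hy' (fun T U a1 a2 => by
      have := hs _ _ a1 a2
      nlinarith)
    (fun m => by
      split_ifs with h
      · exact hw m h.1 h.2.1
      · simp)
    (fun m hm => by
      have h := not_not.1 fun h => hm (if_neg h)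
      exact ⟨e3.trans h.2.1.1, h.2.2, fun p hp => e3.trans_lt (h.2.1.2 p hp)⟩)
    fun j => ⟨by nlinarith [(hb j).1], (hb j).2⟩
  have b2 := h2 y y'
    hy hy' fun T U a1 a2 => by
      have := hs _ _ a1 a2
      nlinarith
  set Tb := Tbar (qq D x) g y y'
  set A := ∑ m ∈ Icc 1 x with rough η x m, ∑ p ∈ P m, Real.log p * w m with hA
  have e1 : ∑ m ∈ Icc 1 x, (if m ∈ Icc 1 x ∧ rough η x m ∧ (m : ℝ) ≤ (x : ℝ) ^ (1 - η / 2)
      then w m else 0) * ∑ p ∈ P m, Real.log p *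
        (SS (qq D x) g y (p * m : ℕ) * SS (qq D x) g y' (p * m : ℕ) - Tb) =
      ∑ m ∈ Icc 1 x with rough η x m, ∑ p ∈ P m, Real.log p * w m *
        (SS (qq D x) g y (p * m : ℕ) * SS (qq D x) g y' (p * m : ℕ)) - Tb * A := by
    rw [hA, mul_sum, ← sum_sub_distrib, sum_filter]
    refine sum_congr rfl fun m hm => ?_
    by_cases hr : rough η x m
    · rw [if_pos hr, mul_sum, mul_sum, ← sum_sub_distrib]
      refine sum_congr rfl fun p hp => ?_
      have hm0 : 0 < m := (mem_Icc.1 hm).1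
      have hm' : (0 : ℝ) < m := by positivity
      obtain ⟨a1, a2⟩ := mem_Ioc.1 (mem_filter.1 hp).1
      have a3 : (x : ℝ) ^ η ≤ p := (hb _).1.trans (by exact_mod_cast a1)
      have a4 : (p : ℝ) ≤ 2 * x * Real.exp (-(box δ m * δ)) := le_trans (by exact_mod_cast a2) (hb _).2
      have a5 := (box_spec hδ hm0).2
      have a6 : Real.exp (-(box δ m * δ)) = Real.exp δ * Real.exp (-((box δ m + 1) * δ)) := by
        rw [← Real.exp_add]; ring_nf
      have a7 : (x : ℝ) ^ η * m ≤ (x : ℝ) ^ (η / 2) * x := by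
        have : (p : ℝ) ≤ 2 * x * (Real.exp δ * (m : ℝ)⁻¹) := by
          rw [a6] at a4; exact a4.trans (by gcongr)
        have a8 : (p : ℝ) * m ≤ 2 * Real.exp δ * x := by
          rw [← mul_assoc, le_mul_inv_iff₀ hm'] at this; linarith
        exact (mul_le_mul_of_nonneg_right a3 hm'.le).trans (a8.trans (by gcongr))
      have a9 : (m : ℝ) ≤ (x : ℝ) ^ (1 - η / 2) := by
        rw [Real.rpow_sub hx0, Real.rpow_one, le_div_iff₀ (by positivity)]
        rw [e2, mul_assoc] at a7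
        have := le_of_mul_le_mul_left a7 (by positivity)
        linarith
      rw [if_pos ⟨hm, hr, a9⟩]; ring
    · rw [if_neg hr, if_neg fun h => hr h.2.1, zero_mul]
  rw [e1] at b1
  have b3 := mul_le_mul_of_nonneg_right b2 (abs_nonneg A)
  rw [← abs_mul] at b3
  refine le_trans ?_ (add_le_add b1 b3)
  refine le_trans (le_of_eq ?_) (abs_add_le _ _)
  congr 1; ring

end

end Pool.Agent.Lib.MP_fc51f7_nt.MT
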