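import Pool.Agent.Lib.MP_fc51f7_nt.MT.PrA

/-! Sums against the majorant of the rough integers, any number of forms. -/

set_option autoImplicit false
set_option linter.unusedSectionVars false

namespace Pool.Agent.Lib.MP_fc51f7_nt.MT

open Finset Filter Topology Pr

section
variable {κ : Type} [Fintype κ] [DecidableEq κ]

theorem nuMainK {K G D : ℕ} (hD : 2 * G + 16 ≤ D) (hκ : Fintype.card κ < K) {g : κ → ℤ}
    (hg : Function.Injective g) (hG : ∀ j, g j ≠ 0 ∧ |g j| ≤ G) (a : ℕ) {η : ℝ}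
    (hη : 0 < η) (hη' : η ≤ 1 / 1000) (he : eK K D ≤ η ^ 3) :
    ∀ᶠ x : ℕ in atTop, ∀ y y' : (κ → Finset (PP D x)) → ℝ,
    (∀ T, |y T| ≤ 1) → (∀ T, |y' T| ≤ 1) →
    (∀ T, y T ≠ 0 → lgs (qq D x) T ≤ 2 / 5 * Real.log x) →
    (∀ T, y' T ≠ 0 → lgs (qq D x) T ≤ 2 / 5 * Real.log x) →
    |∑ m ∈ Ioc x (2 * x) with m ≡ a [MOD primorial D],
        Pr.nu D x η m * (SS (qq D x) g y m * SS (qq D x) g y' m) - x / primorial D *
        ((∑ T, Pr.rr D x η T * Pr.rr D x η T * wt (qq D x) T) / Pr.Sc D x η ^ 2) *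
          ∑ T, y T * y' T * wts (qq D x) T| ≤
      17 * η * (x / primorial D * (BB D x ^ Fintype.card κ / BB D x)) := by
  filter_upwards [TTK hD hκ hg hG a, Sc_ge D hη hη', Meas.L_pos, Meas.BB_pos D,
    smallU D (Fintype.card κ) (show (901 / 1000 : ℝ) < 1 by norm_num) hη]
    with x h ⟨_, h2, h3⟩ hl hB h4 y y' hy hy' hs hs'
  have := h ∅ x (2 * x) (rr D x η) 1 y y' (by simp) (by omega) one_pos
    (fun T => abs_le.2 ⟨by linarith [(rr_mem D x η T).1], (rr_mem D x η T).2⟩)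
    (fun T hT => ⟨by simp, (rr_supp hl hT).2⟩) hy hy' hs hs'
  simp only [notMem_empty, IsEmpty.forall_iff, implies_true, and_true, prod_empty, mul_one,
    Nat.cast_mul, Nat.cast_ofNat, show (2 : ℝ) * x - x = x by ring, one_pow, one_mul] at this
  have hS : 0 < Sc D x η ^ 2 := by positivity
  have h5 := div_le_div_of_nonneg_right this hS.le
  rw [← abs_of_pos hS, ← abs_div, abs_of_pos hS, sub_div, sum_div] at h5
  refine le_trans (le_of_eq ?_) (h5.trans ?_)
  · congr 2
    · exact sum_congr rfl fun m _ => by rw [nu, div_pow]; ring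
    · ring
  · rw [add_div]
    have h6 : (x : ℝ) ^ (901 / 1000 : ℝ) / Sc D x η ^ 2 ≤ (x : ℝ) ^ (901 / 1000 : ℝ) :=
      div_le_self (by positivity) (one_le_pow₀ h3)
    have h7 : x / primorial D * (eK K D * BB D x ^ (Fintype.card κ + 1)) / Sc D x η ^ 2 ≤
        x / primorial D * (η ^ 3 * BB D x ^ (Fintype.card κ + 1)) / (η * BB D x / 4) ^ 2 := by
      gcongr; linarith
    rw [show x / primorial D * (η ^ 3 * BB D x ^ (Fintype.card κ + 1)) / (η * BB D x / 4) ^ 2 =
      16 * η * (x / primorial D * (BB D x ^ Fintype.card κ / BB D x)) by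
        field_simp; ring] at h7
    linarith

theorem errbK {K G D : ℕ} (hD : 2 * G + 16 ≤ D) (hκ : Fintype.card κ < K) {g : κ → ℤ}
    (hg : Function.Injective g) (hG : ∀ j, g j ≠ 0 ∧ |g j| ≤ G) (a : ℕ) {η : ℝ}
    (hη : 0 < η) (hη' : η ≤ 1 / 1000) (he : eK K D ≤ η ^ 3) :
    ∀ᶠ x : ℕ in atTop, ∀ y : (κ → Finset (PP D x)) → ℝ,
    (∀ T, |y T| ≤ 1) → (∀ T, y T ≠ 0 → lgs (qq D x) T ≤ 2 / 5 * Real.log x) →
    ∑ m ∈ Ioc x (2 * x) with m ≡ a [MOD primorial D],
        Pr.nu D x η m * (Real.log x * Pr.ee D x η m + 1) * SS (qq D x) g y m ^ 2 ≤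
      90000 * η * (Real.log x * (x / primorial D * (BB D x ^ Fintype.card κ / BB D x))) := by
  classical
  filter_upwards [TTK hD hκ hg hG a, Sc_ge D hη hη', Meas.L_pos, Meas.BB_pos D,
    smallU D (Fintype.card κ) (show (901 / 1000 : ℝ) < 1 by norm_num) hη,
    smallU D (Fintype.card κ) (show (902 / 1000 : ℝ) < 1 by norm_num) hη,
    smallU D (Fintype.card κ) (show 1 - η / 2 < 1 by linarith) hη, wts_le (κ := κ) D,
    sm_sum D hη, count_sq hη, crudeK D G (κ := Option κ) (g := og g)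
      (by rintro (_ | j) <;> simp [og, hG]) (show 0 < η / 4 by positivity), eventually_gt_atTop 0,
    tendsto_natCast_atTop_atTop.eventually_ge_atTop (1 / η ^ 2),
    gr_logx.eventually_ge_atTop (26 / η ^ 2)]
    with x h ⟨h1, h2, h3⟩ hl hB s1 s2 s3 h4 h5 h6 h7 hx h8 h9 y hy hs
  have hx' : (0 : ℝ) < x := by positivity
  have hW : (0 : ℝ) < primorial D := by exact_mod_cast primorial_pos D
  set Q := BB D x ^ Fintype.card κ / BB D x with hQ
  set U := x / primorial D * Q with hU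
  have hQ0 : 0 ≤ Q := by positivity
  have hU0 : 0 ≤ U := by positivity
  have hM := h4 y 1 hy fun T hT => (hs T hT).trans (by linarith)
  rw [one_pow, one_mul] at hM
  have hT : ∀ (E0 : Finset (PP D x)) (N1 N2 : ℕ) (r : Finset (PP D x) → ℝ) (c : ℝ),
      E0.card ≤ 1 → N1 ≤ N2 → 0 < c → (∀ T, |r T| ≤ c) →
      (∀ T, r T ≠ 0 → (∀ i ∈ E0, i ∉ T) ∧ lg (qq D x) T ≤ 1 / 20 * Real.log x) →
      ∑ T, r T * r T * wt (qq D x) T ≤ c ^ 2 * (2 * Sc D x η) →
      ∑ m ∈ Ioc N1 N2 with m ≡ a [MOD primorial D] ∧ ∀ i ∈ E0, qq D x i ∣ m,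
        (S0 (qq D x) r m / Sc D x η) ^ 2 * SS (qq D x) g y m ^ 2 ≤
      c ^ 2 * (((N2 : ℝ) - N1) / (primorial D * ∏ i ∈ E0, (qq D x i : ℝ)) * (25 / η * Q) +
        (x : ℝ) ^ (901 / 1000 : ℝ)) := by
    intro E0 N1 N2 r c hE hN hc hr hrs hw
    have b1 := (abs_le.1 (h E0 N1 N2 r c y y hE hN hc hr hrs hy hy hs hs)).2
    have b2 : 0 ≤ ((N2 : ℝ) - N1) / (primorial D * ∏ i ∈ E0, (qq D x i : ℝ)) :=
      div_nonneg (sub_nonneg.2 (by exact_mod_cast hN)) (by positivity)
    set N := ((N2 : ℝ) - N1) / (primorial D * ∏ i ∈ E0, (qq D x i : ℝ))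
    have b3 := mul_le_mul_of_nonneg_left (mul_le_mul hw hM (sum_nonneg fun T _ =>
      mul_nonneg (mul_self_nonneg _) (wts_nonneg _ (qq_two D x) T)) (by positivity)) b2
    have hS : 0 < Sc D x η ^ 2 := by positivity
    have b4 : 2 * Sc D x η * (3 * BB D x ^ Fintype.card κ) +
        eK K D * BB D x ^ (Fintype.card κ + 1) ≤ 25 / η * Q * Sc D x η ^ 2 := by
      have c1 : 2 * Sc D x η * (3 * BB D x ^ Fintype.card κ) ≤ 24 / η * Q * Sc D x η ^ 2 :=
        le_trans (le_of_eq (by rw [hQ]; field_simp; ring)) (show 24 / η * Q *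
          (Sc D x η * (η * BB D x / 4)) ≤ _ by rw [sq]; gcongr; linarith)
      have c2 : η ^ 3 * BB D x ^ (Fintype.card κ + 1) ≤ 16 * η * Q * Sc D x η ^ 2 :=
        le_trans (le_of_eq (by rw [hQ]; field_simp; ring)) (show 16 * η * Q *
          (η * BB D x / 4) ^ 2 ≤ _ by gcongr; linarith)
      have c3 := (num1 hη hη').1
      have c4 : 16 * η * Q * Sc D x η ^ 2 ≤ 1 / η * Q * Sc D x η ^ 2 := by gcongr
      have c5 : eK K D * BB D x ^ (Fintype.card κ + 1) ≤ η ^ 3 * BB D x ^ (Fintype.card κ + 1) := by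
        gcongr
      rw [show 25 / η * Q * Sc D x η ^ 2 = 24 / η * Q * Sc D x η ^ 2 + 1 / η * Q * Sc D x η ^ 2 by
        ring]
      linarith
    have b5 := mul_le_mul_of_nonneg_left b4 (show 0 ≤ c ^ 2 * N by positivity)
    have b6 : c ^ 2 * (x : ℝ) ^ (901 / 1000 : ℝ) ≤
        c ^ 2 * (x : ℝ) ^ (901 / 1000 : ℝ) * Sc D x η ^ 2 :=
      le_mul_of_one_le_right (by positivity) (one_le_pow₀ h3)
    simp only [div_pow, div_mul_eq_mul_div (S0 _ _ _ ^ 2), ← sum_div]
    rw [div_le_iff₀ hS]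
    simp only [← sq] at b1
    simp only [← sq] at b3
    linarith
  have hI : ∀ N1 N2 : ℕ, N1 ≤ N2 → ∀ c : ℝ, (N2 : ℝ) - N1 ≤ c * x →
      ∑ m ∈ Ioc N1 N2 with m ≡ a [MOD primorial D], nu D x η m * SS (qq D x) g y m ^ 2 ≤
        c * (25 / η) * U + η * U := by
    intro N1 N2 hN c hc
    have := hT ∅ N1 N2 (rr D x η) 1 (by simp) hN one_pos
      (fun T => abs_le.2 ⟨by linarith [(rr_mem D x η T).1], (rr_mem D x η T).2⟩)
      (fun T hT => ⟨by simp, (rr_supp hl hT).2⟩) ((rr_sq D x η).trans (by linarith))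
    simp only [notMem_empty, IsEmpty.forall_iff, implies_true, and_true, prod_empty, mul_one,
      one_pow, one_mul] at this
    refine this.trans (add_le_add ?_ s1)
    refine (mul_le_mul_of_nonneg_right (div_le_div_of_nonneg_right hc hW.le)
      (by positivity)).trans (le_of_eq ?_)
    rw [hU]; ring
  have b1 : ∑ m ∈ Ioc x (2 * x) with m ≡ a [MOD primorial D], (∑ i ∈ sm D x η,
      if qq D x i ∣ m then (1 : ℝ) else 0) * (nu D x η m * SS (qq D x) g y m ^ 2) ≤
      80001 * η * U := by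
    simp only [sum_mul]
    rw [sum_comm]
    refine (sum_le_sum (g := fun i => 40000 * U * (uu D x i / qq D x i) +
      (x : ℝ) ^ (901 / 1000 : ℝ)) fun i hi => ?_).trans ?_
    · have a1 : uu D x i ≤ η := (mem_filter.1 hi).2
      have a3 := uu_pos hl i
      have a4 := Meas.two_le D x i
      have := hT {i} x (2 * x) (dif (rr D x η) i) (40 * uu D x i) (by simp) (by omega)
        (by positivity) (fun T => (dif_rr hl hi T).1)
        (fun T hT => ⟨by simpa using ((dif_rr hl hi T).2 hT).1, ((dif_rr hl hi T).2 hT).2.2⟩) (by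
          refine le_trans ?_ (mul_le_mul_of_nonneg_left h1 (by positivity))
          rw [Si, mul_sum, ← sum_subset (subset_univ (sm D x η).powerset) fun T _ hT => by
            rw [not_not.1 fun h => hT (mem_powerset.2 ((dif_rr hl hi T).2 h).2.1)]; simp]
          refine sum_le_sum fun T _ => mul_le_mul_of_nonneg_right ?_
            (wt_nonneg (qq D x) (qq_two D x) T)
          rw [← sq]; exact sq_le_sq' (abs_le.1 (dif_rr hl hi T).1).1 (abs_le.1 (dif_rr hl hi T).1).2)
      simp only [mem_singleton, forall_eq, prod_singleton, Nat.cast_mul, Nat.cast_ofNat,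
        show (2 : ℝ) * x - x = x by ring] at this
      simp only [ite_mul, one_mul, zero_mul]
      rw [← sum_filter, filter_filter]
      refine (le_of_eq (sum_congr rfl fun m hm => ?_)).trans (this.trans ?_)
      · rw [nu, S0_dif _ _ i (by exact_mod_cast (mem_filter.1 hm).2.2)]
      · rw [mul_add]
        refine add_le_add (le_trans (le_of_eq (show _ = 40000 * U * (uu D x i / qq D x i) *
          (uu D x i / η) by rw [hU]; field_simp; ring)) (mul_le_of_le_one_right (by positivity)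
            ((div_le_one hη).2 a1))) (mul_le_of_le_one_left (by positivity) ((num1 hη hη').2.2.1 _ a3 a1))
    · rw [sum_add_distrib, ← mul_sum, sum_const, nsmul_eq_mul]
      have a1 := card_small D x hl (b := 1 / 1000) (fun i => uu D x i ≤ η) fun i h => h.trans hη'
      have a2 := mul_le_mul_of_nonneg_left h5 (show 0 ≤ 40000 * U by positivity)
      have a3 := mul_le_mul_of_nonneg_right a1
        (show 0 ≤ (x : ℝ) ^ (901 / 1000 : ℝ) by positivity)
      rw [← Real.rpow_add hx', show (1 / 1000 + 901 / 1000 : ℝ) = 902 / 1000 by norm_num] at a3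
      change ((sm D x η).card : ℝ) * _ ≤ _ at a3
      linarith
  have b2 : ∑ m ∈ Ioc x (2 * x) with m ≡ a [MOD primorial D],
      (if ∃ p : ℕ, p.Prime ∧ η < Real.log p / Real.log x ∧ p ^ 2 ∣ m then (1 : ℝ) else 0) *
        (nu D x η m * SS (qq D x) g y m ^ 2) ≤ 4 * η * U := by
    refine (sum_le_sum_of_subset_of_nonneg (filter_subset _ _) fun _ _ _ => mul_nonneg
      (by split_ifs <;> norm_num) (mul_nonneg (nu_nonneg _ _ _ _) (sq_nonneg _))).trans ((sum_le_sum (g := fun m => (if ∃ p : ℕ, p.Prime ∧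
        η < Real.log p / Real.log x ∧ p ^ 2 ∣ m then (1 : ℝ) else 0) *
        (x : ℝ) ^ (η / 2)) fun m hm => ?_).trans ?_)
    · have := h7 m hm (tens (rr D x η) y) (fun T => by
        rw [tens, abs_mul]
        exact mul_le_one₀ (abs_le.2 ⟨by linarith [(rr_mem D x η (T none)).1],
          (rr_mem D x η _).2⟩) (abs_nonneg _) (hy _)) fun T hT => by
        have c1 := (rr_supp hl (left_ne_zero_of_mul hT)).2
        have c2 := hs _ (right_ne_zero_of_mul hT)
        rw [lgs_option]; linarith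
      rw [SS_tens] at this
      refine mul_le_mul_of_nonneg_left ?_ (by split_ifs <;> norm_num)
      rw [nu, div_pow, div_mul_eq_mul_div, ← mul_pow]
      refine (div_le_self (sq_nonneg _) (one_le_pow₀ h3)).trans ?_
      rw [← sq_abs]
      refine (pow_le_pow_left₀ (abs_nonneg _) this 2).trans (le_of_eq ?_)
      rw [← Real.rpow_mul_natCast hx'.le]; push_cast; ring_nf
    · rw [← sum_mul]
      refine (mul_le_mul_of_nonneg_right h6 (by positivity)).trans ?_
      rw [mul_assoc, ← Real.rpow_add hx', show 1 - η + η / 2 = 1 - η / 2 by ring]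
      linarith
  have hη2 : 0 < η ^ 2 := by positivity
  have b3 : ∑ m ∈ Ioc x (2 * x) with m ≡ a [MOD primorial D],
      (if m ≤ ⌊x * Real.exp (η ^ 2)⌋₊ then (1 : ℝ) else 0) *
        (nu D x η m * SS (qq D x) g y m ^ 2) ≤ 2 * η ^ 2 * (25 / η) * U + η * U := by
    refine le_trans ?_ (hI x _ (bd1 hη2 (num1 hη hη').2.1 x).1 _ (bd1 hη2 (num1 hη hη').2.1 x).2)
    simp only [ite_mul, one_mul, zero_mul]
    rw [← sum_filter]
    refine sum_le_sum_of_subset_of_nonneg (fun m hm => ?_) fun _ _ _ =>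
      mul_nonneg (nu_nonneg _ _ _ _) (sq_nonneg _)
    simp only [mem_filter, mem_Ioc] at hm ⊢
    exact ⟨⟨hm.1.1.1, hm.2⟩, hm.1.2⟩
  have b4 : ∑ m ∈ Ioc x (2 * x) with m ≡ a [MOD primorial D],
      (if ⌊2 * x * Real.exp (-η ^ 2)⌋₊ < m then (1 : ℝ) else 0) *
        (nu D x η m * SS (qq D x) g y m ^ 2) ≤ 3 * η ^ 2 * (25 / η) * U + η * U := by
    refine le_trans ?_ (hI _ _ (bd2 hη2 h8).1 _ (bd2 hη2 h8).2)
    simp only [ite_mul, one_mul, zero_mul]
    rw [← sum_filter]
    refine sum_le_sum_of_subset_of_nonneg (fun m hm => ?_) fun _ _ _ =>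
      mul_nonneg (nu_nonneg _ _ _ _) (sq_nonneg _)
    simp only [mem_filter, mem_Ioc] at hm ⊢
    exact ⟨⟨hm.2, hm.1.1.2⟩, hm.1.2⟩
  have b5 := hI x (2 * x) (by omega) 1 (by push_cast; linarith)
  have b6 : 1 * (25 / η) * U + η * U ≤ Real.log x * (η * U) := by
    rw [one_mul, ← add_mul, ← mul_assoc (Real.log x)]
    exact mul_le_mul_of_nonneg_right ((num1 hη hη').2.2.2 _ h9) hU0
  have b7 := mul_le_mul_of_nonneg_left (add_le_add (add_le_add (add_le_add b1 b2) b3) b4) hl.le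
  rw [← sum_add_distrib, ← sum_add_distrib, ← sum_add_distrib, mul_sum,
    show 2 * η ^ 2 * (25 / η) = 50 * η by field_simp; ring,
    show 3 * η ^ 2 * (25 / η) = 75 * η by field_simp; ring] at b7
  have b8 := add_le_add b7 (b5.trans b6)
  rw [← sum_add_distrib] at b8
  refine le_trans (le_of_eq (sum_congr rfl fun m _ => by rw [ee]; ring)) (b8.trans ?_)
  have : 0 ≤ η * (Real.log x * U) := by positivity
  linarith

end

end Pool.Agent.Lib.MP_fc51f7_nt.MT
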