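import Pool.Agent.Lib.MP_fc51f7_nt.MT.PrB

/-! Sieve sums over primes in a residue class, level `1/2 - η`, any number of forms. -/

set_option autoImplicit false
set_option linter.unusedSectionVars false

namespace Pool.Agent.Lib.MP_fc51f7_nt.MT

open Finset Filter Topology

section
variable {κ : Type} [Fintype κ] [DecidableEq κ]

theorem primeSum0K {K G D : ℕ} (hD : 2 * G + 16 ≤ D) (hκ : Fintype.card κ < K) {g : κ → ℤ}
    (hg : Function.Injective g) (hG : ∀ j, g j ≠ 0 ∧ |g j| ≤ G) {a : ℕ}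
    (ha : Nat.Coprime a (primorial D)) {η : ℝ} (hη : 0 < η) (hη' : η ≤ 1 / 1000)
    (he : eK K D ≤ η ^ 3) : ∀ᶠ x : ℕ in atTop, ∀ y y' : (κ → Finset (PP D x)) → ℝ,
    (∀ T, |y T| ≤ 1) → (∀ T, |y' T| ≤ 1) →
    (∀ T, y T ≠ 0 → lgs (qq D x) T ≤ 2 / 5 * Real.log x) →
    (∀ T, y' T ≠ 0 → lgs (qq D x) T ≤ 2 / 5 * Real.log x) →
    (∀ T U, y T ≠ 0 → y' U ≠ 0 →
      lgs (qq D x) T + lgs (qq D x) U ≤ (1 / 2 - η) * Real.log x) →
    |∑ p ∈ Ioc x (2 * x) with p ≡ a [MOD primorial D] ∧ p.Prime,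
        Real.log (p : ℕ) * (SS (qq D x) g y p * SS (qq D x) g y' p) -
      x / primorial D * Real.log x / BB D x * ∑ T, y T * y' T * wts (qq D x) T| ≤
      400000 * η * (x / primorial D * Real.log x * (BB D x ^ Fintype.card κ / BB D x)) := by
  classical
  have hW : (0 : ℝ) < primorial D := by exact_mod_cast primorial_pos D
  have hV := Meas.V_pos D
  have hφ : (0 : ℝ) < (primorial D).totient := by
    exact_mod_cast Nat.totient_pos.2 (primorial_pos D)
  obtain ⟨C, hC, hθ⟩ := Pr.theta_Ioc (primorial D) (primorial_ne_zero D)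
    (show 0 < η / (8 * (primorial D).totient) by positivity)
  have g0 : Function.Injective (Fin.elim0 : Fin 0 → ℤ) := fun j => j.elim0
  have k0 : Fintype.card (Fin 0) < K := by rw [Fintype.card_fin]; omega
  filter_upwards [errbK hD hκ hg hG a hη hη' he, nuMainK hD hκ hg hG a hη hη' he,
    errbK hD (κ := Fin 0) k0 g0 (fun j => j.elim0) a hη hη' he,
    nuMainK hD (κ := Fin 0) k0 g0 (fun j => j.elim0) a hη hη' he,
    bvMain hD hκ.le hη (show 0 < η ^ 2 by positivity) (show 0 < η *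
      (∏ p ∈ Nat.primesLE D, (1 - (p : ℝ)⁻¹)) ^ Fintype.card κ /
        ((∏ p ∈ Nat.primesLE D, (1 - (p : ℝ)⁻¹)) * primorial D) by positivity) hg hG a,
    Pr.ptw ha hη hη', Pr.Sc_ge D hη hη', Pr.wts_le (κ := κ) D, Meas.L_pos, Meas.BB_pos D,
    tendsto_natCast_atTop_atTop.eventually_ge_atTop (2 * C * (primorial D).totient / η)]
    with x h1 h2 h3 h4 h5 h6 ⟨_, h7, h7'⟩ h8 hl hB h9 y y' hy hy' hs hs' hss
  have S1 : ∀ m : ℕ, SS (qq D x) (Fin.elim0 : Fin 0 → ℤ) (fun _ => 1) m = 1 := fun m => by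
    simp [SS]
  have b3 := h3 (fun _ => 1) (by simp) fun T _ => by simp [lgs]; positivity
  have b4 := h4 (fun _ => 1) (fun _ => 1) (by simp) (by simp)
    (fun T _ => by simp [lgs]; positivity) fun T _ => by simp [lgs]; positivity
  simp only [S1, one_pow, mul_one, Fintype.card_fin, wts, univ_unique, prod_empty,
    univ_eq_empty, sum_singleton] at b3 b4
  have b5 := h5 y y' (fun _ => 1) (Pr.lo1 η x) (hi (η ^ 2) x) hy hy' hss (by simp) fun j =>
    ⟨(le_max_left _ _).trans (Nat.lt_floor_add_one _).le, (Nat.floor_le (by positivity)).trans (by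
      have : 0 < η ^ 2 := by positivity
      gcongr; linarith)⟩
  have r1 := Pr.aa_reindex hη x (primorial D) a fun n => SS (qq D x) g y n * SS (qq D x) g y' n
  have r2 := Pr.aa_reindex hη x (primorial D) a fun _ => 1
  simp only [mul_one] at r2 r1 b5
  rw [← r1, ← r2, abs_of_nonneg (sum_nonneg fun n _ => Pr.aa_nonneg η x n)] at b5
  set s := (Ioc x (2 * x)).filter fun n => n ≡ a [MOD primorial D] with hsd
  set Φ : ℕ → ℝ := fun n => SS (qq D x) g y n * SS (qq D x) g y' n with hΦ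
  set E : ℕ → ℝ := fun n => (if n.Prime then Real.log n else 0) - Real.log x * Pr.nu D x η n +
    Pr.aa η x n with hE
  have b6 : ∀ n ∈ s, |E n| ≤ Pr.nu D x η n * (Real.log x * Pr.ee D x η n + 1) := fun n hn =>
    h6 n (mem_filter.1 hn).1 (mem_filter.1 hn).2
  have b7 := hθ a 1 ha (by simp) x (2 * x) (by omega)
  simp only [mul_one, Nat.cast_mul, Nat.cast_ofNat, show (2 : ℝ) * x - x = x by ring] at b7
  have key := Pr.alg1 (Θ := ∑ n ∈ s, (if n.Prime then Real.log n else 0) * Φ n)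
    (Θ1 := ∑ n ∈ s, if n.Prime then Real.log n else 0) (E := ∑ n ∈ s, E n * Φ n)
    (E1 := ∑ n ∈ s, E n) (N := ∑ n ∈ s, Pr.nu D x η n * Φ n) (N1 := ∑ n ∈ s, Pr.nu D x η n)
    (A := ∑ n ∈ s, Pr.aa η x n * Φ n) (A1 := ∑ n ∈ s, Pr.aa η x n)
    (M := ∑ T, y T * y' T * wts (qq D x) T) (L := Real.log x) (R := x / primorial D *
      ((∑ T, Pr.rr D x η T * Pr.rr D x η T * wt (qq D x) T) / Pr.Sc D x η ^ 2))
    (U0 := x / primorial D * (BB D x ^ 0 / BB D x))
    (U3 := x / primorial D * (BB D x ^ Fintype.card κ / BB D x))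
    (B3 := BB D x ^ Fintype.card κ) hη hη' hl.le
    (by positivity) (by positivity) (by ring)
    (Pr.abs_wts_le _ (qq_two D x) _ _
      ((h8 y 1 hy fun T h => (hs T h).trans (by linarith)).trans (by linarith))
      ((h8 y' 1 hy' fun T h => (hs' T h).trans (by linarith)).trans (by linarith)))
    (by rw [mul_sum, ← sum_sub_distrib, ← sum_add_distrib]
        exact sum_congr rfl fun n _ => by simp only [hE]; ring)
    (by rw [mul_sum, ← sum_sub_distrib, ← sum_add_distrib])
    ((abs_sum_le_sum_abs _ _).trans (le_trans (sum_le_sum (g := fun n =>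
      (Pr.nu D x η n * (Real.log x * Pr.ee D x η n + 1) * SS (qq D x) g y n ^ 2 +
      Pr.nu D x η n * (Real.log x * Pr.ee D x η n + 1) * SS (qq D x) g y' n ^ 2) / 2)
      fun n hn => by
        rw [abs_mul, ← mul_add, mul_div_assoc]
        refine mul_le_mul (b6 n hn) (abs_le.2 ⟨?_, ?_⟩) (abs_nonneg _)
          ((abs_nonneg _).trans (b6 n hn))
        · linarith [sq_nonneg (SS (qq D x) g y n + SS (qq D x) g y' n)]
        · linarith [sq_nonneg (SS (qq D x) g y n - SS (qq D x) g y' n)])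
      (by rw [← sum_div, sum_add_distrib]; linarith [h1 y hy hs, h1 y' hy' hs'])))
    ((abs_sum_le_sum_abs _ _).trans ((sum_le_sum b6).trans b3)) (h2 y y' hy hy' hs hs') b4
    (by
      rw [mul_left_comm]
      refine mul_le_mul_of_nonneg_left ((div_le_div_of_nonneg_right (Pr.rr_sq D x η)
        (sq_nonneg _)).trans ?_) (by positivity)
      rw [sq, div_mul_eq_div_div, div_self (by linarith), pow_zero, div_mul_div_comm,
        div_le_div_iff₀ (by linarith) (by positivity)]
      linarith)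
    (by
      rw [← Pr.tot_eq D x hl, ← sum_filter, hsd, filter_filter, filter_congr fun _ _ => and_comm]
      refine b7.trans ?_
      rw [div_le_iff₀ hη] at h9
      rw [← mul_div_assoc η, le_div_iff₀ hφ, add_mul,
        show 2 * (η / (8 * (primorial D).totient)) * (2 * x) * (primorial D).totient =
          η * x / 2 by field_simp; ring]
      linarith)
    (b5.trans (add_le_add (le_of_eq (by unfold BB; rw [mul_pow]; field_simp))
      (mul_le_mul_of_nonneg_right (mul_le_mul_of_nonneg_right he (by positivity))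
        (sum_nonneg fun n _ => Pr.aa_nonneg η x n))))
  simp only [ite_mul, zero_mul] at key
  rw [← sum_filter, hsd, filter_filter] at key
  convert key using 2
  · congr 1; ring
  · ring

/-- Lower bound for the sum of a squared sieve weight over primes. -/
theorem primeSumK (G : ℕ) {η ε : ℝ} (hη : 0 < η) (hε : 0 < ε) :
    ∀ᶠ D : ℕ in atTop, ∀ g : κ → ℤ, Function.Injective g → (∀ j, g j ≠ 0 ∧ |g j| ≤ G) →
    ∀ a : ℕ, Nat.Coprime a (primorial D) →
    ∀ᶠ x : ℕ in atTop, ∀ (y : (κ → Finset (PP D x)) → ℝ) (c : ℝ), 0 < c → (∀ T, |y T| ≤ c) →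
    (∀ T, y T ≠ 0 → lgs (qq D x) T ≤ (1 / 4 - η) * Real.log x) →
    x / primorial D * Real.log x / BB D x * (∑ T, y T * y T * wts (qq D x) T -
        c ^ 2 * ε * BB D x ^ Fintype.card κ) ≤
      ∑ p ∈ Ioc x (2 * x) with p ≡ a [MOD primorial D] ∧ p.Prime,
        Real.log (p : ℕ) * SS (qq D x) g y p ^ 2 := by
  set θ := min (min (2 * η) (1 / 1000)) (ε / 400000) with hθ
  have h0 : 0 < θ := lt_min (lt_min (by positivity) (by norm_num)) (by positivity)
  have h1 : θ ≤ 2 * η := (min_le_left _ _).trans (min_le_left _ _)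
  have h2 : θ ≤ 1 / 1000 := (min_le_left _ _).trans (min_le_right _ _)
  have h3 : 400000 * θ ≤ ε := by linarith [min_le_right (min (2 * η) (1 / 1000)) (ε / 400000)]
  filter_upwards [(eK_tendsto (Fintype.card κ + 1)).eventually_le_const
    (show 0 < θ ^ 3 by positivity), eventually_ge_atTop (2 * G + 16)] with D he hD g hg hG a ha
  filter_upwards [primeSum0K hD (Nat.lt_succ_self _) hg hG ha h0 h2 he, Meas.L_pos,
    Meas.BB_pos D] with x h hl hB y c hc hy hs
  have a1 : ∀ T, |c⁻¹ * y T| ≤ 1 := fun T => by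
    rw [abs_mul, abs_of_pos (inv_pos.2 hc), inv_mul_le_iff₀ hc, mul_one]; exact hy T
  have a2 : ∀ T, c⁻¹ * y T ≠ 0 → lgs (qq D x) T ≤ (1 / 4 - η) * Real.log x := fun T h =>
    hs T (right_ne_zero_of_mul h)
  have a3 : ∀ T, c⁻¹ * y T ≠ 0 → lgs (qq D x) T ≤ 2 / 5 * Real.log x := fun T h =>
    (a2 T h).trans (by gcongr; linarith)
  have a4 := (abs_le.1 (h (fun T => c⁻¹ * y T) (fun T => c⁻¹ * y T) a1 a1 a3 a3
    fun T U b1 b2 => (add_le_add (a2 T b1) (a2 U b2)).trans (by
      rw [← add_mul]; gcongr; linarith))).1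
  have e1 : ∑ p ∈ Ioc x (2 * x) with p ≡ a [MOD primorial D] ∧ p.Prime,
      Real.log (p : ℕ) * SS (qq D x) g y p ^ 2 =
      c ^ 2 * ∑ p ∈ Ioc x (2 * x) with p ≡ a [MOD primorial D] ∧ p.Prime, Real.log (p : ℕ) *
        (SS (qq D x) g (fun T => c⁻¹ * y T) p * SS (qq D x) g (fun T => c⁻¹ * y T) p) := by
    rw [mul_sum]
    refine sum_congr rfl fun p _ => ?_
    rw [SS_smul]
    field_simp
  have e2 : ∑ T, y T * y T * wts (qq D x) T =
      c ^ 2 * ∑ T, c⁻¹ * y T * (c⁻¹ * y T) * wts (qq D x) T := by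
    rw [mul_sum]
    refine sum_congr rfl fun T _ => ?_
    field_simp
  have hW : (0 : ℝ) < primorial D := by exact_mod_cast primorial_pos D
  have a5 : 400000 * θ * (x / primorial D * Real.log x * (BB D x ^ Fintype.card κ / BB D x)) ≤
      ε * (x / primorial D * Real.log x * (BB D x ^ Fintype.card κ / BB D x)) := by gcongr
  rw [e1, e2]
  refine le_trans (le_of_eq ?_) (mul_le_mul_of_nonneg_left
    (show x / primorial D * Real.log x / BB D x *
      ∑ T, c⁻¹ * y T * (c⁻¹ * y T) * wts (qq D x) T -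
      ε * (x / primorial D * Real.log x * (BB D x ^ Fintype.card κ / BB D x)) ≤ _ by linarith)
    (sq_nonneg c))
  ring

end

end Pool.Agent.Lib.MP_fc51f7_nt.MT
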