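import Pool.Agent.Lib.MP_fc51f7_nt.MT.PrS
import Pool.Agent.Lib.MP_fc51f7_nt.MT.Lim

/-! The two sums of the Maynard-Tao sieve. -/

set_option autoImplicit false
set_option linter.unusedSectionVars false

namespace Pool.Agent.Lib.MP_fc51f7_nt.MT

open Finset Filter Topology Polynomial

section
variable {m : ℕ} {c : Fin m → ℝ} {n : Fin m → ℕ}

theorem om_posK {ω : ℝ} (hω : 4 * Real.log 16 < ω) : 1 < ω := by
  have : Real.log 16 = 4 * Real.log 2 := by
    rw [show (16 : ℝ) = 2 ^ 4 by norm_num, Real.log_pow]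
    norm_num
  linarith [Real.log_two_gt_d9]

theorem supp_leK {ω L t : ℝ} (hω : 0 < ω) (hL : 0 < L) (h : ω / L * t ≤ Real.log 16) :
    t ≤ (1 / 4 - (1 / 4 - Real.log 16 / ω)) * L := by
  rw [div_mul_eq_mul_div, div_le_iff₀ hL] at h
  rw [sub_sub_cancel, div_mul_eq_mul_div, le_div_iff₀ hω]
  linarith

theorem eta_posK {ω : ℝ} (hω : 4 * Real.log 16 < ω) : 0 < 1 / 4 - Real.log 16 / ω := by
  rw [sub_pos, div_lt_iff₀ (one_pos.trans (om_posK hω))]
  linarith

theorem sum_le_injK {s t : Finset ℕ} {f h : ℕ → ℝ} (e : ℕ → ℕ) (he : Set.InjOn e s)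
    (ht : s.image e ⊆ t) (hf : ∀ p ∈ s, f p ≤ h (e p)) (h0 : ∀ z ∈ t, z ∉ s.image e → 0 ≤ h z) :
    ∑ p ∈ s, f p ≤ ∑ z ∈ t, h z :=
  (sum_le_sum hf).trans ((sum_image he).ge.trans (sum_le_sum_of_subset_of_nonneg ht h0))

/-- The total mass of the sieve weight. -/
theorem S1_le (c : Fin m → ℝ) (hn : ∀ i, 0 < n i) (b : ℝ[X]) {ω : ℝ} (hω : 4 * Real.log 16 < ω)
    {k G : ℕ} {g : Fin (k + 1) → ℕ} (hg : Function.Injective g) (hG : ∀ j, g j ≤ G) {ε : ℝ}
    (hε : 0 < ε) : ∀ᶠ D : ℕ in atTop, ∀ a : ℕ, ∀ᶠ x : ℕ in atTop,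
    ∑ z ∈ Ioc (x - G) (2 * x) with z ≡ a [MOD primorial D],
        SS (qq D x) (fun j => (g j : ℤ)) (yF c n b (qq D x) (ω / Real.log x)) z ^ 2 ≤
      x / primorial D * BB D x ^ (k + 1) * (Iv c n b k / ω ^ (k + 1) + ε) := by
  obtain ⟨C, hC, hb⟩ := yF_bdd c n b k
  have ω0 := one_pos.trans (om_posK hω)
  have hη := eta_posK hω
  filter_upwards [eventually_ge_atTop (2 * G + 16), (eK_tendsto (k + 1)).eventually_le_const
    (show 0 < ε / 4 / C ^ 2 by positivity)] with D hD he a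
  set I := Iv c n b k / ω ^ (k + 1) with hI
  have hW : (0 : ℝ) < primorial D := by exact_mod_cast primorial_pos D
  filter_upwards [TIK (K := k + 1) hD (by simp) 0 (g := fun j => (g j : ℤ))
      (fun i j h => hg (Int.natCast_inj.1 h)) (fun j => by simpa using hG j) a,
    I_ev c hn b ω0 k D (show 0 < ε / 4 by positivity), Meas.L_pos, eventually_ge_atTop G,
    (BB_tendsto D).eventually_ge_atTop 1,
    Pr.small' D (show (901 / 1000 : ℝ) < 1 by norm_num) (show 0 < ε / 4 / C ^ 2 by positivity),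
    (tendsto_natCast_atTop_atTop (R := ℝ)).eventually_ge_atTop (G * |I + ε / 2| / (ε / 4))]
    with x h h1 hL hx hB h2 h3
  refine (h (x - G) (2 * x) C _ (by omega) hC
    (hb _ _ _ (qq_two D x) (by positivity)).1 fun T hT =>
      (supp_leK ω0 hL (yF_supp hT)).trans (by gcongr; linarith)).trans ?_
  rw [Fintype.card_fin, Nat.cast_sub hx]
  set B := BB D x ^ (k + 1) with hB'
  have b1 : 1 ≤ B := one_le_pow₀ hB
  rw [le_div_iff₀ (by positivity)] at he
  rw [div_le_iff₀ (by positivity)] at h3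
  have h4 : C ^ 2 * (x : ℝ) ^ (901 / 1000 : ℝ) ≤ x / primorial D * B * (ε / 4) :=
    calc _ ≤ C ^ 2 * (ε / 4 / C ^ 2 * (x / primorial D)) := by gcongr
      _ = x / primorial D * 1 * (ε / 4) := by field_simp
      _ ≤ _ := by gcongr
  have h5 : C ^ 2 * (eK (k + 1) D * B) ≤ ε / 4 * B := by
    rw [← mul_assoc, mul_comm (C ^ 2)]
    gcongr
  have h6 : ((x : ℝ) + G) * (I + ε / 2) ≤ x * (I + 3 * ε / 4) := by
    have := mul_le_mul_of_nonneg_left (le_abs_self (I + ε / 2)) (Nat.cast_nonneg (α := ℝ) G)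
    linarith
  calc _ ≤ (((2 * x : ℕ) : ℝ) - (x - G)) / primorial D * ((I + ε / 4) * B + ε / 4 * B) +
        x / primorial D * B * (ε / 4) := by
        have : (0 : ℝ) ≤ ((2 * x : ℕ) : ℝ) - (x - G) := by
          push_cast
          linarith [Nat.cast_nonneg (α := ℝ) x, Nat.cast_nonneg (α := ℝ) G]
        gcongr
    _ = (x + G) * (I + ε / 2) * (B / primorial D) + x / primorial D * B * (ε / 4) := by
        push_cast
        ring
    _ ≤ x * (I + 3 * ε / 4) * (B / primorial D) + x / primorial D * B * (ε / 4) := by gcongr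
    _ = _ := by ring

/-- The mass of the sieve weight where one given form is prime. -/
theorem S2_ge (hc : ∀ i, 0 ≤ c i) (hn : ∀ i, 0 < n i) (b a' : ℝ[X]) {ω : ℝ}
    (hω : 4 * Real.log 16 < ω) {k G : ℕ} {g : Fin (k + 1) → ℕ} (hg : Function.Injective g)
    (hG : ∀ j, g j ≤ G) (j0 : Fin (k + 1)) {ε : ℝ} (hε : 0 < ε) :
    ∀ᶠ D : ℕ in atTop, ∀ a : ℕ, Nat.Coprime (a + g j0) (primorial D) → ∀ᶠ x : ℕ in atTop,
    x / primorial D * BB D x ^ (k + 1) * (Jv c n b a' k / ω ^ (k + 2) - ε) ≤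
      ∑ z ∈ Ioc (x - G) (2 * x) with z ≡ a [MOD primorial D] ∧ (z + g j0).Prime,
        SS (qq D x) (fun j => (g j : ℤ)) (yF c n b (qq D x) (ω / Real.log x)) z ^ 2 := by
  obtain ⟨e, rfl⟩ : ∃ e : Fin (k + 1) ≃ Option (Fin k), e.symm none = j0 :=
    ⟨finSuccEquiv' j0, finSuccEquiv'_symm_none j0⟩
  obtain ⟨C, hC, hb⟩ := yF_bdd c n b k
  have ω1 := om_posK hω
  have ω0 := one_pos.trans ω1
  have hη := eta_posK hω
  filter_upwards [primeSumK (κ := Fin k) G hη (show 0 < ε / 4 / C ^ 2 by positivity)] with D hD a ha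
  set J := Jv c n b a' k / ω ^ (k + 2) with hJ
  have hW : (0 : ℝ) < primorial D := by exact_mod_cast primorial_pos D
  filter_upwards [hD (fun j => (g (e.symm (some j)) : ℤ) - g (e.symm none))
      (fun i j h => Option.some_injective _ (e.symm.injective (hg (by
        exact_mod_cast sub_left_injective h))))
      (fun j => ⟨fun h => by
        have := e.symm.injective (hg (by exact_mod_cast sub_eq_zero.1 h))
        simp at this, by
        have h1 := hG (e.symm (some j))
        have h2 := hG (e.symm none)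
        rw [abs_le]
        omega⟩) _ ha,
    J_ev hc hn b a' ω0 k D (show 0 < ε / 4 by positivity), Meas.L_pos, eventually_ge_atTop G,
    eventually_gt_atTop 0, Meas.BB_pos D,
    (Zf_tendsto D ω0).eventually_le_const (inv_lt_one_of_one_lt₀ ω1),
    gr_logx.eventually_ge_atTop ((J - ε) / (ε / 2))] with x h h1 hL hx hx0 hB h2 h3
  rw [div_le_one hB] at h2
  rw [div_le_iff₀ (by positivity)] at h3
  have hs : 0 ≤ ω / Real.log x := by positivity
  have h4 := h (marg (qq D x) (yF c n b (qq D x) (ω / Real.log x))) (C * BB D x) (by positivity)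
    (fun T => ((hb _ _ _ (qq_two D x) hs).2 T).trans (by gcongr))
    fun T hT => supp_leK ω0 hL (marg_supp hs hT)
  rw [Fintype.card_fin] at h4
  refine le_of_mul_le_mul_left (le_trans ?_ (h4.trans ?_)) (show 0 < Real.log x + 1 by positivity)
  · calc _ = x / primorial D * BB D x ^ (k + 1) * ((Real.log x + 1) * (J - ε)) := by ring
      _ ≤ x / primorial D * BB D x ^ (k + 1) * (Real.log x * (J - ε / 2)) := by
        gcongr x / primorial D * BB D x ^ (k + 1) * ?_
        linarith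
      _ = x / primorial D * Real.log x / BB D x * ((J - ε / 4) * BB D x ^ (k + 2) -
          (C * BB D x) ^ 2 * (ε / 4 / C ^ 2) * BB D x ^ k) := by
        field_simp
        ring
      _ ≤ _ := by gcongr
  · rw [mul_sum]
    refine sum_le_injK (fun p => p - g (e.symm none)) (fun p hp p' hp' h => ?_)
      (fun z hz => ?_) (fun p hp => ?_) fun z _ _ => by positivity
    · have h5 := hG (e.symm none)
      have h6 := (mem_Ioc.1 (mem_filter.1 hp).1).1
      have h7 := (mem_Ioc.1 (mem_filter.1 hp').1).1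
      simp only at h
      omega
    · obtain ⟨p, hp, rfl⟩ := mem_image.1 hz
      obtain ⟨h5, h6, h7⟩ := mem_filter.1 hp
      have h8 := hG (e.symm none)
      obtain ⟨h9, h10⟩ := mem_Ioc.1 h5
      have h11 : p - g (e.symm none) + g (e.symm none) = p := by omega
      refine mem_filter.2 ⟨mem_Ioc.2 ⟨by omega, by omega⟩, ?_, by rwa [h11]⟩
      exact Nat.ModEq.add_right_cancel' (g (e.symm none)) (by rwa [h11])
    · obtain ⟨h5, h6, h7⟩ := mem_filter.1 hp
      have h8 := hG (e.symm none)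
      obtain ⟨h9, h10⟩ := mem_Ioc.1 h5
      obtain ⟨h11, h12⟩ := Pr.log_bd hx0 h5
      rw [← Pr.SS_re e, _root_.funext (yF_re e c n b _ _), SS_marg _ (gr_prime D x) _ _ h7
        (by rw [Nat.cast_sub (by omega), sub_add_cancel]) fun T hT =>
          ((supp_leK ω0 hL (yF_supp hT)).trans_lt (by nlinarith)).trans_le h11]
      gcongr

end

end Pool.Agent.Lib.MP_fc51f7_nt.MT
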